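import Pool.Agent.TH144.MB.Lines

/-!
# Macaulay's bound for as many forms as variables
-/

set_option autoImplicit false

namespace Pool.Agent.TH144.MB

open MvPolynomial Module

variable {σ : Type} {K : Type} [Field K]

/-- `I + (fs)` -/
noncomputable def ext (I : Ideal (MvPolynomial σ K)) : List (MvPolynomial σ K) → Ideal (MvPolynomial σ K)
  | [] => I
  | f :: fs => ext (I ⊔ Ideal.span {f}) fs

/-- `fs` is a regular sequence modulo `I` (the quotient may be zero) -/
def Reg (I : Ideal (MvPolynomial σ K)) : List (MvPolynomial σ K) → Prop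
  | [] => True
  | f :: fs => NZ f I ∧ Reg (I ⊔ Ideal.span {f}) fs

theorem ext_append (fs gs : List (MvPolynomial σ K)) :
    ∀ I : Ideal (MvPolynomial σ K), ext I (fs ++ gs) = ext (ext I fs) gs := by
  induction fs with
  | nil => intro I; rfl
  | cons f fs ih => intro I; exact ih _

theorem reg_append (fs gs : List (MvPolynomial σ K)) :
    ∀ I : Ideal (MvPolynomial σ K), Reg I (fs ++ gs) ↔ Reg I fs ∧ Reg (ext I fs) gs := by
  induction fs with
  | nil => intro I; simp [Reg, ext]
  | cons f fs ih =>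
    intro I
    simp only [List.cons_append, Reg, ext]
    rw [ih, and_assoc]

theorem ext_sup (fs : List (MvPolynomial σ K)) :
    ∀ I J : Ideal (MvPolynomial σ K), ext (I ⊔ J) fs = ext I fs ⊔ J := by
  induction fs with
  | nil => intro I J; rfl
  | cons f fs ih =>
    intro I J
    simp only [ext]
    rw [sup_right_comm, ih]

theorem ext_cons (I : Ideal (MvPolynomial σ K)) (f : MvPolynomial σ K)
    (fs : List (MvPolynomial σ K)) : ext I (f :: fs) = ext I fs ⊔ Ideal.span {f} := by
  simp only [ext]
  rw [ext_sup]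

theorem le_ext (fs : List (MvPolynomial σ K)) (I : Ideal (MvPolynomial σ K)) : I ≤ ext I fs := by
  induction fs with
  | nil => exact le_rfl
  | cons f fs ih => rw [ext_cons]; exact ih.trans le_sup_left

theorem hom_ext (fs : List (MvPolynomial σ K)) :
    ∀ I : Ideal (MvPolynomial σ K), Hom I → (∀ f ∈ fs, ∃ d, f.IsHomogeneous d) →
      Hom (ext I fs) := by
  induction fs with
  | nil => intro I hI _; exact hI
  | cons f fs ih =>
    intro I hI h
    obtain ⟨d, hd⟩ := h f (by simp)
    exact ih _ (hom_sup hI hd) fun g hg => h g (by simp [hg])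

theorem zero_ext (fs : List (MvPolynomial σ K)) (I : Ideal (MvPolynomial σ K)) (v : σ → K) :
    (∀ p ∈ ext I fs, eval v p = 0) ↔ (∀ p ∈ I, eval v p = 0) ∧ ∀ f ∈ fs, eval v f = 0 := by
  induction fs with
  | nil => simp [ext]
  | cons f fs ih =>
    rw [ext_cons]
    constructor
    · intro h
      have h1 := ih.1 fun p hp => h p (Ideal.mem_sup_left hp)
      refine ⟨h1.1, ?_⟩
      intro g hg
      rcases List.mem_cons.1 hg with rfl | hg
      · exact h g (Ideal.mem_sup_right (Ideal.mem_span_singleton_self g))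
      · exact h1.2 g hg
    · rintro ⟨h1, h2⟩ p hp
      obtain ⟨q, hq⟩ := mem_sup_iff.1 hp
      have h3 := ih.2 ⟨h1, fun g hg => h2 g (by simp [hg])⟩ _ hq
      rw [map_sub, map_mul, h2 f (by simp), zero_mul, sub_zero] at h3
      exact h3

/-- the first element of a regular sequence may be moved to the end -/
theorem reg_rotate {l : MvPolynomial σ K} (hl : l.IsHomogeneous 1) (fs : List (MvPolynomial σ K)) :
    ∀ I : Ideal (MvPolynomial σ K), Hom I → (∀ f ∈ fs, ∃ d, f.IsHomogeneous d) →
      Reg I (l :: fs) → Reg I fs ∧ NZ l (ext I fs) := by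
  induction fs with
  | nil => intro I _ _ h; exact ⟨trivial, h.1⟩
  | cons f fs ih =>
    intro I hI hfs h
    obtain ⟨d, hd⟩ := hfs f (by simp)
    obtain ⟨h1, h2, h3⟩ := h
    obtain ⟨h4, h5⟩ := swap hI one_pos hl hd h1 h2
    have h6 := ih (I ⊔ Ideal.span {f}) (hom_sup hI hd) (fun g hg => hfs g (by simp [hg]))
      ⟨h5, by rw [sup_right_comm]; exact h3⟩
    exact ⟨⟨h4, h6.1⟩, h6.2⟩

theorem hom_bot : Hom (⊥ : Ideal (MvPolynomial σ K)) := by
  intro p hp n
  rw [Ideal.mem_bot] at hp ⊢
  rw [hp, map_zero]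

/-! ### independent linear forms -/

theorem nz_X {s : Set σ} {i : σ} (hi : i ∉ s) :
    NZ (X i : MvPolynomial σ K) (Ideal.span (X '' s)) := by
  classical
  intro p hp
  rw [mem_ideal_span_X_image] at hp ⊢
  intro m hm
  obtain ⟨j, hj, hj2⟩ := hp (Finsupp.single i 1 + m) (by
    rw [MvPolynomial.mem_support_iff, coeff_X_mul]
    exact MvPolynomial.mem_support_iff.1 hm)
  refine ⟨j, hj, ?_⟩
  have h1 : i ≠ j := fun h => hi (h ▸ hj)
  rwa [Finsupp.add_apply, Finsupp.single_apply, if_neg h1, zero_add] at hj2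

theorem reg_X (L : List σ) : ∀ s : Set σ, L.Nodup → (∀ i ∈ L, i ∉ s) →
    Reg (Ideal.span (X '' s)) (L.map (X : σ → MvPolynomial σ K)) := by
  induction L with
  | nil => intro s _ _; trivial
  | cons i L ih =>
    intro s hn hs
    rw [List.nodup_cons] at hn
    refine ⟨nz_X (hs i (by simp)), ?_⟩
    have h1 := ih (s ∪ {i}) hn.2 (by
      intro j hj
      rw [Set.mem_union, not_or]
      exact ⟨hs j (by simp [hj]), fun h => hn.1 (Set.mem_singleton_iff.1 h ▸ hj)⟩)
    rwa [Set.image_union, Set.image_singleton, Ideal.span_union] at h1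

theorem nz_map (φ : MvPolynomial σ K ≃ₐ[K] MvPolynomial σ K) {f : MvPolynomial σ K}
    {I : Ideal (MvPolynomial σ K)} (h : NZ f I) : NZ (φ f) (I.map φ) := by
  intro p hp
  obtain ⟨q, rfl⟩ := φ.surjective p
  rw [← map_mul] at hp
  have h1 : ∀ x, φ x ∈ I.map φ ↔ x ∈ I := by
    intro x
    constructor
    · intro hx
      obtain ⟨y, hy, hxy⟩ := (Ideal.mem_map_iff_of_surjective φ φ.surjective).1 hx
      rwa [← φ.injective hxy]
    · exact fun hx => Ideal.mem_map_of_mem φ hx
  rw [h1] at hp ⊢
  exact h q hp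

theorem reg_map (φ : MvPolynomial σ K ≃ₐ[K] MvPolynomial σ K) (L : List (MvPolynomial σ K)) :
    ∀ I : Ideal (MvPolynomial σ K), Reg I L → Reg (I.map φ) (L.map φ) := by
  induction L with
  | nil => intro I _; trivial
  | cons f L ih =>
    intro I h
    refine ⟨nz_map φ h.1, ?_⟩
    have h1 := ih _ h.2
    rwa [Ideal.map_sup, Ideal.map_span, Set.image_singleton] at h1

theorem aeval_lin [Fintype σ] (A : Matrix σ σ K) (a : σ → K) :
    aeval (fun i => lin (A i)) (lin a) = (lin (Matrix.vecMul a A) : MvPolynomial σ K) := by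
  have h1 : aeval (fun i => lin (A i)) (lin a)
      = ∑ i, C (a i) * (lin (A i) : MvPolynomial σ K) := by
    unfold lin
    simp [map_sum]
  rw [h1]
  unfold lin
  simp only [Finset.mul_sum]
  rw [Finset.sum_comm]
  refine Finset.sum_congr rfl fun j _ => ?_
  simp only [← mul_assoc, ← map_mul]
  rw [← Finset.sum_mul, ← map_sum]
  rfl

theorem lin_single [Fintype σ] [DecidableEq σ] (i : σ) :
    lin ((1 : Matrix σ σ K) i) = (X i : MvPolynomial σ K) := by
  unfold lin
  rw [Finset.sum_eq_single i]
  · simp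
  · intro j _ hj
    rw [Matrix.one_apply_ne hj.symm, map_zero, zero_mul]
  · intro h; exact absurd (Finset.mem_univ i) h

theorem reg_lin [Fintype σ] (ls : List (σ → K)) (hlen : ls.length = Fintype.card σ)
    (h : ∀ v : σ → K, (∀ a ∈ ls, eval v (lin a) = 0) → v = 0) :
    Reg (⊥ : Ideal (MvPolynomial σ K)) (ls.map lin) ∧
      ∀ i : σ, (X i : MvPolynomial σ K) ∈ ext ⊥ (ls.map lin) := by
  classical
  let e : σ ≃ Fin ls.length := (Fintype.equivFin σ).trans (finCongr hlen.symm)
  let A : Matrix σ σ K := fun i => ls.get (e i)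
  have hA : ∀ v, A.mulVec v = 0 → v = 0 := by
    intro v hv
    refine h v fun a ha => ?_
    obtain ⟨k, rfl⟩ := List.get_of_mem ha
    have h1 := congrFun hv (e.symm k)
    simp only [Matrix.mulVec, A, Equiv.apply_symm_apply] at h1
    rw [eval_lin]
    exact h1
  have hU : IsUnit A := by
    rw [← Matrix.mulVec_injective_iff_isUnit]
    intro v w hvw
    have h1 := hA (v - w) (by rw [Matrix.mulVec_sub, hvw, sub_self])
    exact sub_eq_zero.1 h1
  obtain ⟨B, hB1, hB2⟩ := isUnit_iff_exists.1 hU
  have hcomp : ∀ A B : Matrix σ σ K, B * A = 1 →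
      (aeval (fun i => lin (A i)) : MvPolynomial σ K →ₐ[K] MvPolynomial σ K).comp
        (aeval fun i => lin (B i)) = AlgHom.id K _ := by
    intro A B hBA
    apply algHom_ext
    intro i
    rw [AlgHom.comp_apply, aeval_X, aeval_lin, AlgHom.id_apply]
    have h1 : Matrix.vecMul (B i) A = (B * A) i := by
      funext j
      rfl
    rw [h1, hBA, lin_single]
  let φ : MvPolynomial σ K ≃ₐ[K] MvPolynomial σ K :=
    AlgEquiv.ofAlgHom (aeval fun i => lin (A i)) (aeval fun i => lin (B i))
      (hcomp A B hB2) (hcomp B A hB1)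
  have hφ : ∀ i, φ (X i) = lin (A i) := by
    intro i
    show aeval (fun i => lin (A i)) (X i) = _
    rw [aeval_X]
  have hL : ls.map lin = ((List.ofFn fun k => e.symm k).map
      (X : σ → MvPolynomial σ K)).map φ := by
    rw [List.map_map, List.map_ofFn]
    conv_lhs => rw [← List.ofFn_get ls, List.map_ofFn]
    congr 1
    funext k
    simp only [Function.comp, hφ, A, Equiv.apply_symm_apply]
  have h1 := reg_X (K := K) (List.ofFn fun k => e.symm k) ∅
    (List.nodup_ofFn.2 e.symm.injective) (by simp)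
  rw [Set.image_empty, Ideal.span_empty] at h1
  have h2 := reg_map φ _ _ h1
  rw [Ideal.map_bot] at h2
  refine ⟨by rw [hL]; exact h2, ?_⟩
  intro i
  -- `X i` is a combination of the forms
  have h3 : ∀ a ∈ ls, (lin a : MvPolynomial σ K) ∈ ext ⊥ (ls.map lin) := by
    have h4 : ∀ (L : List (MvPolynomial σ K)) (I : Ideal (MvPolynomial σ K)),
        ∀ f ∈ L, f ∈ ext I L := by
      intro L
      induction L with
      | nil => intro I f hf; simp at hf
      | cons g L ih =>
        intro I f hf
        rw [ext_cons]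
        rcases List.mem_cons.1 hf with rfl | hf
        · exact Ideal.mem_sup_right (Ideal.mem_span_singleton_self f)
        · exact Ideal.mem_sup_left (ih I f hf)
    intro a ha
    exact h4 _ _ _ (List.mem_map_of_mem ha)
  have h5 : (X i : MvPolynomial σ K) = ∑ j, C (B i j) * lin (A j) := by
    have h6 : (∑ j, C (B i j) * lin (A j) : MvPolynomial σ K)
        = aeval (fun i => lin (A i)) (lin (B i)) := by
      rw [show (lin (B i) : MvPolynomial σ K) = ∑ j, C (B i j) * X j from rfl]
      simp [map_sum]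
    rw [h6, aeval_lin]
    have h7 : Matrix.vecMul (B i) A = (B * A) i := by
      funext j
      rfl
    rw [h7, hB2, lin_single]
  rw [h5]
  exact Ideal.sum_mem _ fun j _ => Ideal.mul_mem_left _ _ (h3 _ (List.get_mem _ _))

theorem mem_of_X_mem {I : Ideal (MvPolynomial σ K)} (h : ∀ i, (X i : MvPolynomial σ K) ∈ I)
    {t : ℕ} (ht : 0 < t) {p : MvPolynomial σ K} (hp : p.IsHomogeneous t) : p ∈ I := by
  classical
  rw [p.as_sum]
  refine Ideal.sum_mem _ fun m hm => ?_
  have h3 : m.degree = t := by
    by_contra h4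
    exact (MvPolynomial.mem_support_iff.1 hm) (hp.coeff_eq_zero h4)
  have h4 : ∃ i, m i ≠ 0 := by
    by_contra hc
    push Not at hc
    have : m = 0 := Finsupp.ext hc
    rw [this, map_zero] at h3
    omega
  obtain ⟨i, hi⟩ := h4
  have h5 : (monomial m (coeff m p) : MvPolynomial σ K)
      = monomial (m - Finsupp.single i 1) (coeff m p) * X i := by
    rw [← pow_one (X i : MvPolynomial σ K), X_pow_eq_monomial, monomial_mul, mul_one,
      tsub_add_cancel_of_le]
    rw [Finsupp.single_le_iff]
    omega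
  rw [h5]
  exact I.mul_mem_left _ (h i)

/-- Forms without nonzero common zeros, as many as there are variables, are a regular sequence,
and the ideal generated by them contains all forms of degree `> ∑ (d - 1)`. -/
theorem square [Fintype σ] [IsAlgClosed K] (fs : List (MvPolynomial σ K × ℕ)) :
    ∀ ls : List (σ → K), (∀ x ∈ fs, x.1.IsHomogeneous x.2 ∧ 0 < x.2) →
    ls.length + fs.length = Fintype.card σ →
    (∀ v : σ → K, (∀ a ∈ ls, eval v (lin a) = 0) → (∀ x ∈ fs, eval v x.1 = 0) → v = 0) →
    Reg (⊥ : Ideal (MvPolynomial σ K)) (ls.map lin ++ fs.map Prod.fst) ∧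
      ∀ t, (fs.map fun x => x.2 - 1).sum < t → ∀ p : MvPolynomial σ K, p.IsHomogeneous t →
        p ∈ ext ⊥ (ls.map lin ++ fs.map Prod.fst) := by
  have := IsAlgClosed.instInfinite (K := K)
  induction fs using List.reverseRecOn with
  | nil =>
    intro ls _ hlen hv
    simp only [List.length_nil, add_zero, List.map_nil, List.append_nil, List.sum_nil] at *
    obtain ⟨h1, h2⟩ := reg_lin ls hlen fun v h => hv v h (by simp)
    exact ⟨h1, fun t ht p hp => mem_of_X_mem h2 ht hp⟩
  | append_singleton fs x ih =>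
    intro ls hfs hlen hv
    obtain ⟨f, d⟩ := x
    have hfd := hfs (f, d) (by simp)
    have hfs' : ∀ x ∈ fs, x.1.IsHomogeneous x.2 ∧ 0 < x.2 := fun x hx => hfs x (by simp [hx])
    set I : Ideal (MvPolynomial σ K) := ext ⊥ (ls.map lin ++ fs.map Prod.fst) with hIdef
    have hhom : ∀ g ∈ ls.map lin ++ fs.map Prod.fst, ∃ d, g.IsHomogeneous d := by
      intro g hg
      rw [List.mem_append, List.mem_map, List.mem_map] at hg
      rcases hg with ⟨a, _, rfl⟩ | ⟨x, hx, rfl⟩
      · exact ⟨1, lin_hom a⟩
      · exact ⟨_, (hfs' x hx).1⟩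
    have hI : Hom I := hom_ext _ _ hom_bot hhom
    have hzI : ∀ v : σ → K, (∀ p ∈ I, eval v p = 0) ↔
        (∀ a ∈ ls, eval v (lin a) = 0) ∧ ∀ x ∈ fs, eval v x.1 = 0 := by
      intro v
      rw [hIdef, zero_ext]
      constructor
      · rintro ⟨_, h2⟩
        exact ⟨fun a ha => h2 _ (by simp only [List.mem_append, List.mem_map]
                                    exact Or.inl ⟨a, ha, rfl⟩),
          fun x hx => h2 _ (by simp only [List.mem_append, List.mem_map]
                               exact Or.inr ⟨x, hx, rfl⟩)⟩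
      · rintro ⟨h1, h2⟩
        refine ⟨by simp, ?_⟩
        intro g hg
        rw [List.mem_append, List.mem_map, List.mem_map] at hg
        rcases hg with ⟨a, ha, rfl⟩ | ⟨x, hx, rfl⟩
        · exact h1 a ha
        · exact h2 x hx
    obtain ⟨T, hT⟩ := exists_top (I := I ⊔ Ideal.span {f}) (by
      intro v h
      have h1 := (hzI v).1 fun p hp => h p (Ideal.mem_sup_left hp)
      refine hv v h1.1 ?_
      intro x hx
      rw [List.mem_append, List.mem_singleton] at hx
      rcases hx with hx | rfl
      · exact h1.2 x hx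
      · exact h f (Ideal.mem_sup_right (Ideal.mem_span_singleton_self f)))
    obtain ⟨B, hB⟩ := bounded hI hfd.2 hfd.1 hT
    obtain ⟨a, ha⟩ := exists_lin hB
    obtain ⟨h1, h2⟩ := ih (ls ++ [a]) hfs' (by
      simp only [List.length_append, List.length_cons, List.length_nil] at hlen ⊢
      omega) (by
      intro v hv1 hv2
      by_contra hv0
      refine ha v hv0 ((hzI v).2 ⟨fun b hb => hv1 b (by simp [hb]), hv2⟩) (hv1 a (by simp)))
    have h3 : (ls ++ [a]).map lin ++ fs.map Prod.fst
        = ls.map lin ++ (lin a :: fs.map Prod.fst) := by simp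
    rw [h3] at h1 h2
    rw [reg_append] at h1
    have hhom1 : ∀ g ∈ fs.map Prod.fst, ∃ d, g.IsHomogeneous d := fun g hg =>
      hhom g (by simp only [List.mem_append]; exact Or.inr hg)
    have hhom2 : ∀ g ∈ ls.map (lin (K := K)), ∃ d, g.IsHomogeneous d := fun g hg =>
      hhom g (by simp only [List.mem_append]; exact Or.inl hg)
    obtain ⟨h4, h5⟩ := reg_rotate (lin_hom a) _ _ (hom_ext _ _ hom_bot hhom2) hhom1 h1.2
    rw [← ext_append] at h5
    have h6 : ext ⊥ (ls.map lin ++ (lin a :: fs.map Prod.fst)) = I ⊔ Ideal.span {lin a} := by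
      rw [ext_append, ext_cons, ← ext_append]
    rw [h6] at h2
    obtain ⟨h7, h8⟩ := step hI (lin_hom a) h5 h2 hfd.1 hT
    have h9 : ls.map lin ++ (fs ++ [(f, d)]).map Prod.fst
        = (ls.map lin ++ fs.map Prod.fst) ++ [f] := by simp
    rw [h9]
    refine ⟨?_, ?_⟩
    · rw [reg_append, reg_append]
      exact ⟨⟨h1.1, h4⟩, h7, trivial⟩
    · intro t ht p hp
      rw [ext_append, ext_cons]
      refine h8 t ?_ p hp
      rw [List.map_append, List.sum_append] at ht
      simp only [List.map_cons, List.map_nil, List.sum_cons, List.sum_nil, add_zero] at ht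
      have := hfd.2
      simp only at this
      omega

end Pool.Agent.TH144.MB
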