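import Mathlib

/-!
# Homogeneous ideals of a polynomial ring: nonzerodivisors and Hilbert functions

`NZ f I`: `f` is a nonzerodivisor modulo `I`. `step`: let `l` be a linear form which is a
nonzerodivisor modulo `I` such that `I + (l)` contains all forms of degree `> τ`, and let `f` be a
form of degree `d` such that `I + (f)` contains all forms of large degree. Then `f` is a
nonzerodivisor modulo `I` and `I + (f)` contains all forms of degree `≥ τ + d`.
-/

set_option autoImplicit false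

namespace Pool.Agent.TH144.MB

open MvPolynomial Module

variable {σ : Type} {K : Type} [Field K]

/-- all homogeneous components of the elements of `I` lie in `I` -/
def Hom (I : Ideal (MvPolynomial σ K)) : Prop := ∀ p ∈ I, ∀ n, homogeneousComponent n p ∈ I

section
attribute [local instance] MvPolynomial.gradedAlgebra

theorem hom_span {s : Set (MvPolynomial σ K)} (h : ∀ p ∈ s, ∃ n, p.IsHomogeneous n) :
    Hom (Ideal.span s) := by
  intro p hp n
  have h1 : (Ideal.span s).IsHomogeneous (homogeneousSubmodule σ K) :=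
    Ideal.homogeneous_span _ _ (by
      intro x hx
      obtain ⟨n, hn⟩ := h x hx
      exact ⟨n, hn⟩)
  exact homogeneousComponent_mem_of_mem h1 hp n
end

theorem comp_mul {f : MvPolynomial σ K} {d : ℕ} (hf : f.IsHomogeneous d) (q : MvPolynomial σ K)
    (n : ℕ) : homogeneousComponent (d + n) (f * q) = f * homogeneousComponent n q := by
  classical
  conv_lhs => rw [← sum_homogeneousComponent q, Finset.mul_sum, map_sum]
  have h1 : ∀ i ∈ Finset.range (q.totalDegree + 1),
      homogeneousComponent (d + n) (f * homogeneousComponent i q)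
        = if i = n then f * homogeneousComponent i q else 0 := by
    intro i _
    have h2 : (f * homogeneousComponent i q) ∈ homogeneousSubmodule σ K (d + i) :=
      hf.mul (homogeneousComponent_isHomogeneous i q)
    rw [homogeneousComponent_of_mem h2]
    by_cases h : i = n
    · simp [h]
    · rw [if_neg h, if_neg (by omega)]
  rw [Finset.sum_congr rfl h1, Finset.sum_ite_eq']
  split_ifs with h
  · rfl
  · rw [homogeneousComponent_eq_zero _ _ (by simpa using h), mul_zero]

theorem comp_mul_lt {f : MvPolynomial σ K} {d : ℕ} (hf : f.IsHomogeneous d)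
    (q : MvPolynomial σ K) {m : ℕ} (hm : m < d) : homogeneousComponent m (f * q) = 0 := by
  classical
  rw [← sum_homogeneousComponent q, Finset.mul_sum, map_sum]
  refine Finset.sum_eq_zero ?_
  intro i _
  have h2 : (f * homogeneousComponent i q) ∈ homogeneousSubmodule σ K (d + i) :=
    hf.mul (homogeneousComponent_isHomogeneous i q)
  rw [homogeneousComponent_of_mem h2, if_neg (by omega)]

/-- `f` is a nonzerodivisor modulo `I` -/
def NZ (f : MvPolynomial σ K) (I : Ideal (MvPolynomial σ K)) : Prop := ∀ p, f * p ∈ I → p ∈ I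

theorem NZ.pow {f : MvPolynomial σ K} {I : Ideal (MvPolynomial σ K)} (h : NZ f I) :
    ∀ (k : ℕ) (p : MvPolynomial σ K), f ^ k * p ∈ I → p ∈ I := by
  intro k
  induction k with
  | zero => intro p hp; simpa using hp
  | succ k ih =>
    intro p hp
    rw [pow_succ, mul_assoc] at hp
    exact h p (ih _ hp)

theorem mem_of_comp {I : Ideal (MvPolynomial σ K)} {p : MvPolynomial σ K}
    (h : ∀ n, homogeneousComponent n p ∈ I) : p ∈ I := by
  rw [← sum_homogeneousComponent p]
  exact Ideal.sum_mem _ fun n _ => h n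

/-- it is enough to consider homogeneous elements -/
theorem NZ.of_hom {f : MvPolynomial σ K} {d : ℕ} (hf : f.IsHomogeneous d)
    {I : Ideal (MvPolynomial σ K)} (hI : Hom I)
    (h : ∀ (n : ℕ) (p : MvPolynomial σ K), p.IsHomogeneous n → f * p ∈ I → p ∈ I) : NZ f I := by
  intro p hp
  refine mem_of_comp fun n => ?_
  refine h n _ (homogeneousComponent_isHomogeneous n p) ?_
  rw [← comp_mul hf]
  exact hI _ hp _

theorem mem_sup_iff {I : Ideal (MvPolynomial σ K)} {f p : MvPolynomial σ K} :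
    p ∈ I ⊔ Ideal.span {f} ↔ ∃ q, p - f * q ∈ I := by
  rw [Submodule.mem_sup]
  constructor
  · rintro ⟨y, hy, z, hz, rfl⟩
    obtain ⟨q, rfl⟩ := Ideal.mem_span_singleton'.1 hz
    exact ⟨q, by rw [mul_comm f q]; simpa using hy⟩
  · rintro ⟨q, hq⟩
    exact ⟨_, hq, f * q, Ideal.mem_span_singleton.2 (Dvd.intro _ rfl), by ring⟩

/-- homogeneous elements of `I + (f)` -/
theorem mem_sup_hom {I : Ideal (MvPolynomial σ K)} (hI : Hom I) {f p : MvPolynomial σ K} {d n : ℕ}
    (hf : f.IsHomogeneous d) (hp : p.IsHomogeneous (d + n)) (h : p ∈ I ⊔ Ideal.span {f}) :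
    ∃ q : MvPolynomial σ K, q.IsHomogeneous n ∧ p - f * q ∈ I := by
  obtain ⟨q, hq⟩ := mem_sup_iff.1 h
  refine ⟨homogeneousComponent n q, homogeneousComponent_isHomogeneous n q, ?_⟩
  have h1 := hI _ hq (d + n)
  rw [map_sub, comp_mul hf, homogeneousComponent_of_mem (show p ∈ homogeneousSubmodule σ K (d + n)
    from hp), if_pos rfl] at h1
  exact h1

theorem mem_of_lt {I : Ideal (MvPolynomial σ K)} (hI : Hom I) {f p : MvPolynomial σ K} {d n : ℕ}
    (hf : f.IsHomogeneous d) (hp : p.IsHomogeneous n) (hn : n < d) (h : p ∈ I ⊔ Ideal.span {f}) :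
    p ∈ I := by
  obtain ⟨q, hq⟩ := mem_sup_iff.1 h
  have h1 := hI _ hq n
  rw [map_sub, comp_mul_lt hf q hn, homogeneousComponent_of_mem
    (show p ∈ homogeneousSubmodule σ K n from hp), if_pos rfl, sub_zero] at h1
  exact h1

theorem hom_sup {I : Ideal (MvPolynomial σ K)} (hI : Hom I) {f : MvPolynomial σ K} {d : ℕ}
    (hf : f.IsHomogeneous d) : Hom (I ⊔ Ideal.span {f}) := by
  intro p hp n
  obtain ⟨q, hq⟩ := mem_sup_iff.1 hp
  have h1 := hI _ hq n
  rw [map_sub] at h1
  rcases lt_or_ge n d with h | h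
  · rw [comp_mul_lt hf q h, sub_zero] at h1
    exact Ideal.mem_sup_left h1
  · obtain ⟨m, rfl⟩ := Nat.exists_eq_add_of_le h
    rw [comp_mul hf] at h1
    exact mem_sup_iff.2 ⟨_, h1⟩

/-- two nonzerodivisors may be interchanged -/
theorem swap {I : Ideal (MvPolynomial σ K)} (hI : Hom I) {l f : MvPolynomial σ K} {a b : ℕ}
    (ha : 0 < a) (hl : l.IsHomogeneous a) (hf : f.IsHomogeneous b) (h1 : NZ l I)
    (h2 : NZ f (I ⊔ Ideal.span {l})) : NZ f I ∧ NZ l (I ⊔ Ideal.span {f}) := by
  have hfI : NZ f I := by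
    refine NZ.of_hom hf hI ?_
    intro n
    induction n using Nat.strong_induction_on with
    | _ n ih =>
      intro p hp hfp
      have h3 : p ∈ I ⊔ Ideal.span {l} := h2 p (Ideal.mem_sup_left hfp)
      rcases lt_or_ge n a with h | h
      · exact mem_of_lt hI hl hp h h3
      · obtain ⟨m, rfl⟩ := Nat.exists_eq_add_of_le h
        obtain ⟨q, hq, hpq⟩ := mem_sup_hom hI hl hp h3
        have h4 : l * (f * q) ∈ I := by
          have h5 := I.sub_mem hfp (I.mul_mem_left f hpq)
          convert h5 using 1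
          ring
        have h6 : q ∈ I := ih m (by omega) q hq (h1 _ h4)
        have h7 := I.add_mem hpq (I.mul_mem_left l h6)
        convert h7 using 1
        ring
  refine ⟨hfI, ?_⟩
  intro p hp
  obtain ⟨q, hq⟩ := mem_sup_iff.1 hp
  have h3 : f * q ∈ I ⊔ Ideal.span {l} := by
    refine mem_sup_iff.2 ⟨p, ?_⟩
    have := I.neg_mem hq
    convert this using 1
    ring
  obtain ⟨r, hr⟩ := mem_sup_iff.1 (h2 q h3)
  refine mem_sup_iff.2 ⟨r, h1 _ ?_⟩
  have h4 := I.add_mem hq (I.mul_mem_left f hr)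
  convert h4 using 1
  ring

/-- the forms of degree `t` modulo `I` -/
noncomputable def W (I : Ideal (MvPolynomial σ K)) (t : ℕ) :
    Submodule K (MvPolynomial σ K ⧸ I) :=
  (homogeneousSubmodule σ K t).map (Ideal.Quotient.mkₐ K I).toLinearMap

theorem mem_W {I : Ideal (MvPolynomial σ K)} {t : ℕ} {x : MvPolynomial σ K ⧸ I} :
    x ∈ W I t ↔ ∃ p : MvPolynomial σ K, p.IsHomogeneous t ∧ Ideal.Quotient.mk I p = x := Iff.rfl

instance [Finite σ] (I : Ideal (MvPolynomial σ K)) (t : ℕ) : FiniteDimensional K (W I t) := by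
  have h1 : (W I t).FG := (homogeneousSubmodule_fg σ K t).map _
  exact Module.Finite.iff_fg.2 h1

/-- multiplication by `f` modulo `I` -/
noncomputable def mu (f : MvPolynomial σ K) (I : Ideal (MvPolynomial σ K)) :
    (MvPolynomial σ K ⧸ I) →ₗ[K] (MvPolynomial σ K ⧸ I) :=
  LinearMap.mulLeft K (Ideal.Quotient.mk I f)

theorem mu_mk (f : MvPolynomial σ K) (I : Ideal (MvPolynomial σ K)) (p : MvPolynomial σ K) :
    mu f I (Ideal.Quotient.mk I p) = Ideal.Quotient.mk I (f * p) := by
  simp [mu]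

theorem map_le {I : Ideal (MvPolynomial σ K)} {f : MvPolynomial σ K} {d : ℕ}
    (hf : f.IsHomogeneous d) (t : ℕ) : (W I t).map (mu f I) ≤ W I (d + t) := by
  rintro _ ⟨x, hx, rfl⟩
  obtain ⟨p, hp, rfl⟩ := mem_W.1 hx
  rw [mu_mk]
  exact mem_W.2 ⟨_, hf.mul hp, rfl⟩

theorem map_eq_iff {I : Ideal (MvPolynomial σ K)} (hI : Hom I) {f : MvPolynomial σ K} {d : ℕ}
    (hf : f.IsHomogeneous d) (t : ℕ) : (W I t).map (mu f I) = W I (d + t) ↔
      ∀ p : MvPolynomial σ K, p.IsHomogeneous (d + t) → p ∈ I ⊔ Ideal.span {f} := by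
  constructor
  · intro h p hp
    have h1 : Ideal.Quotient.mk I p ∈ (W I t).map (mu f I) := by
      rw [h]; exact mem_W.2 ⟨p, hp, rfl⟩
    obtain ⟨x, hx, hxp⟩ := h1
    obtain ⟨q, hq, rfl⟩ := mem_W.1 hx
    rw [mu_mk, eq_comm, Ideal.Quotient.eq] at hxp
    exact mem_sup_iff.2 ⟨q, hxp⟩
  · intro h
    refine le_antisymm (map_le hf t) ?_
    intro x hx
    obtain ⟨p, hp, rfl⟩ := mem_W.1 hx
    obtain ⟨q, hq, hpq⟩ := mem_sup_hom hI hf hp (h p hp)
    refine ⟨Ideal.Quotient.mk I q, mem_W.2 ⟨q, hq, rfl⟩, ?_⟩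
    rw [mu_mk, eq_comm, Ideal.Quotient.eq]
    exact hpq

theorem NZ.inj {f : MvPolynomial σ K} {I : Ideal (MvPolynomial σ K)} (h : NZ f I) :
    Function.Injective (mu f I) := by
  rw [← LinearMap.ker_eq_bot, LinearMap.ker_eq_bot']
  intro x hx
  obtain ⟨p, rfl⟩ := Ideal.Quotient.mk_surjective x
  rw [mu_mk, Ideal.Quotient.eq_zero_iff_mem] at hx
  exact Ideal.Quotient.eq_zero_iff_mem.2 (h p hx)

theorem finrank_le_of_NZ [Finite σ] {I : Ideal (MvPolynomial σ K)} {f : MvPolynomial σ K} {d : ℕ}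
    (hf : f.IsHomogeneous d) (h : NZ f I) (t : ℕ) :
    finrank K (W I t) ≤ finrank K (W I (d + t)) := by
  rw [(Submodule.equivMapOfInjective (mu f I) h.inj (W I t)).finrank_eq]
  exact Submodule.finrank_mono (map_le hf t)

theorem finrank_le_of_mem [Finite σ] {I : Ideal (MvPolynomial σ K)} (hI : Hom I)
    {f : MvPolynomial σ K} {d : ℕ} (hf : f.IsHomogeneous d) {t : ℕ}
    (h : ∀ p : MvPolynomial σ K, p.IsHomogeneous (d + t) → p ∈ I ⊔ Ideal.span {f}) :
    finrank K (W I (d + t)) ≤ finrank K (W I t) := by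
  rw [← (map_eq_iff hI hf t).2 h]
  exact Submodule.finrank_map_le _ _

theorem step [Finite σ] {I : Ideal (MvPolynomial σ K)} (hI : Hom I) {l : MvPolynomial σ K}
    (hl : l.IsHomogeneous 1) (hnl : NZ l I) {τ : ℕ}
    (hτ : ∀ t, τ < t → ∀ p : MvPolynomial σ K, p.IsHomogeneous t → p ∈ I ⊔ Ideal.span {l})
    {f : MvPolynomial σ K} {d : ℕ} (hf : f.IsHomogeneous d) {T : ℕ}
    (hT : ∀ t, T ≤ t → ∀ p : MvPolynomial σ K, p.IsHomogeneous t → p ∈ I ⊔ Ideal.span {f}) :
    NZ f I ∧ ∀ t, τ + d ≤ t → ∀ p : MvPolynomial σ K, p.IsHomogeneous t →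
      p ∈ I ⊔ Ideal.span {f} := by
  have he : ∀ s, finrank K (W I (τ + s)) = finrank K (W I τ) := by
    intro s
    induction s with
    | zero => rfl
    | succ s ih =>
      rw [← ih, show τ + (s + 1) = 1 + (τ + s) by ring]
      refine le_antisymm (finrank_le_of_mem hI hl (hτ _ (by omega))) (finrank_le_of_NZ hl hnl _)
  have he2 : ∀ s, τ ≤ s → finrank K (W I (d + s)) = finrank K (W I s) := by
    intro s hs
    obtain ⟨u, rfl⟩ := Nat.exists_eq_add_of_le hs
    rw [he u, show d + (τ + u) = τ + (d + u) by ring, he (d + u)]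
  have hNZ : NZ f I := by
    refine NZ.of_hom hf hI ?_
    intro n p hp hfp
    refine hnl.pow (τ + T) p ?_
    have hq : (l ^ (τ + T) * p).IsHomogeneous (1 * (τ + T) + n) := (hl.pow _).mul hp
    set s : ℕ := 1 * (τ + T) + n with hs
    have h1 := (map_eq_iff hI hf s).2 (hT _ (by omega))
    have h2 : finrank K (((W I s).map (mu f I) : Submodule K (MvPolynomial σ K ⧸ I)))
        = finrank K (W I s) := by
      rw [h1, he2 s (by omega)]
    have h3 := LinearMap.finrank_range_add_finrank_ker ((mu f I).domRestrict (W I s))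
    rw [LinearMap.range_domRestrict, h2] at h3
    have h4 : LinearMap.ker ((mu f I).domRestrict (W I s)) = ⊥ := by
      apply Submodule.finrank_eq_zero.1
      omega
    rw [LinearMap.ker_eq_bot'] at h4
    have h5 := h4 ⟨Ideal.Quotient.mk I (l ^ (τ + T) * p), mem_W.2 ⟨_, hq, rfl⟩⟩ (by
      rw [LinearMap.domRestrict_apply, mu_mk, Ideal.Quotient.eq_zero_iff_mem,
        mul_left_comm]
      exact I.mul_mem_left _ hfp)
    rw [Submodule.mk_eq_zero, Ideal.Quotient.eq_zero_iff_mem] at h5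
    exact h5
  refine ⟨hNZ, ?_⟩
  intro t ht p hp
  obtain ⟨u, rfl⟩ := Nat.exists_eq_add_of_le ht
  have h1 : (W I (τ + u)).map (mu f I) = W I (d + (τ + u)) := by
    apply Submodule.eq_of_le_of_finrank_eq (map_le hf _)
    rw [he2 _ (by omega)]
    exact (Submodule.equivMapOfInjective (mu f I) hNZ.inj (W I (τ + u))).finrank_eq.symm
  refine (map_eq_iff hI hf _).1 h1 p ?_
  convert hp using 1
  ring

end Pool.Agent.TH144.MB
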