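import Pool.Agent.TH144.MB.Macaulay

/-!
# Linear sections of Cohen-Macaulay quotients

`exchange`: if `S/I` has a regular sequence of `D` linear forms `a` such that `I + (a)` contains all
forms of degree `> τ`, then every sequence `b` of `D` linear forms such that `I + (b)` has no nonzero
common zeros is regular and `I + (b)` contains all forms of degree `> τ`.
`topBound_cm`: the same bound holds for any number of linear forms `b`.
-/

set_option autoImplicit false

namespace Pool.Agent.TH144.MB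

open MvPolynomial Module

variable {σ : Type} {K : Type} [Field K]

/-- the last element of a regular sequence of linear forms may be moved to the front -/
theorem reg_rotate' {l : MvPolynomial σ K} (hl : l.IsHomogeneous 1)
    (fs : List (MvPolynomial σ K)) : ∀ I : Ideal (MvPolynomial σ K), Hom I →
      (∀ f ∈ fs, f.IsHomogeneous 1) → Reg I (fs ++ [l]) → Reg I (l :: fs) := by
  induction fs with
  | nil => intro I _ _ h; exact h
  | cons f fs ih =>
    intro I hI hfs h
    have hf := hfs f (by simp)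
    obtain ⟨h1, h2⟩ := h
    obtain ⟨h3, h4⟩ := ih _ (hom_sup hI hf) (fun g hg => hfs g (by simp [hg])) h2
    obtain ⟨h5, h6⟩ := swap hI one_pos hf hl h1 h3
    exact ⟨h5, h6, by rw [sup_right_comm]; exact h4⟩

theorem finrank_inf [Finite σ] (I J : Ideal (MvPolynomial σ K)) (t : ℕ) :
    finrank K (W (I ⊓ J) t) ≤ finrank K (W I t) + finrank K (W J t) := by
  have h1 : ∀ x ∈ W (I ⊓ J) t,
      (Ideal.Quotient.factorₐ K (inf_le_left : I ⊓ J ≤ I)).toLinearMap x ∈ W I t := by
    intro x hx
    obtain ⟨p, hp, rfl⟩ := mem_W.1 hx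
    exact mem_W.2 ⟨p, hp, rfl⟩
  have h2 : ∀ x ∈ W (I ⊓ J) t,
      (Ideal.Quotient.factorₐ K (inf_le_right : I ⊓ J ≤ J)).toLinearMap x ∈ W J t := by
    intro x hx
    obtain ⟨p, hp, rfl⟩ := mem_W.1 hx
    exact mem_W.2 ⟨p, hp, rfl⟩
  rw [← finrank_prod]
  refine LinearMap.finrank_le_finrank_of_injective
    (f := ((Ideal.Quotient.factorₐ K (inf_le_left : I ⊓ J ≤ I)).toLinearMap.restrict h1).prod
      ((Ideal.Quotient.factorₐ K (inf_le_right : I ⊓ J ≤ J)).toLinearMap.restrict h2)) ?_
  rw [← LinearMap.ker_eq_bot, LinearMap.ker_eq_bot']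
  rintro ⟨x, hx⟩ h
  obtain ⟨p, hp, rfl⟩ := mem_W.1 hx
  have h3 : Ideal.Quotient.mk I p = 0 := congrArg Subtype.val (congrArg Prod.fst h)
  have h4 : Ideal.Quotient.mk J p = 0 := congrArg Subtype.val (congrArg Prod.snd h)
  rw [Ideal.Quotient.eq_zero_iff_mem] at h3 h4
  rw [Submodule.mk_eq_zero, Ideal.Quotient.eq_zero_iff_mem]
  exact ⟨h3, h4⟩

theorem hom_lin_map [Fintype σ] (ls : List (σ → K)) :
    ∀ f ∈ ls.map (lin (K := K)), f.IsHomogeneous 1 := by
  intro f hf
  obtain ⟨a, _, rfl⟩ := List.mem_map.1 hf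
  exact lin_hom a

theorem zero_ext_lin [Fintype σ] (ls : List (σ → K)) (I : Ideal (MvPolynomial σ K)) (v : σ → K) :
    (∀ p ∈ ext I (ls.map lin), eval v p = 0) ↔
      (∀ p ∈ I, eval v p = 0) ∧ ∀ a ∈ ls, eval v (lin a) = 0 := by
  rw [zero_ext]
  constructor
  · rintro ⟨h1, h2⟩
    exact ⟨h1, fun a ha => h2 _ (List.mem_map_of_mem ha)⟩
  · rintro ⟨h1, h2⟩
    refine ⟨h1, fun f hf => ?_⟩
    obtain ⟨a, ha, rfl⟩ := List.mem_map.1 hf
    exact h2 a ha

theorem zero_sup {I : Ideal (MvPolynomial σ K)} {f : MvPolynomial σ K} {v : σ → K} :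
    (∀ p ∈ I ⊔ Ideal.span {f}, eval v p = 0) ↔ (∀ p ∈ I, eval v p = 0) ∧ eval v f = 0 := by
  have h := zero_ext [f] I v
  simpa [ext] using h

theorem exchange [Fintype σ] [IsAlgClosed K] {τ : ℕ} (n : ℕ) : ∀ (as bs : List (σ → K)),
    as.length = n → bs.length = n → ∀ I : Ideal (MvPolynomial σ K), Hom I →
    Reg I (as.map lin) →
    (∀ t, τ < t → ∀ p : MvPolynomial σ K, p.IsHomogeneous t → p ∈ ext I (as.map lin)) →
    (∀ v : σ → K, (∀ p ∈ I, eval v p = 0) → (∀ b ∈ bs, eval v (lin b) = 0) → v = 0) →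
    Reg I (bs.map lin) ∧
      ∀ t, τ < t → ∀ p : MvPolynomial σ K, p.IsHomogeneous t → p ∈ ext I (bs.map lin) := by
  have := IsAlgClosed.instInfinite (K := K)
  induction n with
  | zero =>
    intro as bs has hbs I hI hreg hτ hv
    rw [List.length_eq_zero_iff] at has hbs
    subst has hbs
    exact ⟨hreg, hτ⟩
  | succ n ih =>
    intro as bs has hbs I hI hreg hτ hv
    rcases List.eq_nil_or_concat as with rfl | ⟨as', a, rfl⟩
    · simp at has
    rcases List.eq_nil_or_concat bs with rfl | ⟨bs', b, rfl⟩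
    · simp at hbs
    rw [List.concat_eq_append] at *
    simp only [List.length_append, List.length_cons, List.length_nil, zero_add,
      Nat.add_right_cancel_iff] at has hbs
    simp only [List.map_append, List.map_cons, List.map_nil] at hreg hτ ⊢
    set Ia : Ideal (MvPolynomial σ K) := ext I (as'.map lin) with hIa
    set Ib : Ideal (MvPolynomial σ K) := ext I (bs'.map lin) with hIb
    have hIah : Hom Ia := hom_ext _ _ hI fun f hf => ⟨1, hom_lin_map _ f hf⟩
    have hIbh : Hom Ib := hom_ext _ _ hI fun f hf => ⟨1, hom_lin_map _ f hf⟩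
    rw [reg_append] at hreg
    have hNa : NZ (lin a) Ia := hreg.2.1
    have hTa : ∀ t, τ < t → ∀ p : MvPolynomial σ K, p.IsHomogeneous t →
        p ∈ Ia ⊔ Ideal.span {lin a} := by
      intro t ht p hp
      have h1 := hτ t ht p hp
      rwa [ext_append, ext_cons] at h1
    obtain ⟨Tb, hTb⟩ := exists_top (I := Ib ⊔ Ideal.span {lin b}) (by
      intro v hv1
      rw [zero_sup, hIb, zero_ext_lin] at hv1
      refine hv v hv1.1.1 fun x hx => ?_
      rw [List.mem_append, List.mem_singleton] at hx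
      rcases hx with hx | rfl
      · exact hv1.1.2 x hx
      · exact hv1.2)
    obtain ⟨Ba, hBa⟩ := bounded hIah one_pos (lin_hom a) (T := τ + 1)
      (fun t ht => hTa t (by omega))
    obtain ⟨Bb, hBb⟩ := bounded hIbh one_pos (lin_hom b) hTb
    obtain ⟨c, hc⟩ := exists_lin (I := Ia ⊓ Ib) (B := Ba + Bb)
      (fun t => (finrank_inf Ia Ib t).trans (add_le_add (hBa t) (hBb t)))
    have hca : ∀ v : σ → K, (∀ p ∈ Ia, eval v p = 0) → eval v (lin c) = 0 → v = 0 := by
      intro v h1 h2
      by_contra h3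
      exact hc v h3 (fun p hp => h1 p hp.1) h2
    have hcb : ∀ v : σ → K, (∀ p ∈ Ib, eval v p = 0) → eval v (lin c) = 0 → v = 0 := by
      intro v h1 h2
      by_contra h3
      exact hc v h3 (fun p hp => h1 p hp.2) h2
    obtain ⟨T1, hT1⟩ := exists_top (I := Ia ⊔ Ideal.span {lin c}) (by
      intro v hv1
      rw [zero_sup] at hv1
      exact hca v hv1.1 hv1.2)
    obtain ⟨hNc, hτc⟩ := step hIah (lin_hom a) hNa hTa (lin_hom c) hT1
    have hrot : Reg I (lin c :: as'.map lin) := by
      refine reg_rotate' (lin_hom c) _ I hI (hom_lin_map _) ?_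
      rw [reg_append]
      exact ⟨hreg.1, hNc, trivial⟩
    obtain ⟨hR, hτ2⟩ := ih as' bs' has hbs (I ⊔ Ideal.span {lin c}) (hom_sup hI (lin_hom c))
      hrot.2 (by
        intro t ht p hp
        rw [ext_sup]
        exact hτc t (by omega) p hp) (by
        intro v h1 h2
        rw [zero_sup] at h1
        refine hcb v ?_ h1.2
        rw [hIb, zero_ext_lin]
        exact ⟨h1.1, h2⟩)
    have h7 : Reg I (lin c :: bs'.map lin) := ⟨hrot.1, hR⟩
    obtain ⟨h8, h9⟩ := reg_rotate (lin_hom c) _ I hI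
      (fun f hf => ⟨1, hom_lin_map _ f hf⟩) h7
    obtain ⟨h10, h11⟩ := step hIbh (lin_hom c) h9 (by
      intro t ht p hp
      have h12 := hτ2 t ht p hp
      rwa [ext_sup] at h12) (lin_hom b) hTb
    refine ⟨?_, ?_⟩
    · rw [reg_append]
      exact ⟨h8, h10, trivial⟩
    · intro t ht p hp
      rw [ext_append, ext_cons]
      exact h11 t (by omega) p hp

/-! ### growth of the Hilbert function -/

theorem finrank_add [Finite σ] {I : Ideal (MvPolynomial σ K)} (hI : Hom I)
    {l : MvPolynomial σ K} (hl : l.IsHomogeneous 1) (t : ℕ) :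
    finrank K (W I (1 + t)) ≤
      finrank K (W I t) + finrank K (W (I ⊔ Ideal.span {l}) (1 + t)) := by
  have h1 : ∀ x ∈ W I (1 + t),
      (Ideal.Quotient.factorₐ K (le_sup_left : I ≤ I ⊔ Ideal.span {l})).toLinearMap x
        ∈ W (I ⊔ Ideal.span {l}) (1 + t) := by
    intro x hx
    obtain ⟨p, hp, rfl⟩ := mem_W.1 hx
    exact mem_W.2 ⟨p, hp, rfl⟩
  set φ := (Ideal.Quotient.factorₐ K (le_sup_left : I ≤ I ⊔ Ideal.span {l})).toLinearMap.restrict h1
    with hφ
  have h2 := LinearMap.finrank_range_add_finrank_ker φ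
  have h3 : finrank K (LinearMap.range φ) ≤ finrank K (W (I ⊔ Ideal.span {l}) (1 + t)) :=
    Submodule.finrank_le _
  have h4 : finrank K (LinearMap.ker φ) ≤ finrank K (W I t) := by
    have h5 : (LinearMap.ker φ).map (W I (1 + t)).subtype ≤ (W I t).map (mu l I) := by
      rintro _ ⟨⟨x, hx⟩, hk, rfl⟩
      obtain ⟨p, hp, rfl⟩ := mem_W.1 hx
      have h6 : Ideal.Quotient.mk (I ⊔ Ideal.span {l}) p = 0 := congrArg Subtype.val hk
      rw [Ideal.Quotient.eq_zero_iff_mem] at h6
      obtain ⟨q, hq, hpq⟩ := mem_sup_hom hI hl hp h6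
      refine ⟨Ideal.Quotient.mk I q, mem_W.2 ⟨q, hq, rfl⟩, ?_⟩
      rw [mu_mk, eq_comm]
      exact Ideal.Quotient.eq.2 hpq
    have h7 : finrank K ((LinearMap.ker φ).map (W I (1 + t)).subtype)
        = finrank K (LinearMap.ker φ) :=
      (Submodule.equivMapOfInjective _ (Submodule.injective_subtype _) _).finrank_eq.symm
    rw [← h7]
    exact (Submodule.finrank_mono h5).trans (Submodule.finrank_map_le _ _)
  omega

theorem growth [Fintype σ] {τ : ℕ} (n : ℕ) : ∀ (as : List (σ → K)), as.length = n + 1 →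
    ∀ I : Ideal (MvPolynomial σ K), Hom I →
    (∀ t, τ < t → ∀ p : MvPolynomial σ K, p.IsHomogeneous t → p ∈ ext I (as.map lin)) →
    ∃ C, ∀ t, finrank K (W I t) ≤ C * (t + 1) ^ n := by
  induction n with
  | zero =>
    intro as has I hI hτ
    obtain ⟨a, rfl⟩ := List.length_eq_one_iff.1 has
    obtain ⟨B, hB⟩ := bounded hI one_pos (lin_hom a) (T := τ + 1)
      (fun t ht p hp => by
        have := hτ t (by omega) p hp
        simpa [ext] using this)
    exact ⟨B, fun t => by simpa using hB t⟩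
  | succ n ih =>
    intro as has I hI hτ
    rcases as with _ | ⟨a, as⟩
    · simp at has
    simp only [List.length_cons, Nat.add_right_cancel_iff] at has
    obtain ⟨C, hC⟩ := ih as has (I ⊔ Ideal.span {lin a}) (hom_sup hI (lin_hom a)) hτ
    refine ⟨finrank K (W I 0) + C, ?_⟩
    have key : ∀ t, finrank K (W I t) ≤ finrank K (W I 0) + t * (C * (t + 1) ^ n) := by
      intro t
      induction t with
      | zero => simp
      | succ t iht =>
        have h1 := finrank_add hI (lin_hom a) t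
        rw [add_comm 1 t] at h1
        have h2 := hC (t + 1)
        have h3 : t * (C * (t + 1) ^ n) ≤ t * (C * (t + 1 + 1) ^ n) :=
          Nat.mul_le_mul_left _ (Nat.mul_le_mul_left _ (Nat.pow_le_pow_left (by omega) _))
        have h4 : (t + 1) * (C * (t + 1 + 1) ^ n)
            = t * (C * (t + 1 + 1) ^ n) + C * (t + 1 + 1) ^ n := by ring
        omega
    intro t
    refine (key t).trans ?_
    have h1 : 1 ≤ (t + 1) ^ (n + 1) := Nat.one_le_pow _ _ (by omega)
    have h2 : t * (C * (t + 1) ^ n) ≤ C * (t + 1) ^ (n + 1) := by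
      calc t * (C * (t + 1) ^ n) ≤ (t + 1) * (C * (t + 1) ^ n) :=
            Nat.mul_le_mul_right _ (by omega)
        _ = C * (t + 1) ^ (n + 1) := by ring
    calc finrank K (W I 0) + t * (C * (t + 1) ^ n)
        ≤ finrank K (W I 0) * (t + 1) ^ (n + 1) + C * (t + 1) ^ (n + 1) :=
          add_le_add (Nat.le_mul_of_pos_right _ h1) h2
      _ = (finrank K (W I 0) + C) * (t + 1) ^ (n + 1) := by ring

end Pool.Agent.TH144.MB
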