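import Pool.Agent.TH144.MB.Top

/-!
# Semi-invariant monomials which do not vanish at a given point

A finite group `G` acts diagonally on `K^n` by characters `α i`, and on the zero set `V` of the
homogeneous ideal `I`; the action on `(V ∖ 0) / Kˣ` is free. If `TopBound I ρ` then for all `t ≥ ρ`,
every character `χ` of `G` and every `y ∈ V ∖ 0` there is a monomial of degree `t` and character `χ`
which does not vanish at `y`.
-/

set_option autoImplicit false

namespace Pool.Agent.TH144.MB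

open MvPolynomial Module

variable {K : Type} [Field K]

section
variable {G : Type} [Group G] {n : ℕ}

/-- the point `g · v` -/
def mv (α : Fin n → G →* Kˣ) (g : G) (v : Fin n → K) : Fin n → K := fun i => (α i g : K) * v i

/-- the character of the monomial with exponents `m` -/
noncomputable def chr (α : Fin n → G →* Kˣ) (m : Fin n →₀ ℕ) : G →* Kˣ := ∏ i, α i ^ m i

theorem chr_apply (α : Fin n → G →* Kˣ) (m : Fin n →₀ ℕ) (g : G) :
    chr α m g = ∏ i, α i g ^ m i := by
  simp [chr, MonoidHom.finsetProd_apply]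

/-- the value of a monomial -/
def mon (m : Fin n →₀ ℕ) (v : Fin n → K) : K := ∏ i, v i ^ m i

theorem mon_mv (α : Fin n → G →* Kˣ) (m : Fin n →₀ ℕ) (g : G) (v : Fin n → K) :
    mon m (mv α g v) = (chr α m g : K) * mon m v := by
  simp only [mon, mv, mul_pow, Finset.prod_mul_distrib, chr_apply, Units.coe_prod,
    Units.val_pow_eq_pow_val]

theorem eval_eq_mon (p : MvPolynomial (Fin n) K) (v : Fin n → K) :
    eval v p = ∑ m ∈ p.support, coeff m p * mon m v := by
  rw [eval_eq']
  rfl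

variable [Fintype G]

/-- the `χ`-component of the evaluation at the orbit of `v` -/
noncomputable def Lam (α : Fin n → G →* Kˣ) (χ : G →* Kˣ) (v : Fin n → K)
    (p : MvPolynomial (Fin n) K) : K := ∑ g, ((χ g)⁻¹ : Kˣ) * eval (mv α g v) p

theorem sum_char [DecidableEq (G →* Kˣ)] (χ ψ : G →* Kˣ) :
    ∑ g, (((χ g)⁻¹ : Kˣ) : K) * (ψ g : K) = if ψ = χ then (Fintype.card G : K) else 0 := by
  classical
  split_ifs with h
  · rw [h]
    simp
  · -- a nontrivial character sums to zero
    obtain ⟨g0, hg0⟩ : ∃ g0, ψ g0 ≠ χ g0 := by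
      by_contra hc
      push Not at hc
      exact h (MonoidHom.ext hc)
    have h1 : ∀ g, (((χ g)⁻¹ : Kˣ) : K) * (ψ g : K) = (((ψ / χ) g : Kˣ) : K) := by
      intro g
      rw [MonoidHom.div_apply, div_eq_mul_inv, mul_comm, Units.val_mul]
    simp only [h1]
    set φ : G →* Kˣ := ψ / χ with hφ
    have h2 : φ g0 ≠ 1 := by
      rw [hφ, MonoidHom.div_apply]
      intro h3
      exact hg0 (div_eq_one.1 h3)
    have h3 : (φ g0 : K) * ∑ g, (φ g : K) = ∑ g, (φ g : K) := by
      rw [Finset.mul_sum]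
      refine Fintype.sum_bijective (fun g => g0 * g) (Group.mulLeft_bijective g0) _ _ ?_
      intro g
      rw [map_mul, Units.val_mul]
    have h4 : ((φ g0 : K) - 1) * ∑ g, (φ g : K) = 0 := by
      rw [sub_mul, one_mul, h3, sub_self]
    rcases mul_eq_zero.1 h4 with h5 | h5
    · exfalso
      apply h2
      ext
      rw [Units.val_one]
      exact sub_eq_zero.1 h5
    · exact h5

theorem Lam_eq [DecidableEq (G →* Kˣ)] (α : Fin n → G →* Kˣ) (χ : G →* Kˣ) (v : Fin n → K)
    (p : MvPolynomial (Fin n) K) : Lam α χ v p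
      = ∑ m ∈ p.support, if chr α m = χ then (Fintype.card G : K) * (coeff m p * mon m v) else 0 := by
  unfold Lam
  simp only [eval_eq_mon, Finset.mul_sum]
  rw [Finset.sum_comm]
  refine Finset.sum_congr rfl fun m _ => ?_
  have h1 : ∀ g, (((χ g)⁻¹ : Kˣ) : K) * (coeff m p * mon m (mv α g v))
      = ((((χ g)⁻¹ : Kˣ) : K) * (chr α m g : K)) * (coeff m p * mon m v) := by
    intro g
    rw [mon_mv]
    ring
  simp only [h1]
  rw [← Finset.sum_mul, sum_char]
  split_ifs <;> simp

/-- if `Lam χ` does not vanish then some monomial of `p` with character `χ` does not vanish -/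
theorem exists_mon (α : Fin n → G →* Kˣ) (χ : G →* Kˣ) (v : Fin n → K)
    (p : MvPolynomial (Fin n) K) (h : Lam α χ v p ≠ 0) :
    ∃ m ∈ p.support, chr α m = χ ∧ mon m v ≠ 0 := by
  classical
  rw [Lam_eq] at h
  obtain ⟨m, hm, hm2⟩ := Finset.exists_ne_zero_of_sum_ne_zero h
  by_cases h1 : chr α m = χ
  · rw [if_pos h1] at hm2
    exact ⟨m, hm, h1, fun h2 => hm2 (by rw [h2, mul_zero, mul_zero])⟩
  · rw [if_neg h1] at hm2
    exact absurd rfl hm2

/-- the situation: a homogeneous ideal, characters, and a stable cone on which `G` acts freely -/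
structure Sit (K : Type) [Field K] (G : Type) [Group G] (n : ℕ) where
  I : Ideal (MvPolynomial (Fin n) K)
  hom : Hom I
  α : Fin n → G →* Kˣ
  stable : ∀ v : Fin n → K, (∀ p ∈ I, eval v p = 0) → ∀ (g : G), ∀ p ∈ I, eval (mv α g v) p = 0
  free : ∀ v : Fin n → K, v ≠ 0 → (∀ p ∈ I, eval v p = 0) → ∀ (g : G) (μ : K),
    (∀ i, (α i g : K) * v i = μ * v i) → g = 1

namespace Sit

variable (S : Sit K G n)

/-- all characters occur in large degrees -/
theorem large [DecidableEq G] {w : Fin n → K} (hw0 : w ≠ 0) (hw : ∀ p ∈ S.I, eval w p = 0)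
    (χ : G →* Kˣ) {t : ℕ} (ht : Fintype.card G ≤ t) :
    ∃ m : Fin n →₀ ℕ, m.degree = t ∧ chr S.α m = χ ∧ mon m w ≠ 0 := by
  classical
  obtain ⟨i0, hi0⟩ : ∃ i, w i ≠ 0 := by
    by_contra hc
    push Not at hc
    exact hw0 (funext hc)
  have hsep : ∀ g : G, g ≠ 1 → ∃ L : MvPolynomial (Fin n) K, L.IsHomogeneous 1 ∧
      eval w L ≠ 0 ∧ eval (mv S.α g w) L = 0 := by
    intro g hg
    obtain ⟨k, hk, hk0⟩ : ∃ k, S.α k g ≠ S.α i0 g ∧ w k ≠ 0 := by
      by_contra hc
      push Not at hc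
      refine hg (S.free w hw0 hw g (S.α i0 g : K) fun i => ?_)
      by_cases h1 : S.α i g = S.α i0 g
      · rw [h1]
      · rw [hc i h1, mul_zero, mul_zero]
    refine ⟨C ((S.α i0 g : K) * w i0) * X k - C ((S.α k g : K) * w k) * X i0,
      (isHomogeneous_C_mul_X _ _).sub (isHomogeneous_C_mul_X _ _), ?_, ?_⟩
    · simp only [map_sub, map_mul, eval_C, eval_X]
      have h1 : (S.α i0 g : K) * w i0 * w k - (S.α k g : K) * w k * w i0
          = ((S.α i0 g : K) - S.α k g) * (w i0 * w k) := by ring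
      rw [h1]
      refine mul_ne_zero ?_ (mul_ne_zero hi0 hk0)
      rw [sub_ne_zero]
      intro h2
      exact hk (Units.ext h2.symm)
    · simp only [map_sub, map_mul, eval_C, eval_X, mv]
      ring
  choose! L hL1 hL2 hL3 using hsep
  obtain ⟨s, rfl⟩ := Nat.exists_eq_add_of_le ht
  have hcard : (Finset.univ.erase (1 : G)).card + 1 = Fintype.card G := by
    rw [Finset.card_erase_of_mem (Finset.mem_univ _), Finset.card_univ]
    have := Fintype.card_pos (α := G)
    omega
  set F : MvPolynomial (Fin n) K :=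
    (∏ g ∈ Finset.univ.erase (1 : G), L g) * X i0 ^ (s + 1) with hF
  have hFh : F.IsHomogeneous (Fintype.card G + s) := by
    have h1 : (∏ g ∈ Finset.univ.erase (1 : G), L g).IsHomogeneous
        (∑ _g ∈ Finset.univ.erase (1 : G), 1) :=
      IsHomogeneous.prod _ _ _ fun g hg => hL1 g (Finset.ne_of_mem_erase hg)
    have h2 := h1.mul ((isHomogeneous_X K i0).pow (s + 1))
    rw [Finset.sum_const, smul_eq_mul, mul_one] at h2
    convert h2 using 1
    omega
  have hLam : Lam S.α χ w F ≠ 0 := by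
    unfold Lam
    rw [Finset.sum_eq_single (1 : G)]
    · have h1 : mv S.α 1 w = w := by
        funext i
        simp [mv]
      rw [h1, map_one, inv_one, Units.val_one, one_mul, hF, map_mul, map_prod, map_pow, eval_X]
      refine mul_ne_zero ?_ (pow_ne_zero _ hi0)
      rw [Finset.prod_ne_zero_iff]
      exact fun g hg => hL2 g (Finset.ne_of_mem_erase hg)
    · intro g _ hg
      rw [hF, map_mul, map_prod, Finset.prod_eq_zero (Finset.mem_erase.2 ⟨hg, Finset.mem_univ g⟩)
        (hL3 g hg), zero_mul, mul_zero]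
    · intro h; exact absurd (Finset.mem_univ _) h
  obtain ⟨m, hm, hm1, hm2⟩ := exists_mon S.α χ w F hLam
  refine ⟨m, ?_, hm1, hm2⟩
  by_contra h
  exact (MvPolynomial.mem_support_iff.1 hm) (hFh.coeff_eq_zero h)

/-- descent of the degree at a point `w` of minimal support -/
theorem descend [CharZero K] {ρ : ℕ} (hρ : TopBound S.I ρ) {w : Fin n → K}
    (hw : ∀ p ∈ S.I, eval w p = 0)
    (hmin : ∀ v : Fin n → K, (∀ p ∈ S.I, eval v p = 0) → (∀ i, w i = 0 → v i = 0) →
      (∃ i, w i ≠ 0 ∧ v i = 0) → v = 0)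
    (χ : G →* Kˣ) {t : ℕ} (ht : ρ ≤ t) {i0 : Fin n} (hi0 : w i0 ≠ 0)
    (h : ∃ m : Fin n →₀ ℕ, m.degree = t + 1 ∧ chr S.α m = χ * S.α i0 ∧ mon m w ≠ 0) :
    ∃ m : Fin n →₀ ℕ, m.degree = t ∧ chr S.α m = χ ∧ mon m w ≠ 0 := by
  classical
  obtain ⟨m, hm, hmc, hmw⟩ := h
  -- the variables vanishing at `w`, and `x_{i0}`
  let L : Fin n → Fin n → K := fun i => if w i = 0 then Pi.single i 1 else Pi.single i0 1
  have hlin : ∀ i : Fin n, lin (Pi.single i 1) = (X i : MvPolynomial (Fin n) K) := by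
    intro i
    unfold lin
    rw [Finset.sum_eq_single i]
    · simp
    · intro j _ hj
      rw [Pi.single_eq_of_ne hj, map_zero, zero_mul]
    · intro h; exact absurd (Finset.mem_univ i) h
  have hv : ∀ v : Fin n → K, (∀ p ∈ S.I, eval v p = 0) → (∀ i, eval v (lin (L i)) = 0) →
      v = 0 := by
    intro v hv1 hv2
    refine hmin v hv1 (fun i hi => ?_) ⟨i0, hi0, ?_⟩
    · have := hv2 i
      simp only [L, if_pos hi, hlin, eval_X] at this
      exact this
    · have := hv2 i0
      simp only [L, if_neg hi0, hlin, eval_X] at this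
      exact this
  have hmh : (monomial m (1 : K)).IsHomogeneous (1 + t) :=
    isHomogeneous_monomial _ (by rw [hm, add_comm])
  have h1 := hρ n L hv (1 + t) (by omega) _ hmh
  -- the ideal `I` with the variables vanishing at `w`
  set I : Ideal (MvPolynomial (Fin n) K) := S.I ⊔ Ideal.span (X '' {i | w i = 0}) with hI
  have hIhom : Hom I := by
    have h2 : ∀ s : Finset (Fin n), Hom (S.I ⊔ Ideal.span (X '' (s : Set (Fin n)))) := by
      intro s
      induction s using Finset.induction_on with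
      | empty =>
        rw [Finset.coe_empty, Set.image_empty, Ideal.span_empty, sup_bot_eq]
        exact S.hom
      | insert i s _ ih =>
        have h3 := hom_sup ih (isHomogeneous_X K i)
        rwa [sup_assoc, ← Ideal.span_union, ← Set.image_singleton, ← Set.image_union,
          Set.union_singleton, ← Finset.coe_insert] at h3
    have h4 := h2 (Finset.univ.filter fun i => w i = 0)
    rwa [Finset.coe_filter, show {i | i ∈ Finset.univ ∧ w i = 0} = {i | w i = 0} by simp] at h4
  have hIev : ∀ p ∈ I, ∀ g, eval (mv S.α g w) p = 0 := by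
    intro p hp g
    have h2 : I ≤ RingHom.ker (eval (mv S.α g w)) := by
      rw [hI]
      refine sup_le (fun p hp => RingHom.mem_ker.2 (S.stable w hw g p hp)) ?_
      rw [Ideal.span_le]
      rintro _ ⟨i, hi, rfl⟩
      have hi' : w i = 0 := hi
      refine RingHom.mem_ker.2 ?_
      simp [mv, hi']
    exact RingHom.mem_ker.1 (h2 hp)
  have h3 : S.I ⊔ Ideal.span (Set.range fun i => lin (L i)) ≤ I ⊔ Ideal.span {X i0} := by
    refine sup_le (le_sup_left.trans le_sup_left) ?_
    rw [Ideal.span_le]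
    rintro _ ⟨i, rfl⟩
    by_cases hi : w i = 0
    · simp only [L, if_pos hi, hlin]
      exact Ideal.mem_sup_left (Ideal.mem_sup_right (Ideal.subset_span ⟨i, hi, rfl⟩))
    · simp only [L, if_neg hi, hlin]
      exact Ideal.mem_sup_right (Ideal.mem_span_singleton_self _)
  obtain ⟨q, hq, hmq⟩ := mem_sup_hom hIhom (isHomogeneous_X K i0) hmh (h3 h1)
  have h4 : Lam S.α (χ * S.α i0) w (monomial m 1) = w i0 * Lam S.α χ w q := by
    unfold Lam
    rw [Finset.mul_sum]
    refine Finset.sum_congr rfl fun g _ => ?_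
    have h5 := hIev _ hmq g
    rw [map_sub, sub_eq_zero, map_mul, eval_X] at h5
    rw [h5, MonoidHom.mul_apply, mul_inv, Units.val_mul]
    simp only [mv]
    have h6 : (((S.α i0 g)⁻¹ : Kˣ) : K) * (S.α i0 g : K) = 1 := Units.inv_mul _
    linear_combination ((((χ g)⁻¹ : Kˣ) : K) * (w i0 * eval (mv S.α g w) q)) * h6
  have h5 : Lam S.α (χ * S.α i0) w (monomial m 1) ≠ 0 := by
    rw [Lam_eq, support_monomial, if_neg one_ne_zero, Finset.sum_singleton, if_pos hmc,
      coeff_monomial, if_pos rfl, one_mul]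
    exact mul_ne_zero (Nat.cast_ne_zero.2 Fintype.card_ne_zero) hmw
  have h6 : Lam S.α χ w q ≠ 0 := by
    intro h
    rw [h4, h, mul_zero] at h5
    exact h5 rfl
  obtain ⟨m', hm', hm1, hm2⟩ := exists_mon S.α χ w q h6
  refine ⟨m', ?_, hm1, hm2⟩
  by_contra h
  exact (MvPolynomial.mem_support_iff.1 hm') (hq.coeff_eq_zero h)

/-- For `t ≥ ρ` every character occurs among the monomials of degree `t` which do not
vanish at a given point. -/
theorem exists_monomial [CharZero K] {ρ : ℕ} (hρ : TopBound S.I ρ) {y : Fin n → K} (hy0 : y ≠ 0)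
    (hy : ∀ p ∈ S.I, eval y p = 0) (χ : G →* Kˣ) {t : ℕ} (ht : ρ ≤ t) :
    ∃ m : Fin n →₀ ℕ, m.degree = t ∧ (∀ g, ∏ i, S.α i g ^ m i = χ g) ∧ ∏ i, y i ^ m i ≠ 0 := by
  classical
  -- a point of minimal support inside the support of `y`
  let P : ℕ → Prop := fun k => ∃ w : Fin n → K, w ≠ 0 ∧ (∀ p ∈ S.I, eval w p = 0) ∧
    (∀ i, y i = 0 → w i = 0) ∧ (Finset.univ.filter fun i => w i ≠ 0).card = k
  have hP : ∃ k, P k := ⟨_, y, hy0, hy, fun _ h => h, rfl⟩
  obtain ⟨w, hw0, hw, hwy, hwk⟩ := Nat.find_spec hP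
  have hmin : ∀ v : Fin n → K, (∀ p ∈ S.I, eval v p = 0) → (∀ i, w i = 0 → v i = 0) →
      (∃ i, w i ≠ 0 ∧ v i = 0) → v = 0 := by
    intro v hv hvw ⟨i, hi, hi2⟩
    by_contra hv0
    have h1 : Nat.find hP ≤ (Finset.univ.filter fun i => v i ≠ 0).card :=
      Nat.find_min' hP ⟨v, hv0, hv, fun i hi => hvw i (hwy i hi), rfl⟩
    rw [← hwk] at h1
    have h2 : (Finset.univ.filter fun i => v i ≠ 0).card
        < (Finset.univ.filter fun i => w i ≠ 0).card := by
      apply Finset.card_lt_card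
      rw [Finset.ssubset_iff_of_subset]
      · exact ⟨i, by simp [hi], by simp [hi2]⟩
      · intro i hi
        rw [Finset.mem_filter] at hi ⊢
        exact ⟨hi.1, fun h => hi.2 (hvw i h)⟩
    omega
  obtain ⟨i0, hi0⟩ : ∃ i, w i ≠ 0 := by
    by_contra hc
    push Not at hc
    exact hw0 (funext hc)
  have key : ∀ (k : ℕ) (χ : G →* Kˣ) (t : ℕ), ρ ≤ t → Fintype.card G ≤ t + k →
      ∃ m : Fin n →₀ ℕ, m.degree = t ∧ chr S.α m = χ ∧ mon m w ≠ 0 := by
    intro k
    induction k with
    | zero => intro χ t _ h; exact S.large hw0 hw χ h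
    | succ k ih =>
      intro χ t ht h
      exact S.descend hρ hw hmin χ ht hi0 (ih (χ * S.α i0) (t + 1) (by omega) (by omega))
  obtain ⟨m, hm, hm1, hm2⟩ := key (Fintype.card G) χ t ht (by omega)
  refine ⟨m, hm, fun g => by rw [← chr_apply, hm1], ?_⟩
  rw [Finset.prod_ne_zero_iff]
  intro i _
  have h1 := (Finset.prod_ne_zero_iff.1 hm2) i (Finset.mem_univ i)
  rcases Nat.eq_zero_or_pos (m i) with h2 | h2
  · rw [h2, pow_zero]; exact one_ne_zero
  · refine pow_ne_zero _ fun h3 => ?_
    rw [hwy i h3, zero_pow h2.ne'] at h1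
    exact h1 rfl

end Sit

end

end Pool.Agent.TH144.MB
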