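import Pool.Agent.TH144.MB.Mult

/-!
# Lines through many points of two orbits of a finite diagonal group

`exists_eig`: let `y` and `y'` have the same support, let `G` act freely on the orbits, and let the
plane spanned by `y` and `q` contain at least `|G| + 2` of the points `g y`, `g y'`. Then for some
`g ≠ 1` it contains a nonzero eigenvector of `g` obtained from `y` by setting some coordinates to `0`.
-/

set_option autoImplicit false

namespace Pool.Agent.TH144.MB

open MvPolynomial Module ComplexConjugate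

theorem two_values {a b c : ℂ} (ha : a ≠ 0) (hb : b ≠ 0) :
    ∃ u1 u2 : ℂ, ∀ u v : ℂ, ‖u‖ = 1 → ‖v‖ = 1 → a + b * u + c * v = 0 → u = u1 ∨ u = u2 := by
  obtain ⟨s, hs⟩ : ∃ s : ℂ, discrim (conj a * b) (a * conj a + b * conj b - c * conj c) (a * conj b)
      = s * s := by
    obtain ⟨s, hs⟩ := IsAlgClosed.exists_pow_nat_eq
      (discrim (conj a * b) (a * conj a + b * conj b - c * conj c) (a * conj b)) (n := 2) (by norm_num)
    exact ⟨s, by rw [← hs, sq]⟩
  refine ⟨_, _, fun u v hu hv h => (quadratic_eq_zero_iff (a := conj a * b)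
    (mul_ne_zero (by simpa using ha) hb) hs u).1 ?_⟩
  have h1 : conj a + conj b * conj u + conj c * conj v = 0 := by
    have := congrArg conj h
    simpa using this
  have hu' : u * conj u = 1 := by
    rw [Complex.mul_conj, Complex.normSq_eq_norm_sq, hu]; simp
  have hv' : v * conj v = 1 := by
    rw [Complex.mul_conj, Complex.normSq_eq_norm_sq, hv]; simp
  linear_combination (a + b * u) * u * h1 - (a + b * u) * conj b * hu' - u * conj c * conj v * h
    + u * conj c * c * hv'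

section
variable {V : Type} [AddCommGroup V] [Module ℂ V]

theorem minor {y q x1 x2 : V} {a1 b1 a2 b2 : ℂ} (h1 : a1 • y + b1 • q = x1)
    (h2 : a2 • y + b2 • q = x2) (hx1 : x1 ≠ 0) (h : x2 ∉ Submodule.span ℂ {x1}) :
    a1 * b2 - a2 * b1 ≠ 0 := by
  intro h0
  apply h
  rw [Submodule.mem_span_singleton]
  by_cases ha : a1 = 0
  · have hb : b1 ≠ 0 := by
      rintro rfl
      apply hx1
      rw [← h1, ha, zero_smul, zero_smul, add_zero]
    rw [ha, zero_mul, zero_sub, neg_eq_zero] at h0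
    have ha2 : a2 = 0 := by
      rcases mul_eq_zero.1 h0 with h | h
      · exact h
      · exact absurd h hb
    refine ⟨b2 / b1, ?_⟩
    rw [← h1, ← h2, ha, ha2, zero_smul, zero_add, zero_add, smul_smul, div_mul_cancel₀ _ hb]
  · refine ⟨a2 / a1, ?_⟩
    rw [← h1, ← h2, smul_add, smul_smul, smul_smul, div_mul_cancel₀ _ ha]
    congr 2
    field_simp
    linear_combination -h0
end

section
variable {G : Type} [Group G] {n : ℕ}

theorem mv_mv (α : Fin n → G →* ℂˣ) (g h : G) (v : Fin n → ℂ) :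
    mv α g (mv α h v) = mv α (g * h) v := by
  funext i
  simp [mv, mul_assoc]

theorem mv_one (α : Fin n → G →* ℂˣ) (v : Fin n → ℂ) : mv α 1 v = v := by
  funext i
  simp [mv]

theorem mv_smul (α : Fin n → G →* ℂˣ) (g : G) (c : ℂ) (v : Fin n → ℂ) :
    mv α g (c • v) = c • mv α g v := by
  funext i
  simp only [mv, Pi.smul_apply, smul_eq_mul]
  ring

/-- the orbit of the line through `v` is free -/
def Fr (α : Fin n → G →* ℂˣ) (v : Fin n → ℂ) : Prop :=
  ∀ (g : G) (μ : ℂ), (∀ i, (α i g : ℂ) * v i = μ * v i) → g = 1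

theorem Fr.supp {α : Fin n → G →* ℂˣ} {v w : Fin n → ℂ} (h : Fr α v)
    (hs : ∀ i, w i = 0 ↔ v i = 0) : Fr α w := by
  intro g μ hg
  refine h g μ fun i => ?_
  by_cases hi : v i = 0
  · rw [hi, mul_zero, mul_zero]
  · have h1 : w i ≠ 0 := fun h2 => hi ((hs i).1 h2)
    rw [mul_right_cancel₀ h1 (hg i)]

theorem mv_supp (α : Fin n → G →* ℂˣ) (g : G) (v : Fin n → ℂ) (i : Fin n) :
    mv α g v i = 0 ↔ v i = 0 := by
  simp [mv]

theorem Fr.notMem {α : Fin n → G →* ℂˣ} {v : Fin n → ℂ} (h : Fr α v) {g g' : G} (hg : g ≠ g') :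
    mv α g' v ∉ Submodule.span ℂ {mv α g v} := by
  intro h1
  obtain ⟨c, hc⟩ := Submodule.mem_span_singleton.1 h1
  apply hg
  have h2 : g' * g⁻¹ = 1 := by
    refine (h.supp (mv_supp α g v)) (g' * g⁻¹) c fun i => ?_
    have h3 := congrFun hc i
    rw [Pi.smul_apply, smul_eq_mul] at h3
    rw [h3]
    simp [mv, mul_assoc]
  exact (mul_inv_eq_one.1 h2).symm

theorem norm_char [Finite G] (χ : G →* ℂˣ) (g : G) : ‖(χ g : ℂ)‖ = 1 := by
  have := Fintype.ofFinite G
  refine Complex.norm_eq_one_of_pow_eq_one (n := Fintype.card G) ?_ Fintype.card_ne_zero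
  rw [← Units.val_pow_eq_pow_val, ← map_pow, pow_card_eq_one, map_one, Units.val_one]

/-- three points of an orbit on a line -/
theorem three_points [Finite G] {α : Fin n → G →* ℂˣ} {y z q : Fin n → ℂ} (hz0 : z ≠ 0)
    (hz : Fr α z) {T : Finset G} (hT : 2 < T.card)
    (hTm : ∀ g ∈ T, mv α g z ∈ Submodule.span ℂ {y, q}) :
    ∃ (g : G) (z' : Fin n → ℂ) (u1 u2 : ℂ), g ≠ 1 ∧ (∀ i, z' i = 0 ↔ z i = 0) ∧
      z' ∈ Submodule.span ℂ {y, q} ∧ mv α g z' ∈ Submodule.span ℂ {y, q} ∧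
      ∀ i, z i ≠ 0 → (α i g : ℂ) = u1 ∨ (α i g : ℂ) = u2 := by
  classical
  obtain ⟨g0, h0, g1, h1, g2, h2, h01, h02, h12⟩ := Finset.two_lt_card.1 hT
  have hz' : mv α g0 z ≠ 0 := by
    intro h
    apply hz0
    funext i
    exact (mv_supp α g0 z i).1 (congrFun h i)
  have hz1 : mv α g1 z ≠ 0 := by
    intro h
    apply hz0
    funext i
    exact (mv_supp α g1 z i).1 (congrFun h i)
  obtain ⟨a0, b0, e0⟩ := Submodule.mem_span_pair.1 (hTm g0 h0)
  obtain ⟨a1, b1, e1⟩ := Submodule.mem_span_pair.1 (hTm g1 h1)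
  obtain ⟨a2, b2, e2⟩ := Submodule.mem_span_pair.1 (hTm g2 h2)
  have m12 := minor e1 e2 hz1 (hz.notMem h12)
  have m02 := minor e0 e2 hz' (hz.notMem h02)
  obtain ⟨u1, u2, hu⟩ := two_values (c := a0 * b1 - a1 * b0) m12 (neg_ne_zero.2 m02)
  refine ⟨g1 * g0⁻¹, mv α g0 z, u1, u2, ?_, mv_supp α g0 z, hTm g0 h0, ?_, ?_⟩
  · intro h
    exact h01 (mul_inv_eq_one.1 h).symm
  · rw [mv_mv, inv_mul_cancel_right]
    exact hTm g1 h1
  · intro i hi
    refine hu _ (α i (g2 * g0⁻¹) : ℂ) (norm_char _ _) (norm_char _ _) ?_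
    have f0 := congrFun e0 i
    have f1 := congrFun e1 i
    have f2 := congrFun e2 i
    simp only [Pi.add_apply, Pi.smul_apply, smul_eq_mul, mv] at f0 f1 f2
    have h3 : (α i g0 : ℂ) * z i ≠ 0 := mul_ne_zero (Units.ne_zero _) hi
    refine mul_right_cancel₀ h3 ?_
    have h4 : ∀ g : G, (α i (g * g0⁻¹) : ℂ) * ((α i g0 : ℂ) * z i) = (α i g : ℂ) * z i := by
      intro g
      simp [mul_assoc]
    rw [zero_mul, add_mul, add_mul, mul_assoc, h4, mul_assoc, h4, ← f0, ← f1, ← f2]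
    ring

theorem exists_eig [Fintype G] {α : Fin n → G →* ℂˣ} {y y' q : Fin n → ℂ} (hy0 : y ≠ 0)
    (hy : Fr α y) (hs : ∀ i, y' i = 0 ↔ y i = 0) {A B : Finset G}
    (hA : ∀ g ∈ A, mv α g y ∈ Submodule.span ℂ {y, q})
    (hB : ∀ g ∈ B, mv α g y' ∈ Submodule.span ℂ {y, q})
    (hc : Fintype.card G + 2 ≤ A.card + B.card) :
    ∃ (g : G) (u : ℂ), g ≠ 1 ∧
      (fun i => if (α i g : ℂ) = u then y i else 0) ∈ Submodule.span ℂ {y, q} ∧
      (fun i => if (α i g : ℂ) = u then y i else 0) ≠ 0 := by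
  classical
  obtain ⟨g, z, u1, u2, hg, hzs, hz, hgz, hu⟩ : ∃ (g : G) (z' : Fin n → ℂ) (u1 u2 : ℂ), g ≠ 1 ∧
      (∀ i, z' i = 0 ↔ y i = 0) ∧
      z' ∈ Submodule.span ℂ {y, q} ∧ mv α g z' ∈ Submodule.span ℂ {y, q} ∧
      ∀ i, y i ≠ 0 → (α i g : ℂ) = u1 ∨ (α i g : ℂ) = u2 := by
    have hA1 : A.card ≤ Fintype.card G := Finset.card_le_univ A
    have hB1 : B.card ≤ Fintype.card G := Finset.card_le_univ B
    by_cases h3 : 2 < A.card
    · exact three_points hy0 hy h3 hA
    · by_cases h4 : 2 < B.card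
      · have hy'0 : y' ≠ 0 := by
          rintro rfl
          exact hy0 (funext fun i => (hs i).1 rfl)
        obtain ⟨g, z, u1, u2, hg, hzs, hz, hgz, hu⟩ := three_points hy'0 (hy.supp hs) h4 hB
        exact ⟨g, z, u1, u2, hg, fun i => (hzs i).trans (hs i), hz, hgz, fun i hi =>
          hu i fun h => hi ((hs i).1 h)⟩
      · have hr : Fintype.card G = 2 := by omega
        have hA2 : 1 < A.card := by omega
        obtain ⟨g, hgA, hg⟩ : ∃ g ∈ A, g ≠ 1 := by
          obtain ⟨g, g', hg, hg', hgg⟩ := Finset.one_lt_card_iff.1 hA2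
          by_cases h : g = 1
          · exact ⟨g', hg', fun h' => hgg (h.trans h'.symm)⟩
          · exact ⟨g, hg, h⟩
        refine ⟨g, y, 1, -1, hg, fun _ => Iff.rfl, Submodule.subset_span (by simp), hA g hgA, ?_⟩
        intro i _
        have h5 : (α i g : ℂ) ^ 2 = 1 := by
          rw [← Units.val_pow_eq_pow_val, ← map_pow, ← hr, pow_card_eq_one, map_one, Units.val_one]
        exact sq_eq_one_iff.1 h5
  have hFz : Fr α z := hy.supp hzs
  -- the eigenvectors
  have he1 : mv α g z - u2 • z ∈ Submodule.span ℂ {y, q} :=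
    Submodule.sub_mem _ hgz (Submodule.smul_mem _ _ hz)
  have he2 : mv α g z - u1 • z ∈ Submodule.span ℂ {y, q} :=
    Submodule.sub_mem _ hgz (Submodule.smul_mem _ _ hz)
  have hne : ∀ u : ℂ, mv α g z - u • z ≠ 0 := by
    intro u h
    refine hg (hFz g u fun i => ?_)
    have h1 := congrFun h i
    simp only [Pi.sub_apply, Pi.smul_apply, smul_eq_mul, Pi.zero_apply, mv, sub_eq_zero] at h1
    exact h1
  have hc1 : ∀ i, (mv α g z - u2 • z) i ≠ 0 → (α i g : ℂ) = u1 := by
    intro i hi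
    have h1 : (mv α g z - u2 • z) i = ((α i g : ℂ) - u2) * z i := by
      simp only [Pi.sub_apply, Pi.smul_apply, smul_eq_mul, mv]; ring
    rw [h1] at hi
    rcases hu i (fun h => hi (by rw [(hzs i).2 h, mul_zero])) with h2 | h2
    · exact h2
    · rw [h2, sub_self, zero_mul] at hi
      exact absurd rfl hi
  have hc2 : ∀ i, (mv α g z - u1 • z) i ≠ 0 → (α i g : ℂ) ≠ u1 := by
    intro i hi h
    have h1 : (mv α g z - u1 • z) i = ((α i g : ℂ) - u1) * z i := by
      simp only [Pi.sub_apply, Pi.smul_apply, smul_eq_mul, mv]; ring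
    rw [h1, h, sub_self, zero_mul] at hi
    exact hi rfl
  set e1 := mv α g z - u2 • z with he1d
  set e2 := mv α g z - u1 • z with he2d
  obtain ⟨i1, hi1⟩ : ∃ i, e1 i ≠ 0 := by
    by_contra h
    push Not at h
    exact hne u2 (funext h)
  have hnm : e2 ∉ Submodule.span ℂ {e1} := by
    intro h
    obtain ⟨c, hc⟩ := Submodule.mem_span_singleton.1 h
    have h1 : e2 i1 = 0 := by
      by_contra h2
      exact hc2 i1 h2 (hc1 i1 hi1)
    rw [← hc, Pi.smul_apply, smul_eq_mul] at h1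
    rcases mul_eq_zero.1 h1 with h2 | h2
    · rw [h2, zero_smul] at hc
      exact hne u1 hc.symm
    · exact hi1 h2
  obtain ⟨a1, b1, k1⟩ := Submodule.mem_span_pair.1 he1
  obtain ⟨a2, b2, k2⟩ := Submodule.mem_span_pair.1 he2
  have hm := minor k1 k2 (hne u2) hnm
  set m := a1 * b2 - a2 * b1 with hmd
  have hy12 : y = (b2 / m) • e1 - (b1 / m) • e2 := by
    have h1 : m • y = b2 • e1 - b1 • e2 := by
      rw [← k1, ← k2, hmd]
      module
    have h2 : y = m⁻¹ • (m • y) := by rw [smul_smul, inv_mul_cancel₀ hm, one_smul]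
    rw [h2, h1, smul_sub, smul_smul, smul_smul]
    congr 2 <;> field_simp
  have hy1 : (fun i => if (α i g : ℂ) = u1 then y i else 0) = (b2 / m) • e1 := by
    funext i
    rw [Pi.smul_apply, smul_eq_mul]
    split_ifs with h
    · have h1 : e2 i = 0 := by
        by_contra h2
        exact hc2 i h2 h
      have h3 := congrFun hy12 i
      simp only [Pi.sub_apply, Pi.smul_apply, smul_eq_mul, h1, mul_zero, sub_zero] at h3
      exact h3
    · have h1 : e1 i = 0 := by
        by_contra h2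
        exact h (hc1 i h2)
      rw [h1, mul_zero]
  refine ⟨g, u1, hg, ?_, ?_⟩
  · rw [hy1]
    exact Submodule.smul_mem _ _ he1
  · intro h
    have h1 := congrFun h i1
    simp only [if_pos (hc1 i1 hi1), Pi.zero_apply] at h1
    apply hi1
    have h2 : z i1 = 0 := (hzs i1).2 h1
    rw [he1d]
    simp [mv, h2]

end

end Pool.Agent.TH144.MB
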