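import Pool.Agent.TH144.MB.Tan

/-!
# Free diagonal actions on hypersurfaces

A finite diagonal group acting freely on a hypersurface of degree `d` and positive dimension has at
most `d` elements: a line joining two coordinate points is stable under the group.
-/

set_option autoImplicit false

namespace Pool.Agent.TH144.MB

open MvPolynomial Module

theorem exists_root {n : ℕ} {f : MvPolynomial (Fin n) ℂ} {d : ℕ} (hf : f.IsHomogeneous d)
    (hd : 0 < d) {a b : Fin n → ℂ} (hb : eval b f ≠ 0) :
    ∃ τ : ℂ, eval (fun k => a k + τ * b k) f = 0 := by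
  by_contra hcon
  push Not at hcon
  have h1 : (res a b f).degree ≤ 0 := by
    by_contra h
    obtain ⟨τ, hτ⟩ := IsAlgClosed.exists_root (res a b f) fun h' => h h'.le
    rw [Polynomial.IsRoot, eval_res] at hτ
    exact hcon τ hτ
  have h2 := Polynomial.eq_C_of_degree_le_zero h1
  set c := (res a b f).coeff 0 with hc
  have h3 : (Polynomial.X : Polynomial ℂ) * (res b a f - Polynomial.C c * Polynomial.X ^ d) = 0 := by
    apply Polynomial.funext
    intro x
    rw [Polynomial.eval_mul, Polynomial.eval_X, Polynomial.eval_zero, Polynomial.eval_sub,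
      eval_res, Polynomial.eval_mul, Polynomial.eval_C, Polynomial.eval_pow, Polynomial.eval_X]
    by_cases hx : x = 0
    · rw [hx, zero_mul]
    · have h3 : (fun k => b k + x * a k) = fun k => x * (a k + x⁻¹ * b k) := by
        funext k
        field_simp
        ring
      rw [h3, eval_smul' hf, ← eval_res, h2, Polynomial.eval_C]
      ring
  rcases mul_eq_zero.1 h3 with h | h
  · exact Polynomial.X_ne_zero h
  · have h4 := congrArg (Polynomial.eval 0) h
    rw [Polynomial.eval_sub, eval_res, Polynomial.eval_mul, Polynomial.eval_C,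
      Polynomial.eval_pow, Polynomial.eval_X, zero_pow hd.ne', mul_zero, sub_zero,
      Polynomial.eval_zero] at h4
    apply hb
    rw [← h4]
    congr 1
    congr 1
    funext k
    simp

theorem Sit.card_le {G : Type} [Group G] [Fintype G] {n : ℕ} (S : Sit ℂ G n)
    {f : MvPolynomial (Fin n) ℂ} {d : ℕ} (hf : f.IsHomogeneous d) (hd : 0 < d)
    (hI : S.I = Ideal.span {f}) {i j : Fin n} (hij : i ≠ j) : Fintype.card G ≤ d := by
  classical
  by_cases hG : ∀ g : G, g = 1
  · have h1 : Fintype.card G ≤ 1 := Fintype.card_le_one_iff.2 fun a b => by rw [hG a, hG b]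
    omega
  push Not at hG
  obtain ⟨g, hg⟩ := hG
  have hmem : ∀ v : Fin n → ℂ, eval v f = 0 → ∀ p ∈ S.I, eval v p = 0 := by
    intro v hv p hp
    rw [hI, Ideal.mem_span_singleton] at hp
    obtain ⟨q, rfl⟩ := hp
    rw [map_mul, hv, zero_mul]
  have hne : ∀ k : Fin n, eval (Pi.single k (1 : ℂ)) f ≠ 0 := by
    intro k hk
    refine hg (S.free (Pi.single k 1) ?_ (hmem _ hk) g (S.α k g : ℂ) fun l => ?_)
    · intro h
      have := congrFun h k
      simp at this
    · by_cases hl : l = k
      · rw [hl]
      · rw [Pi.single_eq_of_ne hl, mul_zero, mul_zero]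
  obtain ⟨τ, hτ⟩ := exists_root hf hd (a := Pi.single i 1) (hne j)
  set w : Fin n → ℂ := fun k => (Pi.single i (1 : ℂ) : Fin n → ℂ) k
    + τ * (Pi.single j (1 : ℂ) : Fin n → ℂ) k with hw
  have hw0 : w ≠ 0 := by
    intro h
    have := congrFun h i
    simp [hw, hij] at this
  have hwV := hmem w hτ
  have hb0 : (Pi.single j (1 : ℂ) : Fin n → ℂ) ≠ 0 := by
    intro h
    have := congrFun h j
    simp at this
  have hT := topBound_forms (K := ℂ) (fun _ : Fin 1 => f) (fun _ => d) (fun _ => hf) (fun _ => hd)
  rw [Set.range_const, ← hI] at hT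
  have h1 := line_bound (e := 1) S.hom hT (y0 := Pi.single i 1) (b0 := Pi.single j 1) hb0
    ⟨f, by rw [hI]; exact Ideal.mem_span_singleton_self f, hne j⟩ (by
      intro h
      obtain ⟨c, hc⟩ := Submodule.mem_span_singleton.1 h
      have := congrFun hc i
      simp [hij] at this) (ι := G) (fun g => mv S.α g w) (by
      intro g
      refine Submodule.mem_span_pair.2 ⟨(S.α i g : ℂ), τ * (S.α j g : ℂ), ?_⟩
      funext k
      simp only [mv, hw, Pi.add_apply, Pi.smul_apply, smul_eq_mul]
      by_cases hki : k = i
      · subst hki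
        rw [Pi.single_eq_same, Pi.single_eq_of_ne hij]
        ring
      · by_cases hkj : k = j
        · subst hkj
          rw [Pi.single_eq_same, Pi.single_eq_of_ne hki]
          ring
        · rw [Pi.single_eq_of_ne hki, Pi.single_eq_of_ne hkj]
          ring)
    (fun g h => hw0 (funext fun k => (mv_supp S.α g w k).1 (congrFun h k)))
    (fun g => S.stable w hwV g) (fun g g' hgg => (S.fr hw0 hwV).notMem hgg) (Or.inl rfl)
  rw [Finset.univ_unique, Finset.sum_singleton] at h1
  omega

end Pool.Agent.TH144.MB
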