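import Pool.Agent.TH144.MB.Basic

/-!
# Linear forms which do not vanish on a cone of dimension at most one
-/

set_option autoImplicit false

namespace Pool.Agent.TH144.MB

open MvPolynomial Module

variable {σ : Type} {K : Type} [Field K]

/-- the linear form with coefficients `a` -/
noncomputable def lin [Fintype σ] (a : σ → K) : MvPolynomial σ K := ∑ i, C (a i) * X i

theorem lin_hom [Fintype σ] (a : σ → K) : (lin a).IsHomogeneous 1 := by
  unfold lin
  refine IsHomogeneous.sum _ _ _ fun i _ => ?_
  exact isHomogeneous_C_mul_X _ _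

theorem eval_lin [Fintype σ] (a v : σ → K) : eval v (lin a) = ∑ i, a i * v i := by
  simp [lin]

/-- some linear form does not vanish at finitely many given nonzero vectors -/
theorem exists_avoid [Fintype σ] [Infinite K] (s : Finset (σ → K)) (hs : ∀ v ∈ s, v ≠ 0) :
    ∃ a : σ → K, ∀ v ∈ s, eval v (lin a) ≠ 0 := by
  classical
  obtain ⟨φ, hφ⟩ := Module.exists_dual_forall_apply_ne_zero (K := K) (M := σ → K)
    (fun v : s => (v : σ → K)) (fun v => hs v v.2)
  refine ⟨fun i => φ (Pi.single i 1), fun v hv => ?_⟩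
  have h1 := hφ ⟨v, hv⟩
  have h2 : φ v = eval v (lin fun i => φ (Pi.single i 1)) := by
    rw [eval_lin]
    conv_lhs => rw [pi_eq_sum_univ' v]
    rw [map_sum]
    refine Finset.sum_congr rfl fun i _ => ?_
    rw [map_smul, smul_eq_mul, mul_comm]
  rw [← h2]
  exact h1

/-- If the forms modulo `I` have bounded dimension then some linear form does not vanish at any
nonzero point of the zero set of `I`. -/
theorem exists_lin [Fintype σ] [Infinite K] {I : Ideal (MvPolynomial σ K)} {B : ℕ}
    (hB : ∀ t, finrank K (W I t) ≤ B) :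
    ∃ a : σ → K, ∀ v : σ → K, v ≠ 0 → (∀ p ∈ I, eval v p = 0) → eval v (lin a) ≠ 0 := by
  classical
  by_contra hcon
  push Not at hcon
  obtain ⟨v, hv, hr⟩ := exists_seq_of_forall_finset_exists
    (fun v : σ → K => v ≠ 0 ∧ ∀ p ∈ I, eval v p = 0)
    (fun x y => ∃ a : σ → K, eval x (lin a) ≠ 0 ∧ eval y (lin a) = 0) (by
      intro s hs
      obtain ⟨a, ha⟩ := exists_avoid s fun v hv => (hs v hv).1
      obtain ⟨y, hy0, hy1, hy2⟩ := hcon a
      exact ⟨y, ⟨hy0, hy1⟩, fun x hx => ⟨a, ha x hx, hy2⟩⟩)
  choose! a ha1 ha2 using hr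
  obtain ⟨b, hb⟩ := exists_avoid ((Finset.range (B + 1)).image v) (by
    intro w hw
    obtain ⟨i, _, rfl⟩ := Finset.mem_image.1 hw
    exact (hv i).1)
  have hb' : ∀ i, i < B + 1 → eval (v i) (lin b) ≠ 0 := fun i hi =>
    hb _ (Finset.mem_image_of_mem _ (Finset.mem_range.2 hi))
  -- a triangular system of forms
  let F : ℕ → MvPolynomial σ K := fun i => (∏ k ∈ Finset.Ioc i B, lin (a i k)) * lin b ^ i
  have hF : ∀ i, i ≤ B → (F i).IsHomogeneous B := by
    intro i hi
    have h1 : (∏ k ∈ Finset.Ioc i B, lin (a i k)).IsHomogeneous (∑ _k ∈ Finset.Ioc i B, 1) :=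
      IsHomogeneous.prod _ _ _ fun k _ => lin_hom _
    have h2 : (lin b ^ i).IsHomogeneous (1 * i) := (lin_hom b).pow i
    have h3 := h1.mul h2
    rw [Finset.sum_const, Nat.card_Ioc, smul_eq_mul, mul_one, one_mul, Nat.sub_add_cancel hi] at h3
    exact h3
  have hF0 : ∀ i k, i < k → k ≤ B → eval (v k) (F i) = 0 := by
    intro i k hik hk
    simp only [F, map_mul, map_prod]
    rw [Finset.prod_eq_zero (Finset.mem_Ioc.2 ⟨hik, hk⟩) (ha2 i k hik), zero_mul]
  have hF1 : ∀ i, i ≤ B → eval (v i) (F i) ≠ 0 := by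
    intro i hi
    simp only [F, map_mul, map_prod, map_pow]
    refine mul_ne_zero ?_ (pow_ne_zero _ (hb' i (by omega)))
    rw [Finset.prod_ne_zero_iff]
    intro k hk
    exact ha1 i k (Finset.mem_Ioc.1 hk).1
  have hli : LinearIndependent K (fun i : Fin (B + 1) =>
      (⟨Ideal.Quotient.mk I (F i), mem_W.2 ⟨_, hF i (by omega), rfl⟩⟩ : W I B)) := by
    rw [Fintype.linearIndependent_iff]
    intro g hg
    have h1 : ∑ i : Fin (B + 1), C (g i) * F i ∈ I := by
      rw [← Ideal.Quotient.eq_zero_iff_mem, map_sum]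
      have h2 := congrArg (Submodule.subtype (W I B)) hg
      rw [map_sum, map_zero] at h2
      rw [← h2]
      refine Finset.sum_congr rfl fun i _ => ?_
      rw [map_smul, Submodule.subtype_apply, ← smul_eq_C_mul]
      exact map_smul (Ideal.Quotient.mkₐ K I) (g i) (F i)
    have h3 : ∀ k : Fin (B + 1), ∑ i : Fin (B + 1), g i * eval (v k) (F i) = 0 := by
      intro k
      have h4 := (hv k).2 _ h1
      rw [map_sum] at h4
      rw [← h4]
      refine Finset.sum_congr rfl fun i _ => ?_
      rw [(eval (v k)).map_mul (C (g i)) (F i), eval_C]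
    have h5 : ∀ (m : ℕ) (k : Fin (B + 1)), B - k = m → g k = 0 := by
      intro m
      induction m using Nat.strong_induction_on with
      | _ m ih =>
        intro k hk
        have h6 := h3 k
        rw [Finset.sum_eq_single k] at h6
        · rcases mul_eq_zero.1 h6 with h | h
          · exact h
          · exact absurd h (hF1 k (by omega))
        · intro i _ hik
          rcases lt_or_gt_of_ne (fun h : (i : ℕ) = k => hik (Fin.ext h)) with h | h
          · rw [hF0 i k h (by omega), mul_zero]
          · rw [ih (B - i) (by have := i.2; omega) i rfl, zero_mul]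
        · intro h
          exact absurd (Finset.mem_univ k) h
    exact fun k => h5 _ k rfl
  have h6 := hli.fintype_card_le_finrank
  rw [Fintype.card_fin] at h6
  have := hB B
  omega

/-- Nullstellensatz: an ideal without nonzero common zeros contains all forms of large degree. -/
theorem exists_top [Fintype σ] [IsAlgClosed K] {I : Ideal (MvPolynomial σ K)}
    (h : ∀ v : σ → K, (∀ p ∈ I, eval v p = 0) → v = 0) :
    ∃ T, ∀ t, T ≤ t → ∀ p : MvPolynomial σ K, p.IsHomogeneous t → p ∈ I := by
  classical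
  have h1 : ∀ i : σ, ∃ n : ℕ, (X i : MvPolynomial σ K) ^ n ∈ I := by
    intro i
    have h2 : (X i : MvPolynomial σ K) ∈ I.radical := by
      rw [← vanishingIdeal_zeroLocus_eq_radical (K := K)]
      rw [mem_vanishingIdeal_iff]
      intro v hv
      have h3 : v = 0 := by
        refine h v fun p hp => ?_
        have h4 := (mem_zeroLocus_iff.1 hv) p hp
        simpa [aeval_eq_eval] using h4
      simp [h3]
    exact Ideal.mem_radical_iff.1 h2
  choose n hn using h1
  set M := ∑ i, n i with hM
  have hM' : ∀ i, (X i : MvPolynomial σ K) ^ M ∈ I := by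
    intro i
    have h2 : n i ≤ M := Finset.single_le_sum (f := n) (fun _ _ => Nat.zero_le _) (Finset.mem_univ i)
    obtain ⟨m, hm⟩ := Nat.exists_eq_add_of_le h2
    rw [hm, pow_add]
    exact I.mul_mem_right _ (hn i)
  refine ⟨Fintype.card σ * M + 1, ?_⟩
  intro t ht p hp
  rw [p.as_sum]
  refine Ideal.sum_mem _ fun m hm => ?_
  have h3 : m.degree = t := by
    by_contra h4
    exact (mem_support_iff.1 hm) (hp.coeff_eq_zero h4)
  have h4 : ∃ i, M ≤ m i := by
    by_contra hc
    push Not at hc
    have h5 : m.degree = ∑ i, m i := by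
      rw [Finsupp.degree_eq_sum]
    have h6 : ∑ i, m i ≤ ∑ _i : σ, M := Finset.sum_le_sum fun i _ => (hc i).le
    rw [Finset.sum_const, Finset.card_univ, smul_eq_mul] at h6
    omega
  obtain ⟨i, hi⟩ := h4
  have h5 : (monomial m (coeff m p) : MvPolynomial σ K)
      = monomial (m - Finsupp.single i M) (coeff m p) * X i ^ M := by
    rw [X_pow_eq_monomial, monomial_mul, mul_one, tsub_add_cancel_of_le]
    rw [Finsupp.single_le_iff]
    exact hi
  rw [h5]
  exact I.mul_mem_left _ (hM' i)

theorem bounded [Fintype σ] {I : Ideal (MvPolynomial σ K)} (hI : Hom I) {f : MvPolynomial σ K}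
    {d : ℕ} (hd : 0 < d) (hf : f.IsHomogeneous d) {T : ℕ}
    (hT : ∀ t, T ≤ t → ∀ p : MvPolynomial σ K, p.IsHomogeneous t → p ∈ I ⊔ Ideal.span {f}) :
    ∃ B, ∀ t, finrank K (W I t) ≤ B := by
  refine ⟨∑ s ∈ Finset.range (T + d), finrank K (W I s), ?_⟩
  intro t
  induction t using Nat.strong_induction_on with
  | _ t ih =>
    rcases lt_or_ge t (T + d) with h | h
    · exact Finset.single_le_sum (f := fun s => finrank K (W I s)) (fun _ _ => Nat.zero_le _)
        (Finset.mem_range.2 h)
    · obtain ⟨s, rfl⟩ := Nat.exists_eq_add_of_le (show d ≤ t by omega)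
      exact (finrank_le_of_mem hI hf (hT _ (by omega))).trans (ih s (by omega))

end Pool.Agent.TH144.MB
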