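import Pool.Agent.TH144.MB.Reg

/-!
# Macaulay's bound

`macaulay`: let `f i` be forms of degrees `d i ≥ 1`, at least as many as there are variables, without
nonzero common zeros. Then every form of degree `> ∑ (d i - 1)` lies in the ideal generated by them.
-/

set_option autoImplicit false

namespace Pool.Agent.TH144.MB

open MvPolynomial Module

variable {K : Type} [Field K]

theorem ext_le {σ : Type} (L : List (MvPolynomial σ K)) (I J : Ideal (MvPolynomial σ K))
    (hI : I ≤ J) (hL : ∀ f ∈ L, f ∈ J) : ext I L ≤ J := by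
  induction L with
  | nil => exact hI
  | cons f L ih =>
    rw [ext_cons]
    refine sup_le (ih fun g hg => hL g (by simp [hg])) ?_
    rw [Ideal.span_singleton_le_iff_mem]
    exact hL f (by simp)

theorem macaulay_square {ι σ : Type} [Fintype ι] [Fintype σ] [IsAlgClosed K]
    (f : ι → MvPolynomial σ K) (d : ι → ℕ) (hf : ∀ i, (f i).IsHomogeneous (d i))
    (hd : ∀ i, 0 < d i) (hc : Fintype.card ι = Fintype.card σ)
    (hv : ∀ v : σ → K, (∀ i, eval v (f i) = 0) → v = 0) {t : ℕ} (ht : ∑ i, (d i - 1) < t)
    {p : MvPolynomial σ K} (hp : p.IsHomogeneous t) : p ∈ Ideal.span (Set.range f) := by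
  classical
  obtain ⟨_, h2⟩ := square (K := K) ((Finset.univ : Finset ι).toList.map fun i => (f i, d i)) []
    (by
      intro x hx
      obtain ⟨i, _, rfl⟩ := List.mem_map.1 hx
      exact ⟨hf i, hd i⟩)
    (by simp [hc])
    (by
      intro v _ h
      refine hv v fun i => h (f i, d i) ?_
      exact List.mem_map.2 ⟨i, by simp, rfl⟩)
  have h3 := h2 t (by
    rw [List.map_map]
    have h4 : (List.map ((fun x : MvPolynomial σ K × ℕ => x.2 - 1) ∘ fun i => (f i, d i))
        (Finset.univ : Finset ι).toList).sum = ∑ i, (d i - 1) := by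
      exact Finset.sum_map_toList _ _
    rw [h4]
    exact ht) p hp
  refine ext_le _ _ _ bot_le ?_ h3
  intro g hg
  simp only [List.map_nil, List.nil_append, List.map_map, List.mem_map] at hg
  obtain ⟨i, _, rfl⟩ := hg
  exact Ideal.subset_span ⟨i, rfl⟩

theorem eval_smul' {σ : Type} {p : MvPolynomial σ K} {n : ℕ} (hp : p.IsHomogeneous n) (c : K)
    (v : σ → K) : eval (fun i => c * v i) p = c ^ n * eval v p := by
  classical
  rw [eval_eq, eval_eq, Finset.mul_sum]
  refine Finset.sum_congr rfl fun m hm => ?_
  have h3 : m.degree = n := by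
    by_contra h4
    exact (MvPolynomial.mem_support_iff.1 hm) (hp.coeff_eq_zero h4)
  have h4 : ∏ i ∈ m.support, (c * v i) ^ m i = c ^ n * ∏ i ∈ m.support, v i ^ m i := by
    simp only [mul_pow]
    rw [Finset.prod_mul_distrib, Finset.prod_pow_eq_pow_sum, ← h3]
    rfl
  rw [h4]
  ring

/-- a polynomial map to a space of larger dimension is not surjective -/
theorem exists_not_mem {ι σ : Type} [Fintype ι] [Fintype σ] [Infinite K]
    (f : ι → MvPolynomial σ K) (hc : Fintype.card σ < Fintype.card ι) :
    ∃ c : ι → K, ∀ v : σ → K, ∃ i, eval v (f i) ≠ c i := by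
  classical
  have h1 : ¬ AlgebraicIndependent K f := by
    intro h
    have h2 := h.cardinalMk_le_trdeg
    rw [MvPolynomial.trdeg_of_isDomain, Cardinal.lift_id, Cardinal.mk_fintype,
      Cardinal.mk_fintype, Nat.cast_le] at h2
    omega
  rw [algebraicIndependent_iff] at h1
  push Not at h1
  obtain ⟨Φ, hΦ, hΦ0⟩ := h1
  obtain ⟨c, hc⟩ : ∃ c : ι → K, eval c Φ ≠ 0 := by
    by_contra hcon
    push Not at hcon
    exact hΦ0 (MvPolynomial.funext fun c => by rw [hcon c, map_zero])
  refine ⟨c, fun v => ?_⟩
  by_contra hcon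
  push Not at hcon
  apply hc
  have h3 : eval v (aeval f Φ) = eval (fun i => eval v (f i)) Φ := by
    have h4 : ((aeval v : MvPolynomial σ K →ₐ[K] K).comp (aeval f)) Φ
        = aeval (fun i => aeval v (f i)) Φ := by
      rw [comp_aeval]
    simpa [aeval_eq_eval] using h4
  rw [hΦ, map_zero] at h3
  rw [← funext hcon, ← h3]

/-- Macaulay's bound for any number of forms without nonzero common zeros. -/
theorem macaulay_aux {ι : Type} [Fintype ι] [IsAlgClosed K] (k : ℕ) :
    ∀ {σ : Type} [Fintype σ] (f : ι → MvPolynomial σ K) (d : ι → ℕ),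
    (∀ i, (f i).IsHomogeneous (d i)) → (∀ i, 0 < d i) →
    Fintype.card ι = Fintype.card σ + k →
    (∀ v : σ → K, (∀ i, eval v (f i) = 0) → v = 0) → ∀ {t : ℕ}, ∑ i, (d i - 1) < t →
    ∀ {p : MvPolynomial σ K}, p.IsHomogeneous t → p ∈ Ideal.span (Set.range f) := by
  classical
  have := IsAlgClosed.instInfinite (K := K)
  induction k with
  | zero =>
    intro σ _ f d hf hd hc hv t ht p hp
    exact macaulay_square f d hf hd (by omega) hv ht hp
  | succ k ih =>
    intro σ _ f d hf hd hc hv t ht p hp
    obtain ⟨c, hcc⟩ := exists_not_mem f (by omega)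
    let g : ι → MvPolynomial (Option σ) K := fun i =>
      rename some (f i) - C (c i) * X none ^ d i
    have hg : ∀ i, (g i).IsHomogeneous (d i) := by
      intro i
      refine (hf i).rename_isHomogeneous.sub ?_
      have h1 := (isHomogeneous_C (Option σ) (c i)).mul ((isHomogeneous_X K (none : Option σ)).pow (d i))
      simpa using h1
    have hge : ∀ (v : Option σ → K) (i : ι),
        eval v (g i) = eval (fun j => v (some j)) (f i) - c i * v none ^ d i := by
      intro v i
      simp only [g, map_sub, map_mul, eval_C, map_pow, eval_X, eval_rename]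
      rfl
    have h1 : rename some p ∈ Ideal.span (Set.range g) := by
      refine ih g d hg hd (by rw [Fintype.card_option]; omega) ?_ ht hp.rename_isHomogeneous
      intro v hv0
      by_cases hy : v none = 0
      · have h2 : (fun j => v (some j)) = 0 := by
          refine hv _ fun i => ?_
          have h3 := hv0 i
          rw [hge, hy, zero_pow (hd i).ne', mul_zero, sub_zero] at h3
          exact h3
        funext o
        rcases o with _ | j
        · exact hy
        · exact congrFun h2 j
      · exfalso
        obtain ⟨i, hi⟩ := hcc (fun j => (v none)⁻¹ * v (some j))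
        apply hi
        rw [eval_smul' (hf i)]
        have h3 := hv0 i
        rw [hge, sub_eq_zero] at h3
        rw [h3, inv_pow]
        field_simp
    let ψ : MvPolynomial (Option σ) K →ₐ[K] MvPolynomial σ K :=
      aeval fun o => o.elim 0 X
    have hψ : ∀ q : MvPolynomial σ K, ψ (rename some q) = q := by
      intro q
      have h2 : ψ.comp (rename some) = AlgHom.id K (MvPolynomial σ K) := by
        apply algHom_ext
        intro i
        simp [ψ]
      exact DFunLike.congr_fun h2 q
    have h2 := Ideal.mem_map_of_mem ψ h1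
    rw [hψ, Ideal.map_span, ← Set.range_comp] at h2
    have h3 : (ψ ∘ g) = f := by
      funext i
      simp only [Function.comp, g, map_sub, map_mul, hψ, map_pow]
      simp [ψ, (hd i).ne']
    rwa [h3] at h2

theorem macaulay {ι σ : Type} [Fintype ι] [Fintype σ] [IsAlgClosed K]
    (f : ι → MvPolynomial σ K) (d : ι → ℕ) (hf : ∀ i, (f i).IsHomogeneous (d i))
    (hd : ∀ i, 0 < d i) (hc : Fintype.card σ ≤ Fintype.card ι)
    (hv : ∀ v : σ → K, (∀ i, eval v (f i) = 0) → v = 0) {t : ℕ} (ht : ∑ i, (d i - 1) < t)
    {p : MvPolynomial σ K} (hp : p.IsHomogeneous t) : p ∈ Ideal.span (Set.range f) := by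
  obtain ⟨k, hk⟩ := Nat.exists_eq_add_of_le hc
  exact macaulay_aux k f d hf hd hk hv ht hp

end Pool.Agent.TH144.MB
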