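import Pool.Agent.TH144.MB.Pair

/-!
# The zeros of an ideal on a line

`line_bound`: assume `TopBound I ρ`, let `U` be a plane (a line of the projective space) which is
not contained in the zero set of `I`, and let `v i` be pairwise nonproportional zeros of `I` in `U`.
Then there are at most `ρ + 1` of them, and at most `(ρ + 1) / 2` if `U` is tangent to the
zero set of `I` at all of them.
-/

set_option autoImplicit false

namespace Pool.Agent.TH144.MB

open MvPolynomial Module

variable {K : Type} [Field K] {n : ℕ}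

/-- the derivative of `p` at `v` in the direction `w` -/
noncomputable def dv (p : MvPolynomial (Fin n) K) (v w : Fin n → K) : K :=
  ∑ i, eval v (pderiv i p) * w i

theorem cone {I : Ideal (MvPolynomial (Fin n) K)} (hI : Hom I) {v : Fin n → K}
    (hv : ∀ p ∈ I, eval v p = 0) (c : K) : ∀ p ∈ I, eval (fun i => c * v i) p = 0 := by
  intro p hp
  rw [← sum_homogeneousComponent p, map_sum]
  refine Finset.sum_eq_zero fun m _ => ?_
  rw [eval_smul' (homogeneousComponent_isHomogeneous m p), hv _ (hI p hp m), mul_zero]

/-- restriction to a line -/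
noncomputable def res (a b : Fin n → K) : MvPolynomial (Fin n) K →ₐ[K] Polynomial K :=
  aeval fun i => Polynomial.C (a i) + Polynomial.C (b i) * Polynomial.X

theorem eval_res (a b : Fin n → K) (τ : K) (p : MvPolynomial (Fin n) K) :
    Polynomial.eval τ (res a b p) = eval (fun i => a i + τ * b i) p := by
  unfold res
  rw [aeval_def, ← Polynomial.coe_evalRingHom, hom_eval₂]
  rw [← coe_eval₂Hom]
  have : (Polynomial.evalRingHom τ).comp (algebraMap K (Polynomial K)) = RingHom.id K := by
    ext x
    simp
  rw [this]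
  simp only [eval, map_add, map_mul, Polynomial.coe_evalRingHom, Polynomial.eval_C,
    Polynomial.eval_X, mul_comm τ]

theorem natDegree_res (a b : Fin n → K) (p : MvPolynomial (Fin n) K) {t : ℕ}
    (hp : p.IsHomogeneous t) : (res a b p).natDegree ≤ t := by
  have h1 := aeval_natDegree_le p (m := t) (n := 1) hp.totalDegree_le
    (fun i => Polynomial.C (a i) + Polynomial.C (b i) * Polynomial.X) (by
      intro i
      refine (Polynomial.natDegree_add_le _ _).trans ?_
      rw [Polynomial.natDegree_C]
      refine max_le (Nat.zero_le _) ?_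
      exact (Polynomial.natDegree_C_mul_le _ _).trans Polynomial.natDegree_X_le)
  rw [mul_one] at h1
  exact h1

theorem derivative_res (a b : Fin n → K) (p : MvPolynomial (Fin n) K) :
    Polynomial.derivative (res a b p) = ∑ i, res a b (pderiv i p) * Polynomial.C (b i) := by
  classical
  induction p using MvPolynomial.induction_on with
  | C c => simp [res]
  | add p q hp hq =>
    simp only [map_add, hp, hq, add_mul, Finset.sum_add_distrib]
  | mul_X p j hp =>
    have h1 : res a b (X j) = Polynomial.C (a j) + Polynomial.C (b j) * Polynomial.X := by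
      simp [res]
    simp only [map_mul, Polynomial.derivative_mul, hp, Derivation.leibniz, pderiv_X, smul_eq_mul,
      map_add, add_mul, Finset.sum_add_distrib]
    rw [add_comm]
    congr 1
    · rw [Finset.sum_eq_single j]
      · simp [h1]
      · intro i _ hij
        simp [hij]
      · intro h; exact absurd (Finset.mem_univ _) h
    · rw [Finset.sum_mul]
      refine Finset.sum_congr rfl fun i _ => ?_
      ring

theorem card_mul_le {φ : Polynomial K} (T : Finset K) (e : ℕ)
    (h : ∀ τ ∈ T, e ≤ φ.rootMultiplicity τ) : e * T.card ≤ φ.natDegree := by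
  classical
  have h1 : e • T.val ≤ φ.roots := by
    rw [Multiset.le_iff_count]
    intro τ
    rw [Multiset.count_nsmul, Polynomial.count_roots]
    by_cases hτ : τ ∈ T
    · rw [Multiset.count_eq_one_of_mem T.nodup hτ, mul_one]
      exact h τ hτ
    · rw [Multiset.count_eq_zero_of_notMem hτ, mul_zero]
      exact Nat.zero_le _
  have h2 := Multiset.card_le_card h1
  rw [Multiset.card_nsmul] at h2
  exact h2.trans (Polynomial.card_roots' φ)

/-- linear forms cutting out a subspace -/
theorem exists_cut (U : Submodule K (Fin n → K)) :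
    ∃ (s : ℕ) (L : Fin s → Fin n → K), ∀ v, v ∈ U ↔ ∀ i, eval v (lin (L i)) = 0 := by
  classical
  let B := Module.finBasis K ((Fin n → K) ⧸ U)
  refine ⟨_, fun k i => (B.coord k ∘ₗ U.mkQ) (Pi.single i 1), fun v => ?_⟩
  simp only [dual_eq]
  simp only [LinearMap.comp_apply, Submodule.mkQ_apply]
  rw [B.forall_coord_eq_zero_iff, Submodule.Quotient.mk_eq_zero]

/-- forms of small degree in `I` vanish at all points of a line with many zeros -/
theorem eval_eq_zero [Infinite K] {I : Ideal (MvPolynomial (Fin n) K)} {y0 b0 : Fin n → K}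
    {ι : Type} [Fintype ι] (v : ι → Fin n → K)
    (hv : ∀ i, ∃ c τ : K, c ≠ 0 ∧ v i = fun k => c * (y0 k + τ * b0 k))
    (hvI : ∀ i, ∀ p ∈ I, eval (v i) p = 0)
    (hne : ∀ i j, i ≠ j → v j ∉ Submodule.span K {v i})
    {e : ℕ} (he : e = 1 ∨ e = 2 ∧ ∀ i, ∀ p ∈ I, dv p (v i) b0 = 0)
    {t : ℕ} (ht : t < e * Fintype.card ι) {p : MvPolynomial (Fin n) K} (hp : p.IsHomogeneous t)
    (hpI : p ∈ I) : eval b0 p = 0 := by
  classical
  choose c τ hc hvc using hv
  have hτ : Function.Injective τ := by
    intro i j hij
    by_contra h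
    refine hne i j h (Submodule.mem_span_singleton.2 ⟨c j / c i, ?_⟩)
    rw [hvc i, hvc j, hij]
    funext k
    have := hc i
    simp only [Pi.smul_apply, smul_eq_mul]
    field_simp
  have h0 : ∀ i, eval (fun k => y0 k + τ i * b0 k) p = 0 := by
    intro i
    have h1 := hvI i p hpI
    rw [hvc i, eval_smul' hp] at h1
    rcases mul_eq_zero.1 h1 with h2 | h2
    · exact absurd h2 (pow_ne_zero _ (hc i))
    · exact h2
  have hφ : res y0 b0 p = 0 := by
    by_contra hφ
    have h1 := card_mul_le (φ := res y0 b0 p) (Finset.univ.image τ) e (by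
      intro x hx
      obtain ⟨i, _, rfl⟩ := Finset.mem_image.1 hx
      have h2 : (res y0 b0 p).IsRoot (τ i) := by
        rw [Polynomial.IsRoot, eval_res]
        exact h0 i
      rcases he with rfl | ⟨rfl, he⟩
      · exact (Polynomial.rootMultiplicity_pos hφ).2 h2
      · refine (Polynomial.one_lt_rootMultiplicity_iff_isRoot hφ).2 ⟨h2, ?_⟩
        rw [Polynomial.IsRoot, derivative_res, Polynomial.eval_finsetSum]
        simp only [Polynomial.eval_mul, Polynomial.eval_C, eval_res]
        have h3 := he i p hpI
        unfold dv at h3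
        rw [hvc i] at h3
        simp only [eval_smul' hp.pderiv, mul_assoc] at h3
        rw [← Finset.mul_sum] at h3
        rcases mul_eq_zero.1 h3 with h4 | h4
        · exact absurd h4 (pow_ne_zero _ (hc i))
        · exact h4)
    rw [Finset.card_image_of_injective _ hτ, Finset.card_univ] at h1
    have h2 := natDegree_res y0 b0 p hp
    omega
  have h1 : ∀ x : K, eval (fun k => y0 k + x * b0 k) p = 0 := by
    intro x
    rw [← eval_res, hφ, Polynomial.eval_zero]
  have h2 : (Polynomial.X : Polynomial K) * res b0 y0 p = 0 := by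
    apply Polynomial.funext
    intro x
    rw [Polynomial.eval_mul, Polynomial.eval_X, Polynomial.eval_zero, eval_res]
    by_cases hx : x = 0
    · rw [hx, zero_mul]
    · have h3 : (fun k => b0 k + x * y0 k) = fun k => x * (y0 k + x⁻¹ * b0 k) := by
        funext k
        field_simp
        ring
      rw [h3, eval_smul' hp, h1, mul_zero, mul_zero]
  have h3 : res b0 y0 p = 0 := by
    rcases mul_eq_zero.1 h2 with h | h
    · exact absurd h Polynomial.X_ne_zero
    · exact h
  have h4 := eval_res b0 y0 0 p
  rw [h3, Polynomial.eval_zero] at h4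
  rw [h4]
  congr 1
  congr 1
  funext k
  simp

theorem line_bound [Infinite K] {I : Ideal (MvPolynomial (Fin n) K)} (hI : Hom I) {ρ : ℕ}
    (hρ : TopBound I ρ) {y0 b0 : Fin n → K} (hb0 : b0 ≠ 0) (hb : ∃ p ∈ I, eval b0 p ≠ 0)
    (hy : y0 ∉ Submodule.span K {b0})
    {ι : Type} [Fintype ι] (v : ι → Fin n → K) (hvU : ∀ i, v i ∈ Submodule.span K {y0, b0})
    (hv0 : ∀ i, v i ≠ 0) (hvI : ∀ i, ∀ p ∈ I, eval (v i) p = 0)
    (hne : ∀ i j, i ≠ j → v j ∉ Submodule.span K {v i})
    {e : ℕ} (he : e = 1 ∨ e = 2 ∧ ∀ i, ∀ p ∈ I, dv p (v i) b0 = 0) :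
    e * Fintype.card ι ≤ ρ + 1 := by
  classical
  -- points of the zero set on the line `K b0`
  have hcb : ∀ d : K, (∀ p ∈ I, eval (fun k => d * b0 k) p = 0) → d = 0 := by
    intro d hd
    by_contra h
    obtain ⟨p, hp, hpb⟩ := hb
    apply hpb
    have h1 := cone hI hd d⁻¹ p hp
    convert h1 using 3
    field_simp
  have hv : ∀ i, ∃ c τ : K, c ≠ 0 ∧ v i = fun k => c * (y0 k + τ * b0 k) := by
    intro i
    obtain ⟨c, d, hcd⟩ := Submodule.mem_span_pair.1 (hvU i)
    have hc : c ≠ 0 := by
      rintro rfl
      rw [zero_smul, zero_add] at hcd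
      have h1 : d = 0 := hcb d (by
        intro p hp
        have := hvI i p hp
        rw [← hcd] at this
        exact this)
      apply hv0 i
      rw [← hcd, h1, zero_smul]
    refine ⟨c, d / c, hc, ?_⟩
    rw [← hcd]
    funext k
    simp only [Pi.add_apply, Pi.smul_apply, smul_eq_mul]
    field_simp
  by_contra hcon
  obtain ⟨s, L, hL⟩ := exists_cut (Submodule.span K {y0, b0})
  obtain ⟨a, ha, hab⟩ := exists_lin_of_notMem hy
  have hab0 : eval b0 (lin a) = 0 := hab b0 (Submodule.mem_span_singleton_self _)
  obtain ⟨i0, hi0⟩ : ∃ i, b0 i ≠ 0 := by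
    by_contra hc
    push Not at hc
    exact hb0 (funext hc)
  set L' : Fin (s + 1) → Fin n → K := Fin.cons a L with hL'
  have h1 := hρ (s + 1) L' (by
    intro w hw hwL
    have h2 : w ∈ Submodule.span K {y0, b0} := by
      rw [hL]
      intro i
      have := hwL i.succ
      rwa [hL', Fin.cons_succ] at this
    obtain ⟨c, d, rfl⟩ := Submodule.mem_span_pair.1 h2
    have h3 := hwL 0
    rw [hL', Fin.cons_zero, eval_lin] at h3
    simp only [Pi.add_apply, Pi.smul_apply, smul_eq_mul, mul_add, Finset.sum_add_distrib] at h3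
    have h4 : ∑ i, a i * (c * y0 i) = c * eval y0 (lin a) := by
      rw [eval_lin, Finset.mul_sum]
      exact Finset.sum_congr rfl fun i _ => by ring
    have h5 : ∑ i, a i * (d * b0 i) = d * eval b0 (lin a) := by
      rw [eval_lin, Finset.mul_sum]
      exact Finset.sum_congr rfl fun i _ => by ring
    rw [h4, h5, hab0, mul_zero, add_zero] at h3
    have hc : c = 0 := by
      rcases mul_eq_zero.1 h3 with h | h
      · exact h
      · exact absurd h ha
    rw [hc, zero_smul, zero_add] at hw ⊢
    have hd : d = 0 := hcb d hw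
    rw [hd, zero_smul]) (e * Fintype.card ι - 1) (by omega)
    (X i0 ^ (e * Fintype.card ι - 1)) (by simpa using (isHomogeneous_X K i0).pow _)
  set t := e * Fintype.card ι - 1 with ht
  obtain ⟨p, hp, q, hq, hpq⟩ := Submodule.mem_sup.1 h1
  have hJ : Hom (Ideal.span (Set.range fun i => lin (L' i))) := by
    refine hom_span ?_
    rintro _ ⟨i, rfl⟩
    exact ⟨1, lin_hom _⟩
  have h2 : eval b0 (homogeneousComponent t p) = 0 :=
    eval_eq_zero v hv hvI hne he (by omega) (homogeneousComponent_isHomogeneous t p) (hI p hp t)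
  have h3 : eval b0 (homogeneousComponent t q) = 0 := by
    have h4 : Ideal.span (Set.range fun i => lin (L' i)) ≤ RingHom.ker (eval b0) := by
      rw [Ideal.span_le]
      rintro _ ⟨i, rfl⟩
      refine RingHom.mem_ker.2 ?_
      refine Fin.cases ?_ (fun i => ?_) i
      · show eval b0 (lin (L' 0)) = 0
        rw [hL', Fin.cons_zero]
        exact hab0
      · show eval b0 (lin (L' i.succ)) = 0
        rw [hL', Fin.cons_succ]
        exact (hL b0).1 (Submodule.subset_span (by simp)) i
    exact RingHom.mem_ker.1 (h4 (hJ q hq t))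
  have h4 : eval b0 (homogeneousComponent t (X i0 ^ t : MvPolynomial (Fin n) K)) = 0 := by
    rw [← hpq, map_add, map_add, h2, h3, add_zero]
  rw [homogeneousComponent_of_mem (show (X i0 ^ t : MvPolynomial (Fin n) K) ∈
    homogeneousSubmodule (Fin n) K t by simpa using (isHomogeneous_X K i0).pow t), if_pos rfl,
    map_pow, eval_X] at h4
  exact pow_ne_zero _ hi0 h4

end Pool.Agent.TH144.MB
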