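import Pool.Agent.TH144.MB.Diag

/-!
# Products of linear forms vanishing at a finite set but not at a given point

`exists_form`: let `Q` be a set of at most `2 t` vectors outside the line `K y`, at most `t` of which
lie in each plane containing `y`. Then some product of `t` linear forms vanishes on `Q` and
not at `y`.
-/

set_option autoImplicit false

namespace Pool.Agent.TH144.MB

open MvPolynomial Module

variable {K : Type} [Field K]

theorem dual_eq {σ : Type} [Fintype σ] [DecidableEq σ] (φ : (σ → K) →ₗ[K] K) (v : σ → K) :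
    eval v (lin fun i => φ (Pi.single i 1)) = φ v := by
  rw [eval_lin]
  conv_rhs => rw [pi_eq_sum_univ' v]
  rw [map_sum]
  refine Finset.sum_congr rfl fun i _ => ?_
  rw [map_smul, smul_eq_mul, mul_comm]

/-- a linear form which vanishes on a subspace but not at a given vector outside it -/
theorem exists_lin_of_notMem {σ : Type} [Fintype σ] {U : Submodule K (σ → K)} {y : σ → K}
    (h : y ∉ U) : ∃ a : σ → K, eval y (lin a) ≠ 0 ∧ ∀ v ∈ U, eval v (lin a) = 0 := by
  classical
  obtain ⟨φ, hφ, hU⟩ := Submodule.exists_le_ker_of_notMem h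
  exact ⟨fun i => φ (Pi.single i 1), by rwa [dual_eq], fun v hv => by
    rw [dual_eq]; exact hU hv⟩

theorem span_pair_eq {V : Type} [AddCommGroup V] [Module K V] {y q q' : V}
    (hq : q ∈ Submodule.span K {y, q'}) (hqy : q ∉ Submodule.span K {y}) :
    Submodule.span K {y, q} = Submodule.span K {y, q'} := by
  obtain ⟨a, b, hab⟩ := Submodule.mem_span_pair.1 hq
  have hb : b ≠ 0 := by
    rintro rfl
    exact hqy (Submodule.mem_span_singleton.2 ⟨a, by rw [← hab]; simp⟩)
  apply le_antisymm
  · rw [Submodule.span_le]
    rintro x (rfl | rfl)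
    · exact Submodule.subset_span (by simp)
    · exact hq
  · rw [Submodule.span_le]
    rintro x (rfl | rfl)
    · exact Submodule.subset_span (by simp)
    · refine Submodule.mem_span_pair.2 ⟨-(b⁻¹ * a), b⁻¹, ?_⟩
      rw [← hab, smul_add, smul_smul, smul_smul, inv_mul_cancel₀ hb, one_smul]
      module

/-- a linear form which vanishes at `q` and `q'` but not at `y` -/
theorem exists_lin_pair {n : ℕ} {y q q' : Fin n → K} (hy : y ≠ 0)
    (hq : q ∉ Submodule.span K {y}) (hq' : q' ∉ Submodule.span K {y})
    (hne : q = q' ∨ Submodule.span K {y, q} ≠ Submodule.span K {y, q'}) :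
    ∃ a : Fin n → K, eval y (lin a) ≠ 0 ∧ eval q (lin a) = 0 ∧ eval q' (lin a) = 0 := by
  have h1 : y ∉ Submodule.span K {q, q'} := by
    rcases hne with rfl | hne
    · intro h
      rw [Set.pair_eq_singleton, Submodule.mem_span_singleton] at h
      obtain ⟨a, ha⟩ := h
      have ha0 : a ≠ 0 := by
        rintro rfl
        exact hy (by rw [← ha, zero_smul])
      exact hq (Submodule.mem_span_singleton.2 ⟨a⁻¹, by rw [← ha, smul_smul,
        inv_mul_cancel₀ ha0, one_smul]⟩)
    · intro h
      obtain ⟨a, b, hab⟩ := Submodule.mem_span_pair.1 h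
      by_cases ha : a = 0
      · rw [ha, zero_smul, zero_add] at hab
        have hb : b ≠ 0 := by
          rintro rfl
          exact hy (by rw [← hab, zero_smul])
        exact hq' (Submodule.mem_span_singleton.2 ⟨b⁻¹, by rw [← hab, smul_smul,
          inv_mul_cancel₀ hb, one_smul]⟩)
      · apply hne
        refine span_pair_eq ?_ hq
        refine Submodule.mem_span_pair.2 ⟨a⁻¹, -(a⁻¹ * b), ?_⟩
        rw [← hab, smul_add, smul_smul, smul_smul, inv_mul_cancel₀ ha, one_smul]
        module
  obtain ⟨a, ha, h2⟩ := exists_lin_of_notMem h1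
  exact ⟨a, ha, h2 _ (Submodule.subset_span (by simp)), h2 _ (Submodule.subset_span (by simp))⟩

/-- One step of the pairing. -/
theorem pairing {β γ : Type} [DecidableEq β] [DecidableEq γ] (f : β → γ) {t : ℕ} {Q : Finset β}
    (hQ : Q.Nonempty) (hc : Q.card ≤ 2 * (t + 1))
    (hf : ∀ q ∈ Q, (Q.filter fun q' => f q' = f q).card ≤ t + 1) :
    ∃ q1 ∈ Q, ∃ q2 ∈ Q, (q1 = q2 ∨ f q1 ≠ f q2) ∧ ((Q.erase q1).erase q2).card ≤ 2 * t ∧
      ∀ q ∈ (Q.erase q1).erase q2,
        (((Q.erase q1).erase q2).filter fun q' => f q' = f q).card ≤ t := by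
  obtain ⟨q1, hq1, hmax1⟩ := Finset.exists_max_image Q
    (fun q => (Q.filter fun q' => f q' = f q).card) hQ
  rcases (Q.filter fun q' => f q' ≠ f q1).eq_empty_or_nonempty with he | hne
  · -- all in one class
    have h1 : (Q.filter fun q' => f q' = f q1) = Q := by
      apply Finset.filter_true_of_mem
      intro q hq
      by_contra h
      have : q ∈ Q.filter fun q' => f q' ≠ f q1 := Finset.mem_filter.2 ⟨hq, h⟩
      rw [he] at this
      exact absurd this (Finset.notMem_empty _)
    have h2 := hf q1 hq1
    rw [h1] at h2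
    have h3 : ((Q.erase q1).erase q1) = Q.erase q1 :=
      Finset.erase_eq_of_notMem (Finset.notMem_erase _ _)
    have h4 : (Q.erase q1).card ≤ t := by
      rw [Finset.card_erase_of_mem hq1]
      omega
    refine ⟨q1, hq1, q1, hq1, Or.inl rfl, ?_, ?_⟩
    · rw [h3]; omega
    · intro q _
      rw [h3]
      exact (Finset.card_filter_le _ _).trans h4
  · obtain ⟨q2, hq2, hmax2⟩ := Finset.exists_max_image (Q.filter fun q' => f q' ≠ f q1)
      (fun q => (Q.filter fun q' => f q' = f q).card) hne
    rw [Finset.mem_filter] at hq2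
    have hq21 : q2 ≠ q1 := fun h => hq2.2 (by rw [h])
    have hq2e : q2 ∈ Q.erase q1 := Finset.mem_erase.2 ⟨hq21, hq2.1⟩
    refine ⟨q1, hq1, q2, hq2.1, Or.inr (Ne.symm hq2.2), ?_, ?_⟩
    · rw [Finset.card_erase_of_mem hq2e, Finset.card_erase_of_mem hq1]
      omega
    · intro q hq
      have hqQ : q ∈ Q := Finset.mem_of_mem_erase (Finset.mem_of_mem_erase hq)
      have hsub : (((Q.erase q1).erase q2).filter fun q' => f q' = f q)
          ⊆ (Q.filter fun q' => f q' = f q) := by
        apply Finset.filter_subset_filter
        exact (Finset.erase_subset _ _).trans (Finset.erase_subset _ _)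
      have key : ∀ q0 ∈ Q, (q0 = q1 ∨ q0 = q2) → f q = f q0 →
          (((Q.erase q1).erase q2).filter fun q' => f q' = f q).card ≤ t := by
        intro q0 hq0 h01 hfq
        have h1 : (((Q.erase q1).erase q2).filter fun q' => f q' = f q)
            ⊂ (Q.filter fun q' => f q' = f q) := by
          rw [Finset.ssubset_iff_of_subset hsub]
          refine ⟨q0, Finset.mem_filter.2 ⟨hq0, hfq.symm⟩, ?_⟩
          intro h
          have h2 := (Finset.mem_filter.1 h).1
          rcases h01 with rfl | rfl
          · exact absurd (Finset.mem_of_mem_erase h2) (Finset.notMem_erase _ _)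
          · exact absurd h2 (Finset.notMem_erase _ _)
        have h2 := Finset.card_lt_card h1
        have h3 := hf q hqQ
        omega
      by_cases h1 : f q = f q1
      · exact key q1 hq1 (Or.inl rfl) h1
      · by_cases h2 : f q = f q2
        · exact key q2 hq2.1 (Or.inr rfl) h2
        · -- a third class
          have h3 := hmax2 q (Finset.mem_filter.2 ⟨hqQ, h1⟩)
          have h4 := hmax1 q2 hq2.1
          have hd1 : Disjoint (Q.filter fun q' => f q' = f q1) (Q.filter fun q' => f q' = f q2) := by
            rw [Finset.disjoint_filter]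
            intro x _ hx hx2
            exact hq2.2 (hx2.symm.trans hx)
          have hd2 : Disjoint ((Q.filter fun q' => f q' = f q1) ∪ (Q.filter fun q' => f q' = f q2))
              (Q.filter fun q' => f q' = f q) := by
            rw [Finset.disjoint_union_left]
            constructor
            · rw [Finset.disjoint_filter]
              intro x _ hx hx2
              exact h1 (hx2.symm.trans hx)
            · rw [Finset.disjoint_filter]
              intro x _ hx hx2
              exact h2 (hx2.symm.trans hx)
          have h5 : (((Q.filter fun q' => f q' = f q1) ∪ (Q.filter fun q' => f q' = f q2)) ∪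
              (Q.filter fun q' => f q' = f q)).card ≤ Q.card := by
            apply Finset.card_le_card
            refine Finset.union_subset (Finset.union_subset ?_ ?_) ?_ <;>
              exact Finset.filter_subset _ _
          rw [Finset.card_union_of_disjoint hd2, Finset.card_union_of_disjoint hd1] at h5
          have h6 := Finset.card_le_card hsub
          omega

theorem exists_form {n : ℕ} {y : Fin n → K} (hy : y ≠ 0) (t : ℕ) :
    ∀ (Q : Finset (Fin n → K)), (∀ q ∈ Q, q ∉ Submodule.span K {y}) → Q.card ≤ 2 * t →
    (∀ q ∈ Q, ∀ (R : Finset (Fin n → K)), R ⊆ Q → (∀ q' ∈ R, q' ∈ Submodule.span K {y, q}) →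
      R.card ≤ t) →
    ∃ F : MvPolynomial (Fin n) K, F.IsHomogeneous t ∧ eval y F ≠ 0 ∧ ∀ q ∈ Q, eval q F = 0 := by
  classical
  induction t with
  | zero =>
    intro Q _ hc _
    have h1 : Q = ∅ := Finset.card_eq_zero.1 (by omega)
    refine ⟨1, isHomogeneous_one _ _, by simp, ?_⟩
    intro q hq
    rw [h1] at hq
    exact absurd hq (Finset.notMem_empty _)
  | succ t ih =>
    intro Q hQ hc hR
    rcases Q.eq_empty_or_nonempty with he | hne
    · obtain ⟨i, hi⟩ : ∃ i, y i ≠ 0 := by
        by_contra hcon
        push Not at hcon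
        exact hy (funext hcon)
      refine ⟨X i ^ (t + 1), by simpa using (isHomogeneous_X K i).pow (t + 1), ?_, ?_⟩
      · rw [map_pow, eval_X]
        exact pow_ne_zero _ hi
      · intro q hq
        rw [he] at hq
        exact absurd hq (Finset.notMem_empty _)
    · have hmem : ∀ q q' : Fin n → K, Submodule.span K {y, q'} = Submodule.span K {y, q} →
          q' ∈ Submodule.span K {y, q} := by
        intro q q' h
        rw [← h]
        exact Submodule.subset_span (by simp)
      obtain ⟨q1, hq1, q2, hq2, h12, hc', hf'⟩ := pairing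
        (fun q : Fin n → K => Submodule.span K {y, q}) hne hc (by
          intro q hq
          refine hR q hq _ (Finset.filter_subset _ _) ?_
          intro q' hq'
          exact hmem _ _ (Finset.mem_filter.1 hq').2)
      have hsub : (Q.erase q1).erase q2 ⊆ Q :=
        (Finset.erase_subset _ _).trans (Finset.erase_subset _ _)
      obtain ⟨F, hF, hFy, hFQ⟩ := ih ((Q.erase q1).erase q2) (fun q hq => hQ q (hsub hq)) hc' (by
        intro q hq R hRQ hRs
        refine (Finset.card_le_card ?_).trans (hf' q hq)
        intro q' hq'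
        refine Finset.mem_filter.2 ⟨hRQ hq', ?_⟩
        exact span_pair_eq (hRs q' hq') (hQ q' (hsub (hRQ hq'))))
      obtain ⟨a, ha, ha1, ha2⟩ := exists_lin_pair hy (hQ q1 hq1) (hQ q2 hq2) h12
      refine ⟨lin a * F, ?_, ?_, ?_⟩
      · have := (lin_hom a).mul hF
        rwa [add_comm] at this
      · rw [map_mul]
        exact mul_ne_zero ha hFy
      · intro q hq
        rw [map_mul]
        by_cases h1 : q = q1
        · rw [h1, ha1, zero_mul]
        · by_cases h2 : q = q2
          · rw [h2, ha2, zero_mul]
          · rw [hFQ q (Finset.mem_erase.2 ⟨h2, Finset.mem_erase.2 ⟨h1, hq⟩⟩), mul_zero]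

end Pool.Agent.TH144.MB
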