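import Pool.Agent.TH144.MB.Eig

/-!
# Separation of points by semi-invariant forms
-/

set_option autoImplicit false

namespace Pool.Agent.TH144.MB

open MvPolynomial Module

section
variable {G : Type} [Group G] {n : ℕ}

/-- forms of degree `t` on which `G` acts by the character `χ` -/
def Typ (α : Fin n → G →* ℂˣ) (χ : G →* ℂˣ) (t : ℕ) (F : MvPolynomial (Fin n) ℂ) : Prop :=
  F.IsHomogeneous t ∧ ∀ (g : G) (x : Fin n → ℂ), eval (mv α g x) F = χ g * eval x F

theorem Typ.sub {α : Fin n → G →* ℂˣ} {χ : G →* ℂˣ} {t : ℕ} {F F' : MvPolynomial (Fin n) ℂ}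
    (h : Typ α χ t F) (h' : Typ α χ t F') : Typ α χ t (F - F') :=
  ⟨h.1.sub h'.1, fun g x => by rw [map_sub, map_sub, h.2, h'.2, mul_sub]⟩

theorem Typ.C_mul {α : Fin n → G →* ℂˣ} {χ : G →* ℂˣ} {t : ℕ} {F : MvPolynomial (Fin n) ℂ}
    (h : Typ α χ t F) (c : ℂ) : Typ α χ t (C c * F) :=
  ⟨h.1.C_mul c, fun g x => by rw [map_mul, map_mul, h.2, eval_C, eval_C]; ring⟩

theorem Typ.X_mul {α : Fin n → G →* ℂˣ} {χ : G →* ℂˣ} {t : ℕ} {F : MvPolynomial (Fin n) ℂ}
    {i : Fin n} (h : Typ α (χ * (α i)⁻¹) t F) : Typ α χ (t + 1) (X i * F) := by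
  refine ⟨?_, fun g x => ?_⟩
  · have := (isHomogeneous_X ℂ i).mul h.1
    rwa [add_comm] at this
  · rw [map_mul, map_mul, h.2, eval_X, eval_X, mv, MonoidHom.mul_apply, MonoidHom.inv_apply,
      Units.val_mul]
    have h6 : (((α i g)⁻¹ : ℂˣ) : ℂ) * (α i g : ℂ) = 1 := Units.inv_mul _
    linear_combination ((χ g : ℂ) * (x i * eval x F)) * h6

theorem eval_mono (m : Fin n →₀ ℕ) (x : Fin n → ℂ) : eval x (monomial m (1 : ℂ)) = mon m x := by
  rw [eval_monomial, Finsupp.prod_fintype _ _ (fun i => pow_zero _), one_mul]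
  rfl

theorem typ_monomial {α : Fin n → G →* ℂˣ} {χ : G →* ℂˣ} {m : Fin n →₀ ℕ} (h : chr α m = χ) :
    Typ α χ m.degree (monomial m 1) :=
  ⟨isHomogeneous_monomial _ rfl, fun g x => by rw [eval_mono, eval_mono, mon_mv, h]⟩

theorem Sit.exists_mono [Fintype G] (S : Sit ℂ G n) {ρ : ℕ} (hρ : TopBound S.I ρ)
    {y : Fin n → ℂ} (hy0 : y ≠ 0) (hy : ∀ p ∈ S.I, eval y p = 0) (χ : G →* ℂˣ) {t : ℕ}
    (ht : ρ ≤ t) : ∃ m : Fin n →₀ ℕ, m.degree = t ∧ chr S.α m = χ ∧ mon m y ≠ 0 := by
  obtain ⟨m, h1, h2, h3⟩ := S.exists_monomial hρ hy0 hy χ ht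
  exact ⟨m, h1, MonoidHom.ext fun g => by rw [chr_apply, h2], h3⟩

/-- the `χ`-component of a form -/
theorem exists_typ [Fintype G] (α : Fin n → G →* ℂˣ) (χ : G →* ℂˣ) {t : ℕ}
    {p : MvPolynomial (Fin n) ℂ} (hp : p.IsHomogeneous t) :
    ∃ F, Typ α χ t F ∧ ∀ v, Lam α χ v p = Fintype.card G * eval v F := by
  classical
  refine ⟨∑ m ∈ p.support, if chr α m = χ then monomial m (coeff m p) else 0, ⟨?_, ?_⟩, ?_⟩
  · refine IsHomogeneous.sum _ _ _ fun m hm => ?_
    split_ifs
    · refine isHomogeneous_monomial _ ?_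
      by_contra h
      exact (MvPolynomial.mem_support_iff.1 hm) (hp.coeff_eq_zero h)
    · exact isHomogeneous_zero _ _ _
  · intro g x
    rw [map_sum, map_sum, Finset.mul_sum]
    refine Finset.sum_congr rfl fun m _ => ?_
    split_ifs with h
    · rw [eval_monomial, eval_monomial, Finsupp.prod_fintype _ _ (fun i => pow_zero _),
        Finsupp.prod_fintype _ _ (fun i => pow_zero _)]
      have := mon_mv α m g x
      rw [h] at this
      unfold mon at this
      rw [this]
      ring
    · simp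
  · intro v
    rw [Lam_eq, map_sum, Finset.mul_sum]
    refine Finset.sum_congr rfl fun m _ => ?_
    split_ifs with h
    · rw [eval_monomial, Finsupp.prod_fintype _ _ (fun i => pow_zero _)]
      rfl
    · simp

variable [Fintype G]

/-- If `t ≥ |G|` then either some form of degree `t` vanishes on the orbit of `y'`
and on the orbit of `y`, except `y`, or many of these points are on a line through `y`. -/
theorem orbit_form {α : Fin n → G →* ℂˣ} {y y' : Fin n → ℂ} (hy0 : y ≠ 0) (hy : Fr α y)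
    (hne : ∀ g, mv α g y' ∉ Submodule.span ℂ {y}) {t : ℕ} (ht : Fintype.card G ≤ t) :
    (∃ F : MvPolynomial (Fin n) ℂ, F.IsHomogeneous t ∧
      ∀ χ : G →* ℂˣ, Lam α χ y F ≠ 0 ∧ Lam α χ y' F = 0) ∨
    ∃ q : Fin n → ℂ, q ∉ Submodule.span ℂ {y} ∧ ∃ A B : Finset G,
      (∀ g, g ∈ A ↔ mv α g y ∈ Submodule.span ℂ {y, q}) ∧
      (∀ g, g ∈ B ↔ mv α g y' ∈ Submodule.span ℂ {y, q}) ∧ t + 2 ≤ A.card + B.card := by
  classical
  set Q : Finset (Fin n → ℂ) := ((Finset.univ.erase (1 : G)).image fun g => mv α g y) ∪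
    (Finset.univ.image fun g : G => mv α g y') with hQ
  have hQy : ∀ q ∈ Q, q ∉ Submodule.span ℂ {y} := by
    intro q hq
    rw [hQ, Finset.mem_union, Finset.mem_image, Finset.mem_image] at hq
    rcases hq with ⟨g, hg, rfl⟩ | ⟨g, _, rfl⟩
    · have h1 := hy.notMem (g := 1) (g' := g) (Finset.ne_of_mem_erase hg).symm
      rwa [mv_one] at h1
    · exact hne g
  have hr := Fintype.card_pos (α := G)
  have hcard : Q.card ≤ 2 * t := by
    refine (Finset.card_union_le _ _).trans ?_
    have h1 := Finset.card_image_le (s := Finset.univ.erase (1 : G)) (f := fun g => mv α g y)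
    have h2 := Finset.card_image_le (s := (Finset.univ : Finset G)) (f := fun g => mv α g y')
    rw [Finset.card_erase_of_mem (Finset.mem_univ _), Finset.card_univ] at h1
    rw [Finset.card_univ] at h2
    omega
  by_cases hR : ∀ q ∈ Q, ∀ R : Finset (Fin n → ℂ), R ⊆ Q →
      (∀ q' ∈ R, q' ∈ Submodule.span ℂ {y, q}) → R.card ≤ t
  · left
    obtain ⟨F, hF, hFy, hFQ⟩ := exists_form hy0 t Q hQy hcard hR
    refine ⟨F, hF, fun χ => ⟨?_, ?_⟩⟩
    · unfold Lam
      rw [Finset.sum_eq_single (1 : G)]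
      · rw [mv_one, map_one, inv_one, Units.val_one, one_mul]
        exact hFy
      · intro g _ hg
        rw [hFQ, mul_zero]
        rw [hQ]
        exact Finset.mem_union_left _ (Finset.mem_image_of_mem _
          (Finset.mem_erase.2 ⟨hg, Finset.mem_univ _⟩))
      · intro h; exact absurd (Finset.mem_univ _) h
    · unfold Lam
      refine Finset.sum_eq_zero fun g _ => ?_
      rw [hFQ, mul_zero]
      rw [hQ]
      exact Finset.mem_union_right _ (Finset.mem_image_of_mem _ (Finset.mem_univ _))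
  · right
    push Not at hR
    obtain ⟨q, hq, R, hRQ, hRq, hRt⟩ := hR
    refine ⟨q, hQy q hq, Finset.univ.filter fun g => mv α g y ∈ Submodule.span ℂ {y, q},
      Finset.univ.filter fun g => mv α g y' ∈ Submodule.span ℂ {y, q}, by simp, by simp, ?_⟩
    set A := Finset.univ.filter fun g => mv α g y ∈ Submodule.span ℂ {y, q} with hA
    set B := Finset.univ.filter fun g => mv α g y' ∈ Submodule.span ℂ {y, q} with hB
    have h1 : R ⊆ ((A.erase 1).image fun g => mv α g y) ∪ (B.image fun g : G => mv α g y') := by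
      intro x hx
      have h2 := hRQ hx
      have h3 := hRq x hx
      rw [hQ, Finset.mem_union, Finset.mem_image, Finset.mem_image] at h2
      rcases h2 with ⟨g, hg, rfl⟩ | ⟨g, _, rfl⟩
      · exact Finset.mem_union_left _ (Finset.mem_image_of_mem _
          (Finset.mem_erase.2 ⟨Finset.ne_of_mem_erase hg, by rw [hA]; simpa using h3⟩))
      · exact Finset.mem_union_right _ (Finset.mem_image_of_mem _ (by rw [hB]; simpa using h3))
    have h2 := (Finset.card_le_card h1).trans (Finset.card_union_le _ _)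
    have h3 := Finset.card_image_le (s := A.erase 1) (f := fun g => mv α g y)
    have h4 := Finset.card_image_le (s := B) (f := fun g => mv α g y')
    have h5 : (1 : G) ∈ A := by
      rw [hA, Finset.mem_filter, mv_one]
      exact ⟨Finset.mem_univ _, Submodule.subset_span (by simp)⟩
    have h6 := Finset.card_pos.2 ⟨_, h5⟩
    rw [Finset.card_erase_of_mem h5] at h3
    omega

namespace Sit

variable (S : Sit ℂ G n)

omit [Fintype G] in
theorem fr {y : Fin n → ℂ} (hy0 : y ≠ 0) (hy : ∀ p ∈ S.I, eval y p = 0) : Fr S.α y :=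
  S.free y hy0 hy

/-- the plane spanned by `y` and an eigenvector -/
theorem plane {y y' q : Fin n → ℂ} (hy0 : y ≠ 0) (hy : ∀ p ∈ S.I, eval y p = 0)
    (hs : ∀ i, y' i = 0 ↔ y i = 0) {A B : Finset G}
    (hA : ∀ g ∈ A, mv S.α g y ∈ Submodule.span ℂ {y, q})
    (hB : ∀ g ∈ B, mv S.α g y' ∈ Submodule.span ℂ {y, q})
    (hc : Fintype.card G + 2 ≤ A.card + B.card) :
    ∃ (g : G) (c : ℂ) (y1 : Fin n → ℂ), y1 = (fun i => if (S.α i g : ℂ) = c then y i else 0) ∧
      y1 ≠ 0 ∧ (∃ p ∈ S.I, eval y1 p ≠ 0) ∧ y ∉ Submodule.span ℂ {y1} ∧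
      Submodule.span ℂ {y, q} = Submodule.span ℂ {y, y1} := by
  obtain ⟨g, c, hg, h1, h2⟩ := exists_eig hy0 (S.fr hy0 hy) hs hA hB hc
  set y1 : Fin n → ℂ := fun i => if (S.α i g : ℂ) = c then y i else 0 with hy1
  have h3 : ∃ p ∈ S.I, eval y1 p ≠ 0 := by
    by_contra hcon
    push Not at hcon
    refine hg (S.free y1 h2 hcon g c fun i => ?_)
    simp only [hy1]
    split_ifs with h
    · rw [h]
    · rw [mul_zero, mul_zero]
  have h4 : y ∉ Submodule.span ℂ {y1} := by
    intro h
    obtain ⟨d, hd⟩ := Submodule.mem_span_singleton.1 h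
    have hd0 : d ≠ 0 := by
      rintro rfl
      rw [zero_smul] at hd
      exact hy0 hd.symm
    obtain ⟨p, hp, hp1⟩ := h3
    apply hp1
    have h5 := cone S.hom hy d⁻¹ p hp
    have h6 : (fun i => d⁻¹ * y i) = y1 := by
      funext i
      rw [← congrFun hd i, Pi.smul_apply, smul_eq_mul, ← mul_assoc, inv_mul_cancel₀ hd0, one_mul]
    rwa [h6] at h5
  refine ⟨g, c, y1, rfl, h2, h3, h4, (span_pair_eq h1 ?_).symm⟩
  intro h
  obtain ⟨d, hd⟩ := Submodule.mem_span_singleton.1 h
  have hd0 : d ≠ 0 := by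
    rintro rfl
    rw [zero_smul] at hd
    exact h2 hd.symm
  exact h4 (Submodule.mem_span_singleton.2 ⟨d⁻¹, by rw [← hd, smul_smul, inv_mul_cancel₀ hd0,
    one_smul]⟩)

theorem points {ρ : ℕ} (hρ : TopBound S.I ρ) {y y' : Fin n → ℂ} (hy0 : y ≠ 0)
    (hy : ∀ p ∈ S.I, eval y p = 0) (hy'0 : y' ≠ 0) (hy' : ∀ p ∈ S.I, eval y' p = 0)
    (hne : ∀ g, mv S.α g y' ∉ Submodule.span ℂ {y}) (χ : G →* ℂˣ) {t : ℕ} (ht : ρ + 1 ≤ t)
    (hr : Fintype.card G ≤ t) : ∃ F, Typ S.α χ t F ∧ eval y F ≠ 0 ∧ eval y' F = 0 := by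
  classical
  by_cases h1 : ∃ i, y i ≠ 0 ∧ y' i = 0
  · obtain ⟨i, hi, hi'⟩ := h1
    obtain ⟨m, hm, hmc, hmy⟩ := S.exists_mono hρ hy0 hy (χ * (S.α i)⁻¹) (t := t - 1) (by omega)
    have h2 := (typ_monomial hmc).X_mul
    rw [hm, Nat.sub_add_cancel (by omega)] at h2
    refine ⟨_, h2, ?_, ?_⟩
    · rw [map_mul, eval_X, eval_mono]
      exact mul_ne_zero hi hmy
    · rw [map_mul, eval_X, hi', zero_mul]
  · by_cases h2 : ∃ i, y i = 0 ∧ y' i ≠ 0
    · obtain ⟨i, hi, hi'⟩ := h2
      obtain ⟨m, hm, hmc, hmy⟩ := S.exists_mono hρ hy'0 hy' (χ * (S.α i)⁻¹) (t := t - 1) (by omega)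
      have h2 := (typ_monomial hmc).X_mul
      rw [hm, Nat.sub_add_cancel (by omega)] at h2
      obtain ⟨m', hm', hmc', hmy'⟩ := S.exists_mono hρ hy0 hy χ (t := t) (by omega)
      have h3 := typ_monomial hmc'
      rw [hm'] at h3
      have h4 : eval y' (X i * monomial m (1 : ℂ)) ≠ 0 := by
        rw [map_mul, eval_X, eval_mono]
        exact mul_ne_zero hi' hmy
      refine ⟨monomial m' 1 - C (eval y' (monomial m' (1 : ℂ))
        / eval y' (X i * monomial m (1 : ℂ))) * (X i * monomial m 1), h3.sub (h2.C_mul _), ?_, ?_⟩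
      · rw [map_sub, map_mul, map_mul (eval y) (X i), eval_X, hi, zero_mul, mul_zero, sub_zero,
          eval_mono]
        exact hmy'
      · rw [map_sub, map_mul (eval y') (C _), eval_C, div_mul_cancel₀ _ h4, sub_self]
    · have hs : ∀ i, y' i = 0 ↔ y i = 0 := by
        push Not at h1 h2
        intro i
        constructor
        · intro h
          by_contra h3
          exact h1 i h3 h
        · intro h
          exact h2 i h
      rcases orbit_form hy0 (S.fr hy0 hy) hne hr with ⟨F, hF, hL⟩ | ⟨q, hq, A, B, hA, hB, hAB⟩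
      · obtain ⟨F', hF', hFL⟩ := exists_typ S.α χ hF
        have hG : (Fintype.card G : ℂ) ≠ 0 := Nat.cast_ne_zero.2 Fintype.card_ne_zero
        refine ⟨F', hF', ?_, ?_⟩
        · intro h
          apply (hL χ).1
          rw [hFL, h, mul_zero]
        · have h3 := (hL χ).2
          rw [hFL] at h3
          rcases mul_eq_zero.1 h3 with h | h
          · exact absurd h hG
          · exact h
      · exfalso
        obtain ⟨g, c, y1, hy1, hy10, hy1V, hyy1, hspan⟩ := S.plane hy0 hy hs
          (fun g hg => (hA g).1 hg) (fun g hg => (hB g).1 hg) (by omega)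
        have hF := S.fr hy0 hy
        have hF' : Fr S.α y' := hF.supp hs
        -- proportionality of the two orbits
        have hx : ∀ g g' : G, mv S.α g' y' ∉ Submodule.span ℂ {mv S.α g y} := by
          intro g g' h
          obtain ⟨d, hd⟩ := Submodule.mem_span_singleton.1 h
          refine hne (g⁻¹ * g') (Submodule.mem_span_singleton.2 ⟨d, ?_⟩)
          rw [← mv_mv, ← hd, mv_smul, mv_mv, inv_mul_cancel, mv_one]
        have hx' : ∀ g g' : G, mv S.α g' y ∉ Submodule.span ℂ {mv S.α g y'} := by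
          intro g g' h
          obtain ⟨d, hd⟩ := Submodule.mem_span_singleton.1 h
          have hd0 : d ≠ 0 := by
            rintro rfl
            rw [zero_smul] at hd
            apply hy0
            funext i
            exact (mv_supp S.α g' y i).1 (congrFun hd i).symm
          refine hx g' g (Submodule.mem_span_singleton.2 ⟨d⁻¹, ?_⟩)
          rw [← hd, smul_smul, inv_mul_cancel₀ hd0, one_smul]
        have h3 := line_bound (e := 1) S.hom hρ (y0 := y) (b0 := y1) hy10 hy1V hyy1
          (ι := A ⊕ B) (Sum.elim (fun g => mv S.α g y) fun g => mv S.α g y') (by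
            rintro (g | g)
            · rw [← hspan]
              exact (hA g).1 g.2
            · rw [← hspan]
              exact (hB g).1 g.2) (by
            rintro (g | g) h
            · exact hy0 (funext fun i => (mv_supp S.α _ y i).1 (congrFun h i))
            · exact hy'0 (funext fun i => (mv_supp S.α _ y' i).1 (congrFun h i))) (by
            rintro (g | g)
            · exact S.stable y hy g
            · exact S.stable y' hy' g) (by
            rintro (g | g) (g' | g') hgg
            · exact hF.notMem fun h => hgg (by rw [Subtype.ext h])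
            · exact hx _ _
            · exact hx' _ _
            · exact hF'.notMem fun h => hgg (by rw [Subtype.ext h])) (Or.inl rfl)
        rw [Fintype.card_sum, Fintype.card_coe, Fintype.card_coe] at h3
        omega

end Sit

end

end Pool.Agent.TH144.MB
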