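import Pool.Agent.TH144.MB.Sep

/-!
# Separation of tangent vectors by semi-invariant forms
-/

set_option autoImplicit false

namespace Pool.Agent.TH144.MB

open MvPolynomial Module

section
variable {n : ℕ}

theorem dv_sub (p q : MvPolynomial (Fin n) ℂ) (v w : Fin n → ℂ) :
    dv (p - q) v w = dv p v w - dv q v w := by
  simp only [dv, map_sub, sub_mul, Finset.sum_sub_distrib]

theorem dv_C_mul (c : ℂ) (p : MvPolynomial (Fin n) ℂ) (v w : Fin n → ℂ) :
    dv (C c * p) v w = c * dv p v w := by
  simp only [dv, pderiv_C_mul, map_mul, eval_C, Finset.mul_sum, mul_assoc]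

theorem dv_X_mul (i : Fin n) (p : MvPolynomial (Fin n) ℂ) (v w : Fin n → ℂ) :
    dv (X i * p) v w = eval v p * w i + v i * dv p v w := by
  classical
  simp only [dv, Derivation.leibniz, smul_eq_mul, map_add, map_mul, eval_X, add_mul,
    Finset.sum_add_distrib, pderiv_X]
  rw [add_comm]
  congr 1
  · rw [Finset.sum_eq_single i]
    · simp
    · intro j _ hj
      simp [Ne.symm hj]
    · intro h; exact absurd (Finset.mem_univ _) h
  · rw [Finset.mul_sum]
    exact Finset.sum_congr rfl fun j _ => by ring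

theorem dv_add_right (p : MvPolynomial (Fin n) ℂ) (v w w' : Fin n → ℂ) :
    dv p v (w + w') = dv p v w + dv p v w' := by
  simp only [dv, Pi.add_apply, mul_add, Finset.sum_add_distrib]

theorem dv_smul_right (p : MvPolynomial (Fin n) ℂ) (v w : Fin n → ℂ) (c : ℂ) :
    dv p v (c • w) = c * dv p v w := by
  simp only [dv, Pi.smul_apply, smul_eq_mul, Finset.mul_sum]
  exact Finset.sum_congr rfl fun j _ => by ring

theorem dv_monomial (m : Fin n →₀ ℕ) (y ξ : Fin n → ℂ) :
    dv (monomial m 1) y (fun i => ξ i * y i) = (∑ i, m i * ξ i) * mon m y := by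
  unfold dv
  rw [Finset.sum_mul]
  refine Finset.sum_congr rfl fun i _ => ?_
  have h1 := congrArg (eval y) (X_mul_pderiv_monomial (i := i) (m := m) (r := (1 : ℂ)))
  rw [map_mul, eval_X, map_nsmul, eval_mono, nsmul_eq_mul] at h1
  linear_combination ξ i * h1

/-- Euler's identity -/
theorem dv_self {I : Ideal (MvPolynomial (Fin n) ℂ)} (hI : Hom I) {v : Fin n → ℂ}
    (hv : ∀ p ∈ I, eval v p = 0) : ∀ p ∈ I, dv p v v = 0 := by
  intro p hp
  have h1 : ∀ m, dv (homogeneousComponent m p) v v = 0 := by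
    intro m
    have h2 := congrArg (eval v) (homogeneousComponent_isHomogeneous m p).sum_X_mul_pderiv
    rw [map_sum, map_nsmul, hv _ (hI p hp m), smul_zero] at h2
    rw [dv, ← h2]
    exact Finset.sum_congr rfl fun i _ => by rw [map_mul, eval_X, mul_comm]
  have h2 : dv p v v = ∑ m ∈ Finset.range (p.totalDegree + 1), dv (homogeneousComponent m p) v v := by
    conv_lhs => rw [← sum_homogeneousComponent p]
    simp only [dv, map_sum, Finset.sum_mul]
    rw [Finset.sum_comm]
  rw [h2]
  exact Finset.sum_eq_zero fun m _ => h1 m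

variable {G : Type} [Group G]

/-- the form `x ↦ p (g x)` -/
noncomputable def act (α : Fin n → G →* ℂˣ) (g : G) :
    MvPolynomial (Fin n) ℂ →ₐ[ℂ] MvPolynomial (Fin n) ℂ := bind₁ fun i => C (α i g : ℂ) * X i

theorem eval_act (α : Fin n → G →* ℂˣ) (g : G) (p : MvPolynomial (Fin n) ℂ) (x : Fin n → ℂ) :
    eval x (act α g p) = eval (mv α g x) p := by
  induction p using MvPolynomial.induction_on with
  | C c => simp [act]
  | add p q hp hq => rw [map_add, map_add, map_add, hp, hq]
  | mul_X p j hp =>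
    rw [map_mul, map_mul, map_mul, hp, eval_X]
    congr 1
    simp [act, mv]

theorem pderiv_act (α : Fin n → G →* ℂˣ) (g : G) (p : MvPolynomial (Fin n) ℂ) (i : Fin n) :
    pderiv i (act α g p) = C (α i g : ℂ) * act α g (pderiv i p) := by
  classical
  induction p using MvPolynomial.induction_on with
  | C c => simp [act]
  | add p q hp hq => rw [map_add, map_add, map_add, map_add, hp, hq, mul_add]
  | mul_X p j hp =>
    have h1 : act α g (X j) = C (α j g : ℂ) * X j := by simp [act]
    have h2 : pderiv i (act α g (p * X j)) = pderiv i (act α g p) * (C (α j g : ℂ) * X j)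
        + act α g p * (C (α j g : ℂ) * pderiv i (X j)) := by
      rw [map_mul, h1, pderiv_mul, pderiv_C_mul]
    have h3 : act α g (pderiv i (p * X j)) = act α g (pderiv i p) * (C (α j g : ℂ) * X j)
        + act α g p * act α g (pderiv i (X j)) := by
      rw [pderiv_mul, map_add, map_mul, map_mul, h1]
    rw [h2, h3, hp, pderiv_X]
    by_cases hij : j = i
    · subst hij
      rw [Pi.single_eq_same, map_one]
      ring
    · rw [Pi.single_eq_of_ne hij, map_zero]
      ring

theorem dv_act (α : Fin n → G →* ℂˣ) (g : G) (p : MvPolynomial (Fin n) ℂ) (v w : Fin n → ℂ) :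
    dv (act α g p) v w = dv p (mv α g v) (mv α g w) := by
  unfold dv
  refine Finset.sum_congr rfl fun i _ => ?_
  rw [pderiv_act, map_mul, eval_C, eval_act]
  simp only [mv]
  ring

/-- a small deformation along `ξ` moves a point out of its orbit -/
theorem exists_small [Finite G] (α : Fin n → G →* ℂˣ) (ξ : Fin n → ℂ) :
    ∃ s : ℂ, ∀ (i k : Fin n) (g : G), Complex.exp (s * ξ i) * (α i g : ℂ)
      = Complex.exp (s * ξ k) * (α k g : ℂ) → ξ i = ξ k := by
  classical
  have := Fintype.ofFinite G
  set r := Fintype.card G with hr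
  have hr0 : 0 < r := Fintype.card_pos
  set M : ℝ := ∑ i, ‖ξ i‖ with hM
  have hM0 : 0 ≤ M := Finset.sum_nonneg fun i _ => norm_nonneg _
  have hMi : ∀ i, ‖ξ i‖ ≤ M := fun i =>
    Finset.single_le_sum (f := fun i => ‖ξ i‖) (fun _ _ => norm_nonneg _) (Finset.mem_univ i)
  have hden : (0 : ℝ) < r * (2 * M + 1) := by positivity
  refine ⟨((1 / (r * (2 * M + 1)) : ℝ) : ℂ), fun i k g h => ?_⟩
  set s : ℂ := ((1 / (r * (2 * M + 1)) : ℝ) : ℂ) with hs
  have hpow : ∀ i, (α i g : ℂ) ^ r = 1 := by
    intro i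
    rw [← Units.val_pow_eq_pow_val, ← map_pow, hr, pow_card_eq_one, map_one, Units.val_one]
  have h1 := congrArg (fun z : ℂ => z ^ r) h
  simp only [mul_pow, hpow, mul_one, ← Complex.exp_nat_mul] at h1
  rw [Complex.exp_eq_exp_iff_exists_int] at h1
  obtain ⟨N, hN⟩ := h1
  have h2 : (r : ℂ) * s * (ξ i - ξ k) = N * (2 * Real.pi * Complex.I) := by
    linear_combination hN
  have h3 : ‖(r : ℂ) * s * (ξ i - ξ k)‖ < 1 := by
    have h4 : (r : ℂ) * s = ((1 / (2 * M + 1) : ℝ) : ℂ) := by
      rw [hs, ← Complex.ofReal_natCast, ← Complex.ofReal_mul]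
      congr 1
      field_simp
    have h7 : 0 < 2 * M + 1 := by positivity
    rw [h4, norm_mul, Complex.norm_real, Real.norm_of_nonneg (by positivity)]
    have h5 : ‖ξ i - ξ k‖ ≤ 2 * M := by
      refine (norm_sub_le _ _).trans ?_
      linarith [hMi i, hMi k]
    rw [div_mul_eq_mul_div, one_mul, div_lt_one h7]
    linarith
  have hN0 : N = 0 := by
    by_contra hN0
    rw [h2, norm_mul, norm_mul, norm_mul, Complex.norm_I, mul_one, Complex.norm_intCast] at h3
    have h4 : (1 : ℝ) ≤ |(N : ℝ)| := by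
      exact_mod_cast Int.one_le_abs hN0
    have h5 : ‖(2 : ℂ)‖ = 2 := by norm_num
    have h6 : ‖(Real.pi : ℂ)‖ = Real.pi := by
      rw [Complex.norm_real, Real.norm_of_nonneg Real.pi_pos.le]
    rw [h5, h6] at h3
    have h7 := Real.pi_gt_three
    nlinarith
  rw [hN0, Int.cast_zero, zero_mul] at h2
  have hs0 : (r : ℂ) * s ≠ 0 := by
    refine mul_ne_zero (Nat.cast_ne_zero.2 hr0.ne') ?_
    rw [hs, Complex.ofReal_ne_zero]
    positivity
  rcases mul_eq_zero.1 h2 with h3 | h3
  · exact absurd h3 hs0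
  · exact sub_eq_zero.1 h3

end

namespace Sit

variable {G : Type} [Group G] [Fintype G] {n : ℕ} (S : Sit ℂ G n)

theorem tangents (hst : ∀ g, ∀ p ∈ S.I, act S.α g p ∈ S.I) {ρ : ℕ} (hρ : TopBound S.I ρ)
    {y u : Fin n → ℂ} (hy0 : y ≠ 0) (hy : ∀ p ∈ S.I, eval y p = 0)
    (hu : ∀ p ∈ S.I, dv p y u = 0) (hne : u ∉ Submodule.span ℂ {y}) (χ : G →* ℂˣ) {t : ℕ}
    (ht : ρ + 1 ≤ t) (hr : Fintype.card G ≤ t) :
    ∃ F, Typ S.α χ t F ∧ eval y F = 0 ∧ dv F y u ≠ 0 := by
  classical
  by_contra hcon
  push Not at hcon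
  have h1 : ∀ i, y i = 0 → u i = 0 := by
    intro i hi
    obtain ⟨m, hm, hmc, hmy⟩ := S.exists_mono hρ hy0 hy (χ * (S.α i)⁻¹) (t := t - 1) (by omega)
    have h2 := (typ_monomial hmc).X_mul
    rw [hm, Nat.sub_add_cancel (by omega)] at h2
    have h3 := hcon _ h2 (by rw [map_mul, eval_X, hi, zero_mul])
    rw [dv_X_mul, hi, zero_mul, add_zero, eval_mono] at h3
    rcases mul_eq_zero.1 h3 with h | h
    · exact absurd h hmy
    · exact h
  obtain ⟨ξ, hξ⟩ : ∃ ξ : Fin n → ℂ, u = fun i => ξ i * y i := by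
    refine ⟨fun i => u i / y i, funext fun i => ?_⟩
    by_cases hi : y i = 0
    · rw [h1 i hi, hi, mul_zero]
    · rw [div_mul_cancel₀ _ hi]
  obtain ⟨i0, hi0⟩ : ∃ i, y i ≠ 0 := by
    by_contra hc
    push Not at hc
    exact hy0 (funext hc)
  obtain ⟨m0, hm0, hmc0, hmy0⟩ := S.exists_mono hρ hy0 hy χ (t := t) (by omega)
  set lam : ℂ := ∑ i, m0 i * ξ i with hlam
  have h3 : ∀ m : Fin n →₀ ℕ, m.degree = t → chr S.α m = χ → mon m y ≠ 0 →
      ∑ i, (m i : ℂ) * ξ i = lam := by
    intro m hm hmc hmy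
    have h4 := typ_monomial hmc
    rw [hm] at h4
    have h5 := typ_monomial hmc0
    rw [hm0] at h5
    have h6 := hcon _ ((h4.C_mul (mon m0 y)).sub (h5.C_mul (mon m y))) (by
      rw [map_sub, map_mul, map_mul, eval_C, eval_C, eval_mono, eval_mono]; ring)
    rw [dv_sub, dv_C_mul, dv_C_mul, hξ, dv_monomial, dv_monomial] at h6
    have h7 : (∑ i, (m i : ℂ) * ξ i - lam) * (mon m y * mon m0 y) = 0 := by
      linear_combination h6
    rcases mul_eq_zero.1 h7 with h | h
    · exact sub_eq_zero.1 h
    · exact absurd h (mul_ne_zero hmy hmy0)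
  obtain ⟨s, hs⟩ := exists_small S.α ξ
  set y' : Fin n → ℂ := fun i => Complex.exp (s * ξ i) * y i with hy'
  have hsupp : ∀ i, y' i = 0 ↔ y i = 0 := by
    intro i
    simp [hy', Complex.exp_ne_zero]
  have h4 : ∀ m : Fin n →₀ ℕ, m.degree = t → chr S.α m = χ →
      mon m y' = Complex.exp (s * lam) * mon m y := by
    intro m hm hmc
    have h5 : mon m y' = Complex.exp (s * ∑ i, (m i : ℂ) * ξ i) * mon m y := by
      unfold mon
      simp only [hy', mul_pow, Finset.prod_mul_distrib]
      congr 1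
      rw [Finset.mul_sum, Complex.exp_sum]
      refine Finset.prod_congr rfl fun i _ => ?_
      rw [← Complex.exp_nat_mul]
      congr 1
      ring
    by_cases hmy : mon m y = 0
    · rw [h5, hmy, mul_zero, mul_zero]
    · rw [h5, h3 m hm hmc hmy]
  have h5 : ∀ F : MvPolynomial (Fin n) ℂ, F.IsHomogeneous t →
      Lam S.α χ y' F = Complex.exp (s * lam) * Lam S.α χ y F := by
    intro F hF
    rw [Lam_eq, Lam_eq, Finset.mul_sum]
    refine Finset.sum_congr rfl fun m hm => ?_
    split_ifs with h
    · rw [h4 m (by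
        by_contra h'
        exact (MvPolynomial.mem_support_iff.1 hm) (hF.coeff_eq_zero h')) h]
      ring
    · rw [mul_zero]
  have h6 : ∀ c, ¬ ∀ i, y i ≠ 0 → ξ i = c := by
    intro c hc
    apply hne
    refine Submodule.mem_span_singleton.2 ⟨c, ?_⟩
    rw [hξ]
    funext i
    by_cases hi : y i = 0
    · simp [hi]
    · simp [hc i hi]
  have hne' : ∀ g, mv S.α g y' ∉ Submodule.span ℂ {y} := by
    intro g h
    obtain ⟨c, hc⟩ := Submodule.mem_span_singleton.1 h
    have h7 : ∀ i, y i ≠ 0 → Complex.exp (s * ξ i) * (S.α i g : ℂ) = c := by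
      intro i hi
      have := congrFun hc i
      simp only [mv, hy', Pi.smul_apply, smul_eq_mul] at this
      refine mul_right_cancel₀ hi ?_
      linear_combination -this
    exact h6 (ξ i0) fun i hi => hs i i0 g (by rw [h7 i hi, h7 i0 hi0])
  rcases orbit_form hy0 (S.fr hy0 hy) hne' hr with ⟨F, hF, hL⟩ | ⟨q, hq, A, B, hA, hB, hAB⟩
  · have h7 := h5 F hF
    rw [(hL χ).2] at h7
    exact mul_ne_zero (Complex.exp_ne_zero _) (hL χ).1 h7.symm
  · obtain ⟨g, c, y1, hy1, hy10, hy1V, hyy1, hspan⟩ := S.plane hy0 hy hsupp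
      (fun g hg => (hA g).1 hg) (fun g hg => (hB g).1 hg) (by omega)
    rw [hspan] at hA hB
    have hv1 : ∀ i, (S.α i g : ℂ) = c → y1 i = y i := fun i h => by rw [hy1]; simp [h]
    have hv2 : ∀ i, (S.α i g : ℂ) ≠ c → y1 i = 0 := fun i h => by rw [hy1]; simp [h]
    obtain ⟨i1, hi1, hi1'⟩ : ∃ i, (S.α i g : ℂ) = c ∧ y i ≠ 0 := by
      by_contra h
      push Not at h
      apply hy10
      funext i
      by_cases h' : (S.α i g : ℂ) = c
      · rw [hv1 i h', h i h']; rfl
      · rw [hv2 i h']; rfl
    obtain ⟨i2, hi2, hi2'⟩ : ∃ i, (S.α i g : ℂ) ≠ c ∧ y i ≠ 0 := by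
      by_contra h
      push Not at h
      apply hyy1
      have : y = y1 := by
        funext i
        by_cases h' : (S.α i g : ℂ) = c
        · rw [hv1 i h']
        · rw [hv2 i h', h i h']
      rw [← this]
      exact Submodule.mem_span_singleton_self _
    have key : ∀ (w : Fin n → ℂ) (a b : ℂ), (∀ i, (S.α i g : ℂ) = c → w i = a * y i) →
        (∀ i, (S.α i g : ℂ) ≠ c → w i = b * y i) → w = b • y + (a - b) • y1 := by
      intro w a b ha hb
      funext i
      simp only [Pi.add_apply, Pi.smul_apply, smul_eq_mul]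
      by_cases h : (S.α i g : ℂ) = c
      · rw [hv1 i h, ha i h]; ring
      · rw [hv2 i h, hb i h]; ring
    have key' : ∀ w ∈ Submodule.span ℂ {y, y1}, ∃ a b : ℂ,
        (∀ i, (S.α i g : ℂ) = c → w i = a * y i) ∧ (∀ i, (S.α i g : ℂ) ≠ c → w i = b * y i) := by
      intro w hw
      obtain ⟨b, a, rfl⟩ := Submodule.mem_span_pair.1 hw
      refine ⟨b + a, b, fun i h => ?_, fun i h => ?_⟩
      · simp only [Pi.add_apply, Pi.smul_apply, smul_eq_mul, hv1 i h]; ring
      · simp only [Pi.add_apply, Pi.smul_apply, smul_eq_mul, hv2 i h]; ring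
    have hAc : A.card ≤ Fintype.card G := Finset.card_le_univ A
    obtain ⟨g0, hg0⟩ : B.Nonempty := by
      rw [← Finset.card_pos]
      omega
    obtain ⟨a0, b0, ha0, hb0⟩ := key' _ ((hB g0).1 hg0)
    have ha0' : ∀ i, (S.α i g : ℂ) = c → y i ≠ 0 → Complex.exp (s * ξ i) * (S.α i g0 : ℂ) = a0 := by
      intro i h hi
      have := ha0 i h
      simp only [mv, hy'] at this
      refine mul_right_cancel₀ hi ?_
      linear_combination this
    have hb0' : ∀ i, (S.α i g : ℂ) ≠ c → y i ≠ 0 → Complex.exp (s * ξ i) * (S.α i g0 : ℂ) = b0 := by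
      intro i h hi
      have := hb0 i h
      simp only [mv, hy'] at this
      refine mul_right_cancel₀ hi ?_
      linear_combination this
    have ha00 : a0 ≠ 0 := by
      rw [← ha0' i1 hi1 hi1']
      exact mul_ne_zero (Complex.exp_ne_zero _) (Units.ne_zero _)
    have hb00 : b0 ≠ 0 := by
      rw [← hb0' i2 hi2 hi2']
      exact mul_ne_zero (Complex.exp_ne_zero _) (Units.ne_zero _)
    have hξ1 : ∀ i, (S.α i g : ℂ) = c → y i ≠ 0 → ξ i = ξ i1 := fun i h hi =>
      hs i i1 g0 (by rw [ha0' i h hi, ha0' i1 hi1 hi1'])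
    have hξ2 : ∀ i, (S.α i g : ℂ) ≠ c → y i ≠ 0 → ξ i = ξ i2 := fun i h hi =>
      hs i i2 g0 (by rw [hb0' i h hi, hb0' i2 hi2 hi2'])
    have hξ12 : ξ i1 - ξ i2 ≠ 0 := by
      intro h
      refine h6 (ξ i2) fun i hi => ?_
      by_cases h' : (S.α i g : ℂ) = c
      · rw [hξ1 i h' hi, sub_eq_zero.1 h]
      · exact hξ2 i h' hi
    have hu1 := key u (ξ i1) (ξ i2) (by
      intro i h
      rw [hξ]
      by_cases hi : y i = 0
      · simp [hi]
      · simp only [hξ1 i h hi]) (by
      intro i h
      rw [hξ]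
      by_cases hi : y i = 0
      · simp [hi]
      · simp only [hξ2 i h hi])
    have htan : ∀ p ∈ S.I, dv p y y1 = 0 := by
      intro p hp
      have h7 := hu p hp
      rw [hu1, dv_add_right, dv_smul_right, dv_smul_right, dv_self S.hom hy p hp, mul_zero,
        zero_add] at h7
      rcases mul_eq_zero.1 h7 with h | h
      · exact absurd h hξ12
      · exact h
    have hBA : B.card ≤ A.card := by
      refine Finset.card_le_card_of_injOn (fun g' => g' * g0⁻¹) ?_ ?_
      · intro g' hg'
        obtain ⟨a', b', ha', hb'⟩ := key' _ ((hB g').1 hg')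
        refine (hA _).2 ?_
        rw [key (mv S.α (g' * g0⁻¹) y) (a' / a0) (b' / b0)]
        · exact Submodule.mem_span_pair.2 ⟨_, _, rfl⟩
        · intro i h
          by_cases hi : y i = 0
          · simp [mv, hi]
          · have h7 := ha0' i h hi
            have h8 := ha' i h
            simp only [mv, hy'] at h8
            have h9 : Complex.exp (s * ξ i) * (S.α i g' : ℂ) = a' := by
              refine mul_right_cancel₀ hi ?_
              linear_combination h8
            simp only [mv, map_mul, map_inv, Units.val_mul, Units.val_inv_eq_inv_val]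
            rw [← h7, ← h9]
            have := Complex.exp_ne_zero (s * ξ i)
            have := Units.ne_zero (S.α i g0)
            field_simp
        · intro i h
          by_cases hi : y i = 0
          · simp [mv, hi]
          · have h7 := hb0' i h hi
            have h8 := hb' i h
            simp only [mv, hy'] at h8
            have h9 : Complex.exp (s * ξ i) * (S.α i g' : ℂ) = b' := by
              refine mul_right_cancel₀ hi ?_
              linear_combination h8
            simp only [mv, map_mul, map_inv, Units.val_mul, Units.val_inv_eq_inv_val]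
            rw [← h7, ← h9]
            have := Complex.exp_ne_zero (s * ξ i)
            have := Units.ne_zero (S.α i g0)
            field_simp
      · intro x _ x' _ h
        exact mul_right_cancel h
    have h7 := line_bound (e := 2) S.hom hρ (y0 := y) (b0 := y1) hy10 hy1V hyy1
      (ι := A) (fun g' => mv S.α g' y) (fun g' => (hA g').1 g'.2)
      (fun g' h => hy0 (funext fun i => (mv_supp S.α _ y i).1 (congrFun h i)))
      (fun g' => S.stable y hy g')
      (fun g' g'' hgg => (S.fr hy0 hy).notMem fun h => hgg (Subtype.ext h))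
      (Or.inr ⟨rfl, by
        intro g' p hp
        obtain ⟨a', b', ha', hb'⟩ := key' _ ((hA g').1 g'.2)
        have h8 : (S.α i1 g' : ℂ) = a' := mul_right_cancel₀ hi1' (ha' i1 hi1)
        have h9 : mv S.α (g' : G) y1 = a' • y1 := by
          funext i
          simp only [mv, Pi.smul_apply, smul_eq_mul]
          by_cases h : (S.α i g : ℂ) = c
          · rw [hv1 i h]
            exact ha' i h
          · rw [hv2 i h, mul_zero, mul_zero]
        have h10 := htan _ (hst g' p hp)
        rw [dv_act, h9, dv_smul_right] at h10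
        rcases mul_eq_zero.1 h10 with h | h
        · rw [← h8] at h
          exact absurd h (Units.ne_zero _)
        · exact h⟩)
    rw [Fintype.card_coe] at h7
    omega

end Sit

end Pool.Agent.TH144.MB
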