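import Pool.Agent.TH144.MB.CM

/-!
# The degrees of finite linear sections

`TopBound I ρ`: whenever the zero set of `I` meets a linear subspace only in `0`, all forms of degree
`> ρ` lie in the sum of `I` and the ideal of the linear subspace. This holds for the ideal generated
by forms of degrees `d j` with `ρ = ∑ (d j - 1)`, and for Cohen-Macaulay quotients.
-/

set_option autoImplicit false

namespace Pool.Agent.TH144.MB

open MvPolynomial Module

variable {σ : Type} {K : Type} [Field K]

/-- Whenever linear forms `L i` have no nonzero common zero on the zero set of `I`, all forms of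
degree `> ρ` lie in `I + (L i)`. -/
def TopBound [Fintype σ] (I : Ideal (MvPolynomial σ K)) (ρ : ℕ) : Prop :=
  ∀ (s : ℕ) (L : Fin s → σ → K),
    (∀ v : σ → K, (∀ p ∈ I, eval v p = 0) → (∀ i, eval v (lin (L i)) = 0) → v = 0) →
    ∀ t, ρ < t → ∀ p : MvPolynomial σ K, p.IsHomogeneous t →
      p ∈ I ⊔ Ideal.span (Set.range fun i => lin (L i))

theorem lin_zero [Fintype σ] : (lin (0 : σ → K)) = 0 := by
  simp [lin]

theorem lin_sub_smul [Fintype σ] (a b : σ → K) (c : K) :
    lin (a - c • b) = lin a - C c * lin b := by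
  simp only [lin, Pi.sub_apply, Pi.smul_apply, smul_eq_mul, map_sub, map_mul, sub_mul,
    Finset.sum_sub_distrib, Finset.mul_sum, mul_assoc]

theorem topBound_forms [Fintype σ] [IsAlgClosed K] {c : ℕ} (f : Fin c → MvPolynomial σ K)
    (d : Fin c → ℕ) (hf : ∀ j, (f j).IsHomogeneous (d j)) (hd : ∀ j, 0 < d j) :
    TopBound (Ideal.span (Set.range f)) (∑ j, (d j - 1)) := by
  intro s L hv t ht p hp
  let F : Fin c ⊕ (Fin s ⊕ σ) → MvPolynomial σ K :=
    Sum.elim f (Sum.elim (fun i => lin (L i)) fun _ => 0)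
  let D : Fin c ⊕ (Fin s ⊕ σ) → ℕ := Sum.elim d (Sum.elim (fun _ => 1) fun _ => 1)
  have h1 := macaulay F D (by
    rintro (j | i | i)
    · exact hf j
    · exact lin_hom _
    · exact isHomogeneous_zero _ _ _) (by
    rintro (j | i | i)
    · exact hd j
    · exact one_pos
    · exact one_pos) (by
    rw [Fintype.card_sum, Fintype.card_sum]
    omega) (by
    intro v h
    refine hv v ?_ fun i => h (Sum.inr (Sum.inl i))
    intro p hp
    have h2 : Ideal.span (Set.range f) ≤ RingHom.ker (eval v) := by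
      rw [Ideal.span_le]
      rintro _ ⟨j, rfl⟩
      exact RingHom.mem_ker.2 (h (Sum.inl j))
    exact RingHom.mem_ker.1 (h2 hp)) (t := t) (by
    rw [Fintype.sum_sum_type, Fintype.sum_sum_type]
    simpa [D] using ht) hp
  have h2 : Ideal.span (Set.range F) ≤
      Ideal.span (Set.range f) ⊔ Ideal.span (Set.range fun i => lin (L i)) := by
    rw [Ideal.span_le]
    rintro _ ⟨j | i | i, rfl⟩
    · exact Ideal.mem_sup_left (Ideal.subset_span ⟨j, rfl⟩)
    · exact Ideal.mem_sup_right (Ideal.subset_span ⟨i, rfl⟩)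
    · exact Ideal.zero_mem _
  exact h2 h1

theorem relation [Fintype σ] [Infinite K] {I : Ideal (MvPolynomial σ K)} {c₁ n : ℕ}
    (hC : ∀ t, finrank K (W I t) ≤ c₁ * (t + 1) ^ n) {ι : Type} [Fintype ι]
    (hι : n + 1 ≤ Fintype.card ι) (l : ι → σ → K) (b : σ → K) :
    ∃ c : ι → K, ∀ v : σ → K, (∀ p ∈ I, eval v p = 0) →
      (∀ i, eval v (lin (l i)) = c i * eval v (lin b)) → eval v (lin b) = 0 := by
  classical
  obtain ⟨j⟩ : Nonempty (Fin (n + 1) ↪ ι) := by
    rw [Function.Embedding.nonempty_iff_card_le, Fintype.card_fin]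
    exact hι
  set m := c₁ * (n + 1) ^ n with hm
  let F : (Fin (n + 1) → Fin (m + 1)) → MvPolynomial σ K := fun e =>
    (∏ i, lin (l (j i)) ^ (e i : ℕ)) * lin b ^ ((n + 1) * m - ∑ i, (e i : ℕ))
  have hsum : ∀ e : Fin (n + 1) → Fin (m + 1), ∑ i, (e i : ℕ) ≤ (n + 1) * m := by
    intro e
    calc ∑ i, (e i : ℕ) ≤ ∑ _i : Fin (n + 1), m :=
          Finset.sum_le_sum fun i _ => by have := (e i).2; omega
      _ = (n + 1) * m := by simp
  have hF : ∀ e, (F e).IsHomogeneous ((n + 1) * m) := by
    intro e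
    have h1 : (∏ i, lin (l (j i)) ^ (e i : ℕ)).IsHomogeneous (∑ i, 1 * (e i : ℕ)) :=
      IsHomogeneous.prod _ _ _ fun i _ => (lin_hom _).pow _
    have h2 := h1.mul ((lin_hom b).pow ((n + 1) * m - ∑ i, (e i : ℕ)))
    simp only [one_mul] at h2
    rwa [Nat.add_sub_cancel' (hsum e)] at h2
  have hlt : finrank K (W I ((n + 1) * m)) < Fintype.card (Fin (n + 1) → Fin (m + 1)) := by
    rw [Fintype.card_fun, Fintype.card_fin, Fintype.card_fin]
    refine (hC _).trans_lt ?_
    have h1 : (n + 1) * m + 1 ≤ (n + 1) * (m + 1) := by nlinarith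
    calc c₁ * ((n + 1) * m + 1) ^ n ≤ c₁ * ((n + 1) * (m + 1)) ^ n :=
          Nat.mul_le_mul_left _ (Nat.pow_le_pow_left h1 _)
      _ = m * (m + 1) ^ n := by rw [mul_pow, hm]; ring
      _ < (m + 1) * (m + 1) ^ n := by
          apply Nat.mul_lt_mul_of_pos_right (by omega)
          positivity
      _ = (m + 1) ^ (n + 1) := by ring
  have hdep : ¬ LinearIndependent K (fun e : Fin (n + 1) → Fin (m + 1) =>
      (⟨Ideal.Quotient.mk I (F e), mem_W.2 ⟨_, hF e, rfl⟩⟩ : W I ((n + 1) * m))) := by
    intro h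
    exact absurd h.fintype_card_le_finrank (by omega)
  rw [Fintype.not_linearIndependent_iff] at hdep
  obtain ⟨g, hg, e0, he0⟩ := hdep
  have h1 : ∑ e, C (g e) * F e ∈ I := by
    rw [← Ideal.Quotient.eq_zero_iff_mem, map_sum]
    have h2 := congrArg (Submodule.subtype (W I ((n + 1) * m))) hg
    rw [map_sum, map_zero] at h2
    rw [← h2]
    refine Finset.sum_congr rfl fun e _ => ?_
    rw [map_smul, Submodule.subtype_apply, ← smul_eq_C_mul]
    exact map_smul (Ideal.Quotient.mkₐ K I) (g e) (F e)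
  let E : (Fin (n + 1) → Fin (m + 1)) → (Fin (n + 1) →₀ ℕ) := fun e =>
    Finsupp.equivFunOnFinite.symm fun i => (e i : ℕ)
  have hE : Function.Injective E := by
    intro e e' h
    funext i
    have h2 := DFunLike.congr_fun h i
    exact Fin.ext h2
  set Φ : MvPolynomial (Fin (n + 1)) K := ∑ e, monomial (E e) (g e) with hΦ
  have hΦ0 : Φ ≠ 0 := by
    intro h
    apply he0
    have h2 : coeff (E e0) Φ = g e0 := by
      rw [hΦ, coeff_sum, Finset.sum_eq_single e0]
      · rw [coeff_monomial, if_pos rfl]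
      · intro e _ he
        rw [coeff_monomial, if_neg fun h => he (hE h)]
      · intro h; exact absurd (Finset.mem_univ _) h
    rw [← h2, h, coeff_zero]
  obtain ⟨c0, hc0⟩ : ∃ c0 : Fin (n + 1) → K, eval c0 Φ ≠ 0 := by
    by_contra hcon
    push Not at hcon
    exact hΦ0 (MvPolynomial.funext fun c => by rw [hcon c, map_zero])
  have hc1 : eval c0 Φ = ∑ e, g e * ∏ i, c0 i ^ (e i : ℕ) := by
    rw [hΦ, map_sum]
    refine Finset.sum_congr rfl fun e _ => ?_
    rw [eval_monomial, Finsupp.prod_fintype _ _ (fun i => pow_zero _)]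
    rfl
  refine ⟨Function.extend j c0 0, fun v hv hvl => ?_⟩
  have h2 : ∀ i, eval v (lin (l (j i))) = c0 i * eval v (lin b) := by
    intro i
    rw [hvl, j.injective.extend_apply]
  have h3 := hv _ h1
  rw [map_sum] at h3
  have h4 : ∀ e, eval v (C (g e) * F e)
      = eval v (lin b) ^ ((n + 1) * m) * (g e * ∏ i, c0 i ^ (e i : ℕ)) := by
    intro e
    simp only [F, map_mul, map_prod, map_pow, eval_C, h2, mul_pow, Finset.prod_mul_distrib]
    rw [Finset.prod_pow_eq_pow_sum]
    have h5 : eval v (lin b) ^ ((n + 1) * m)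
        = eval v (lin b) ^ (∑ i, (e i : ℕ))
          * eval v (lin b) ^ ((n + 1) * m - ∑ i, (e i : ℕ)) := by
      rw [← pow_add, Nat.add_sub_cancel' (hsum e)]
    rw [h5]
    ring
  simp only [h4] at h3
  rw [← Finset.mul_sum, ← hc1] at h3
  by_contra h5
  exact (mul_ne_zero (pow_ne_zero _ h5) hc0) h3

/-- Cohen-Macaulay quotients: `a` is a regular sequence of linear forms modulo `I`, and `I + (a)`
contains all forms of degree `> τ`. -/
theorem topBound_cm [Fintype σ] [IsAlgClosed K] {I : Ideal (MvPolynomial σ K)} (hI : Hom I)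
    {τ : ℕ} (as : List (σ → K)) (hreg : Reg I (as.map lin))
    (hτ : ∀ t, τ < t → ∀ p : MvPolynomial σ K, p.IsHomogeneous t → p ∈ ext I (as.map lin)) :
    TopBound I τ := by
  have := IsAlgClosed.instInfinite (K := K)
  intro s L hv t ht p hp
  rcases as with _ | ⟨a, as⟩
  · exact Ideal.mem_sup_left (hτ t ht p hp)
  set n := as.length with hn
  obtain ⟨c₁, hC⟩ := growth n (a :: as) (by simp [hn]) I hI hτ
  have key : ∀ (k : ℕ) (L : Fin (n + 1 + k) → σ → K),
      (∀ v : σ → K, (∀ p ∈ I, eval v p = 0) → (∀ i, eval v (lin (L i)) = 0) → v = 0) →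
      p ∈ I ⊔ Ideal.span (Set.range fun i => lin (L i)) := by
    intro k
    induction k with
    | zero =>
      intro L hv
      obtain ⟨_, h1⟩ := exchange (τ := τ) (n + 1) (a :: as) (List.ofFn L) (by simp [hn])
        (by simp) I hI hreg hτ (by
          intro v h1 h2
          exact hv v h1 fun i => h2 _ (by rw [List.mem_ofFn]; exact ⟨i, rfl⟩))
      refine ext_le _ _ _ le_sup_left ?_ (h1 t ht p hp)
      intro g hg
      rw [List.mem_map] at hg
      obtain ⟨x, hx, rfl⟩ := hg
      rw [List.mem_ofFn] at hx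
      obtain ⟨i, rfl⟩ := hx
      exact Ideal.mem_sup_right (Ideal.subset_span ⟨i, rfl⟩)
    | succ k ih =>
      intro L hv
      let b : σ → K := L (Fin.last (n + 1 + k))
      let l : Fin (n + 1 + k) → σ → K := fun i => L i.castSucc
      obtain ⟨c, hc⟩ := relation hC (by rw [Fintype.card_fin]; omega) l b
      have h1 := ih (fun i => l i - c i • b) (by
        intro v h1 h2
        have h3 : ∀ i, eval v (lin (l i)) = c i * eval v (lin b) := by
          intro i
          have h4 := h2 i
          rw [lin_sub_smul, map_sub, map_mul, eval_C, sub_eq_zero] at h4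
          exact h4
        have h5 := hc v h1 h3
        refine hv v h1 fun i => ?_
        refine Fin.lastCases ?_ (fun i => ?_) i
        · exact h5
        · have := h3 i
          rw [h5, mul_zero] at this
          exact this)
      refine (sup_le le_sup_left ?_ : I ⊔ Ideal.span (Set.range fun i => lin (l i - c i • b)) ≤ _) h1
      rw [Ideal.span_le]
      rintro _ ⟨i, rfl⟩
      show lin (l i - c i • b) ∈ _
      rw [lin_sub_smul]
      exact Ideal.sub_mem _ (Ideal.mem_sup_right (Ideal.subset_span ⟨i.castSucc, rfl⟩))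
        (Ideal.mul_mem_left _ _ (Ideal.mem_sup_right (Ideal.subset_span ⟨Fin.last _, rfl⟩)))
  have h1 := key s (fun i => if h : (i : ℕ) < s then L ⟨i, h⟩ else 0) (by
    intro v h1 h2
    refine hv v h1 fun i => ?_
    have h3 := h2 ⟨i, by have := i.2; omega⟩
    simpa using h3)
  refine (sup_le le_sup_left ?_ : I ⊔ Ideal.span _ ≤ _) h1
  rw [Ideal.span_le]
  rintro _ ⟨i, rfl⟩
  by_cases h : (i : ℕ) < s
  · simp only [h, dite_true]
    exact Ideal.mem_sup_right (Ideal.subset_span ⟨⟨i, h⟩, rfl⟩)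
  · simp only [h, dite_false, lin_zero]
    exact Ideal.zero_mem _

end Pool.Agent.TH144.MB
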